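import Pool.Agent.E8helper85.NS.Plane2

/-!
# The plane: ergodicity
-/

set_option autoImplicit false

open MeasureTheory Filter Topology Set
open scoped ENNReal commutatorElement

namespace Pool.Agent.E8helper85.NS

lemma er_eq {F : ℝ × ℝ → ℝ} (t τ R : ℝ) (h : ∀ᵐ x : ℝ, F (x, τ * x) = Bar F τ)
    (hF : Measurable F) :
    ∫⁻ p in box R, ‖F (mm t τ p) - Bar F τ‖ₑ = er F t τ R := by
  unfold er
  have h1 : ∀ᵐ p : ℝ × ℝ, F (p.1, τ * p.1) = Bar F τ := by
    rw [Measure.volume_eq_prod, Measure.ae_prod_iff_ae_ae]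
    · filter_upwards [h] with x hx
      exact Eventually.of_forall fun _ => hx
    · exact measurableSet_eq_fun (hF.comp (by fun_prop)) measurable_const
  refine lintegral_congr_ae (ae_restrict_of_ae ?_)
  filter_upwards [h1] with p hp
  rw [hp]

lemma transfer (P : Set (ℝ × ℝ)) (hP : MeasurableSet P)
    (h : ∀ᵐ τ : ℝ, ∀ᵐ x : ℝ, (x, τ * x) ∈ P) : ∀ᵐ p : ℝ × ℝ, p ∈ P := by
  have hm : Measurable fun z : ℝ × ℝ => (z.2, z.1 * z.2) := by fun_prop
  have h' : ∀ᵐ x : ℝ, ∀ᵐ τ : ℝ, (x, τ * x) ∈ P :=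
    (Measure.ae_ae_comm (p := fun τ x => (x, τ * x) ∈ P) (hP.preimage hm)).1 h
  rw [Measure.volume_eq_prod]
  refine (Measure.ae_prod_iff_ae_ae (p := fun p => p ∈ P) hP).2 ?_
  have hne : ∀ᵐ x : ℝ, x ≠ 0 := by
    rw [ae_iff]; simp
  filter_upwards [h', hne] with x hx hx0
  have hq : Measure.QuasiMeasurePreserving (fun y : ℝ => x⁻¹ * y) volume volume := by
    refine ⟨by fun_prop, ?_⟩
    rw [Real.map_volume_mul_left (inv_ne_zero hx0)]
    exact Measure.smul_absolutelyContinuous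
  filter_upwards [hq.ae hx] with y hy
  have : x⁻¹ * y * x = y := by field_simp
  rwa [this] at hy

lemma ae_zero_of_setLIntegral {A : ℝ → ℝ≥0∞} (hA : Measurable A)
    (h : ∀ R : ℝ, ∫⁻ τ in Icc (-R) R, A τ = 0) : ∀ᵐ τ, A τ = 0 := by
  have h2 : ∀ᵐ τ : ℝ, ∀ n : ℕ, |τ| ≤ n → A τ = 0 := by
    rw [ae_all_iff]
    intro n
    have h3 := h n
    rw [lintegral_eq_zero_iff hA, EventuallyEq, ae_restrict_iff' measurableSet_Icc] at h3
    filter_upwards [h3] with τ hτ hn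
    exact hτ (abs_le.1 hn)
  filter_upwards [h2] with τ hτ
  obtain ⟨n, hn⟩ := exists_nat_ge |τ|
  exact hτ n hn

/-- **Step B** -/
theorem stepB {Λ Γ : Subgroup G} {Q : ℝ} (hcoc : Coc Λ Q) (hirr : Irr Γ Q)
    (hnorm : ∀ g ∈ Λ, ∀ γ ∈ Γ, g⁻¹ * γ * g ∈ Γ) {F : ℝ × ℝ → ℝ} (hF : Measurable F) {M : ℝ}
    (hM : ∀ p, |F p| ≤ M) (hinv : ∀ γ ∈ Γ, Inv F γ) {z : G} (hz : z ∈ Λ)
    (hcomm : ∀ g ∈ Λ, Inv F (g⁻¹ * z⁻¹ * g * z)) : Inv F z := by
  set F2 : ℝ × ℝ → ℝ := fun p => F (ra p z) with hF2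
  have hF2m : Measurable F2 := hF.comp (measurable_ra z)
  have hM2 : ∀ p, |F2 p| ≤ M := fun p => hM _
  have hinv2 : ∀ γ ∈ Γ, Inv F2 γ := by
    intro γ hγ
    have h1 := (measurePreserving_ra z).quasiMeasurePreserving.ae (hinv _ (hnorm z hz γ hγ))
    unfold Inv
    filter_upwards [h1] with p hp
    simp only [hF2]
    rw [← hp, ← ra_mul, ← ra_mul]
    congr 2
    group
  have hB := stepA hcoc hirr hnorm hF hM hinv
  have hB2 := stepA hcoc hirr hnorm hF2m hM2 hinv2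
  have hvol : (1 : ℝ≥0∞) ≤ volume (box 1) := by
    unfold box
    rw [Measure.volume_eq_prod, Measure.prod_prod, Real.volume_Icc]
    rw [← ENNReal.ofReal_mul (by norm_num)]
    rw [ENNReal.one_le_ofReal]
    norm_num
  have hQ0 : 0 ≤ Q := by
    obtain ⟨c, _, _, hc, _⟩ := hcoc 1
    exact (q_nonneg c).trans hc
  have hzero : ∀ᵐ τ : ℝ, ‖Bar F2 τ - Bar F τ‖ₑ = 0 := by
    refine ae_zero_of_setLIntegral
      ((measurable_Bar hF2m).sub (measurable_Bar hF)).enorm fun R => ?_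
    obtain ⟨R', hR'⟩ : ∃ R', R' = max 1 (2 * √(Q * q z * Q) * 1) := ⟨_, rfl⟩
    refine zero_of_le hF hF2m hM hM2 _ R R' (C := 1) ENNReal.one_ne_top ?_
    intro t _
    filter_upwards [hB, hB2] with τ h1 h2
    obtain ⟨c, g', hg', hc, hg⟩ := hcoc (a t * u τ)
    obtain ⟨k, hk⟩ : ∃ k, k = c * z * c⁻¹ := ⟨_, rfl⟩
    have hqk : q k ≤ Q * q z * Q := by
      rw [hk]
      refine (q_mul_le _ _).trans ?_
      rw [q_inv]
      exact mul_le_mul ((q_mul_le _ _).trans (mul_le_mul_of_nonneg_right hc (q_nonneg _))) hc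
        (q_nonneg _) (mul_nonneg hQ0 (q_nonneg _))
    have hmk : ∀ p, ra (mm t τ p) z = ra (mm t τ (ra p k)) (g'⁻¹ * z⁻¹ * g' * z) := by
      intro p
      rw [mm_eq, mm_eq, ra_smul, ra_smul, ← ra_mul, ← ra_mul, ← ra_mul, hg, hk]
      congr 2
      group
    have hae : ∀ᵐ p, F (ra (mm t τ p) z) = F (mm t τ (ra p k)) := by
      have h3 := ((qmp_mm t τ).comp (measurePreserving_ra k).quasiMeasurePreserving).ae
        (hcomm g' hg')
      filter_upwards [h3] with p hp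
      rw [hmk]
      exact hp
    have hm1 : Measurable fun p : ℝ × ℝ => ‖F (mm t τ p) - Bar F τ‖ₑ :=
      ((hF.comp (measurable_mm t τ)).sub measurable_const).enorm
    have hm2 : Measurable fun p : ℝ × ℝ => ‖F2 (mm t τ p) - Bar F2 τ‖ₑ :=
      ((hF2m.comp (measurable_mm t τ)).sub measurable_const).enorm
    calc ‖Bar F2 τ - Bar F τ‖ₑ ≤ ‖Bar F2 τ - Bar F τ‖ₑ * volume (box 1) :=
        le_mul_of_one_le_right' hvol
      _ = ∫⁻ _p in box 1, ‖Bar F2 τ - Bar F τ‖ₑ := by rw [setLIntegral_const]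
      _ ≤ ∫⁻ p in box 1, (‖F (mm t τ (ra p k)) - Bar F τ‖ₑ + ‖F2 (mm t τ p) - Bar F2 τ‖ₑ) := by
          refine lintegral_mono_ae (ae_restrict_of_ae ?_)
          filter_upwards [hae] with p hp
          have h5 : Bar F2 τ - Bar F τ =
              (F (mm t τ (ra p k)) - Bar F τ) - (F2 (mm t τ p) - Bar F2 τ) := by
            simp only [hF2]
            rw [hp]; ring
          rw [h5]
          exact enorm_sub_le
      _ = (∫⁻ p in box 1, ‖F (mm t τ (ra p k)) - Bar F τ‖ₑ) +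
          ∫⁻ p in box 1, ‖F2 (mm t τ p) - Bar F2 τ‖ₑ := by
          rw [lintegral_add_right _ hm2]
      _ ≤ er F t τ R' + er F2 t τ R' := by
          refine add_le_add ?_ ?_
          · rw [← er_eq t τ R' h1 hF]
            refine lintegral_box_ra_le (fun p => ‖F (mm t τ p) - Bar F τ‖ₑ) hm1 k zero_le_one ?_
            rw [hR']
            refine le_trans ?_ (le_max_right _ _)
            have := Real.sqrt_le_sqrt hqk
            linarith
          · rw [er_eq t τ 1 h2 hF2m]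
            exact er_mono F2 t τ (by rw [hR']; exact le_max_left _ _)
      _ = 1 * (er F t τ R' + er F2 t τ R') := by rw [one_mul]
  refine transfer {p | F (ra p z) = F p} (measurableSet_eq_fun hF2m hF) ?_
  filter_upwards [hB, hB2, hzero] with τ h1 h2 h3
  rw [enorm_eq_zero, sub_eq_zero] at h3
  filter_upwards [h1, h2] with x hx hx2
  show F2 (x, τ * x) = F (x, τ * x)
  rw [hx, hx2, h3]

/-- **Step C** -/
theorem stepC {Λ Γ : Subgroup G} {Q : ℝ} (hcoc : Coc Λ Q) (hirr : Irr Γ Q) (hΓΛ : Γ ≤ Λ)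
    (hnorm : ∀ g ∈ Λ, ∀ γ ∈ Γ, g⁻¹ * γ * g ∈ Γ) {F : ℝ × ℝ → ℝ} (hF : Measurable F) {M : ℝ}
    (hM : ∀ p, |F p| ≤ M) (hinv : ∀ g ∈ Λ, Inv F g) : ∃ c, ∀ᵐ p, F p = c := by
  have hB := stepA hcoc hirr hnorm hF hM (fun γ hγ => hinv γ (hΓΛ hγ))
  have hom : ∀ s : ℝ, s ≠ 0 → ∀ᵐ p : ℝ × ℝ, F (s • p) = F p := by
    intro s hs
    refine transfer {p | F (s • p) = F p} (measurableSet_eq_fun (hF.comp (by fun_prop)) hF) ?_
    filter_upwards [hB] with τ h1
    have hq : Measure.QuasiMeasurePreserving (fun y : ℝ => s * y) volume volume := by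
      refine ⟨by fun_prop, ?_⟩
      rw [Real.map_volume_mul_left hs]
      exact Measure.smul_absolutelyContinuous
    filter_upwards [h1, hq.ae h1] with x hx hx2
    show F (s • (x, τ * x)) = F (x, τ * x)
    have : s • (x, τ * x) = (s * x, τ * (s * x)) := by
      ext <;> simp; ring
    rw [this, hx, hx2]
  have hzero : ∀ n : ℕ, ∀ᵐ τ : ℝ, ∫⁻ p in box n, ‖F p - Bar F τ‖ₑ = 0 := by
    intro n
    have hm0 : Measurable fun z : ℝ × (ℝ × ℝ) => ‖F z.2 - Bar F z.1‖ₑ :=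
      ((hF.comp measurable_snd).sub ((measurable_Bar hF).comp measurable_fst)).enorm
    refine ae_zero_of_setLIntegral
      (hm0.lintegral_prod_right' (ν := volume.restrict (box n))) fun R => ?_
    obtain ⟨R', hR'⟩ : ∃ R', R' = 2 * √Q * n := ⟨_, rfl⟩
    refine zero_of_le hF hF hM hM _ R R' (C := 1) ENNReal.one_ne_top ?_
    intro t _
    filter_upwards [hB] with τ h1
    obtain ⟨c, g', hg', hc, hg⟩ := hcoc (a t * u τ)
    have hexp : Real.exp (-(t / 2)) ≠ 0 := (Real.exp_pos _).ne'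
    have hae : ∀ᵐ p, F (mm t τ p) = F (ra p c) := by
      have h3 := ((qmp_smul hexp).comp (measurePreserving_ra c).quasiMeasurePreserving).ae
        (hinv g' hg')
      have h4 := (measurePreserving_ra c).quasiMeasurePreserving.ae (hom _ hexp)
      filter_upwards [h3, h4] with p hp hp4
      rw [mm_eq, hg, ra_mul, ← ra_smul, ← hp4]
      exact hp
    have hm1 : Measurable fun p : ℝ × ℝ => ‖F (ra p c) - Bar F τ‖ₑ :=
      ((hF.comp (measurable_ra c)).sub measurable_const).enorm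
    calc ∫⁻ p in box n, ‖F p - Bar F τ‖ₑ =
        ∫⁻ p in box n, (fun p => ‖F (ra p c) - Bar F τ‖ₑ) (ra p c⁻¹) := by
          refine lintegral_congr fun p => ?_
          simp only
          rw [← ra_mul, inv_mul_cancel, ra_one]
      _ ≤ ∫⁻ p in box R', ‖F (ra p c) - Bar F τ‖ₑ := by
          refine lintegral_box_ra_le _ hm1 c⁻¹ (Nat.cast_nonneg n) ?_
          rw [q_inv, hR']
          have := Real.sqrt_le_sqrt hc
          gcongr
      _ = ∫⁻ p in box R', ‖F (mm t τ p) - Bar F τ‖ₑ := by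
          refine lintegral_congr_ae (ae_restrict_of_ae ?_)
          filter_upwards [hae] with p hp
          rw [hp]
      _ = er F t τ R' := er_eq t τ R' h1 hF
      _ ≤ 1 * (er F t τ R' + er F t τ R') := by rw [one_mul]; exact le_self_add
  have hall := ae_all_iff.2 hzero
  obtain ⟨τ, hτ⟩ := hall.exists
  refine ⟨Bar F τ, ?_⟩
  have h4 : ∀ᵐ p : ℝ × ℝ, ∀ n : ℕ, p ∈ box n → F p = Bar F τ := by
    rw [ae_all_iff]
    intro n
    have h5 := hτ n
    rw [lintegral_eq_zero_iff (by fun_prop), EventuallyEq,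
      ae_restrict_iff' (measurableSet_box _)] at h5
    filter_upwards [h5] with p hp hpb
    have := hp hpb
    simp only [Pi.zero_apply, enorm_eq_zero] at this
    exact sub_eq_zero.1 this
  filter_upwards [h4] with p hp
  obtain ⟨n, hn⟩ := exists_nat_ge (max |p.1| |p.2|)
  exact hp n ⟨abs_le.1 ((le_max_left _ _).trans hn), abs_le.1 ((le_max_right _ _).trans hn)⟩

/-- **Ergodicity in the plane** -/
theorem plane_ergodic {Λ Γ : Subgroup G} {Q : ℝ} (hcoc : Coc Λ Q) (hirr : Irr Γ Q) (hΓΛ : Γ ≤ Λ)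
    [hN : (Γ.subgroupOf Λ).Normal] (hnil : Group.IsNilpotent (Λ ⧸ Γ.subgroupOf Λ))
    {F : ℝ × ℝ → ℝ} (hF : Measurable F) {M : ℝ}
    (hM : ∀ p, |F p| ≤ M) (hinv : ∀ γ ∈ Γ, Inv F γ) : ∃ c, ∀ᵐ p, F p = c := by
  have hnorm : ∀ g ∈ Λ, ∀ γ ∈ Γ, g⁻¹ * γ * g ∈ Γ := by
    intro g hg γ hγ
    have h := hN.conj_mem ⟨γ, hΓΛ hγ⟩ (Subgroup.mem_subgroupOf.2 hγ) ⟨g, hg⟩⁻¹
    rw [Subgroup.mem_subgroupOf] at h
    simpa using h
  obtain ⟨n, hn⟩ := hnil.nilpotent
  have key : ∀ i : ℕ, ∀ z : Λ, (QuotientGroup.mk z : Λ ⧸ Γ.subgroupOf Λ) ∈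
      Subgroup.upperCentralSeries (Λ ⧸ Γ.subgroupOf Λ) i → Inv F (z : G) := by
    intro i
    induction i with
    | zero =>
      intro z hz
      rw [Subgroup.upperCentralSeries_zero, Subgroup.mem_bot, QuotientGroup.eq_one_iff,
        Subgroup.mem_subgroupOf] at hz
      exact hinv _ hz
    | succ i ih =>
      intro z hz
      refine stepB hcoc hirr hnorm hF hM hinv z.2 ?_
      intro g hg
      have h1 : (QuotientGroup.mk (z⁻¹) : Λ ⧸ Γ.subgroupOf Λ) ∈
          Subgroup.upperCentralSeries (Λ ⧸ Γ.subgroupOf Λ) (i + 1) := by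
        rw [QuotientGroup.mk_inv]
        exact inv_mem hz
      rw [Subgroup.mem_upperCentralSeries_succ_iff] at h1
      have h2 := inv_mem (h1 (QuotientGroup.mk (⟨g, hg⟩⁻¹ : Λ)))
      rw [commutatorElement_inv] at h2
      have h3 := ih (⁅(⟨g, hg⟩⁻¹ : Λ), z⁻¹⁆) h2
      rw [commutatorElement_def] at h3
      simpa using h3
  refine stepC hcoc hirr hΓΛ hnorm hF hM ?_
  intro g hg
  have h1 := key n ⟨g, hg⟩ (by rw [hn]; exact Subgroup.mem_top _)
  exact h1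

end Pool.Agent.E8helper85.NS
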