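import Pool.Agent.E8helper85.NS.Meas3
import Pool.Agent.E8helper85.NS.Plane3

/-!
# Ergodicity of the horocycle flow on `G ⧸ Γ`
-/

set_option autoImplicit false

open MeasureTheory Filter Topology Set
open scoped ENNReal NNReal

namespace Pool.Agent.E8helper85.NS

lemma measurable_of_entries {α : Type*} [MeasurableSpace α] {f : α → G}
    (h : ∀ i j, Measurable (fun x => f x i j)) : Measurable f := by
  have h1 : Measurable (ent ∘ f) := measurable_pi_lambda _ fun i => measurable_pi_lambda _ fun j =>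
    h i j
  have h2 : MeasurableEmbedding ent := ce_val.measurableEmbedding
  exact h2.measurable_comp_iff.1 h1

/-- section of the plane in the group -/
noncomputable def sg' (p : ℝ × ℝ) : G := if h : p.1 ^ 2 + p.2 ^ 2 ≠ 0 then sg p h else 1

lemma measurable_sg' : Measurable sg' := by
  have hset : MeasurableSet {p : ℝ × ℝ | p.1 ^ 2 + p.2 ^ 2 ≠ 0} := by
    apply MeasurableSet.compl
    exact measurableSet_eq_fun (by fun_prop) measurable_const
  refine measurable_of_entries fun i j => ?_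
  have key : (fun p => sg' p i j) = fun p : ℝ × ℝ =>
      if p.1 ^ 2 + p.2 ^ 2 ≠ 0 then
        (!![p.2 / (p.1 ^ 2 + p.2 ^ 2), - p.1 / (p.1 ^ 2 + p.2 ^ 2); p.1, p.2] : Matrix _ _ ℝ) i j
      else (1 : G) i j := by
    funext p
    unfold sg'
    by_cases h : p.1 ^ 2 + p.2 ^ 2 ≠ 0
    · rw [dif_pos h, if_pos h]; rfl
    · rw [dif_neg h, if_neg h]
  rw [key]
  refine Measurable.ite hset ?_ measurable_const
  fin_cases i <;> fin_cases j <;> simp <;> fun_prop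

lemma ra_sg' {p : ℝ × ℝ} (hp : p.1 ^ 2 + p.2 ^ 2 ≠ 0) : ra (0, 1) (sg' p) = p := by
  unfold sg'
  rw [dif_pos hp, ra_sg]

/-- the cocycle -/
noncomputable def tc (p : ℝ × ℝ) (g : G) : ℝ := (sg' p * g * (sg' (ra p g))⁻¹) 0 1

lemma ra_ne {p : ℝ × ℝ} (hp : p.1 ^ 2 + p.2 ^ 2 ≠ 0) (g : G) :
    (ra p g).1 ^ 2 + (ra p g).2 ^ 2 ≠ 0 := by
  refine sq_ne_zero_of fun hcon => hp ?_
  have : ra (ra p g) g⁻¹ = p := by rw [← ra_mul, mul_inv_cancel, ra_one]
  rw [hcon] at this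
  have h0 : ra (0 : ℝ × ℝ) g⁻¹ = 0 := by unfold ra; ext <;> simp
  rw [h0] at this
  rw [← this]
  simp

lemma sg'_mul {p : ℝ × ℝ} (hp : p.1 ^ 2 + p.2 ^ 2 ≠ 0) (g : G) :
    sg' p * g = u (tc p g) * sg' (ra p g) := by
  have h : ra (0, 1) (sg' p * g * (sg' (ra p g))⁻¹) = (0, 1) := by
    rw [ra_mul, ra_mul, ra_sg' hp]
    calc ra (ra p g) (sg' (ra p g))⁻¹ = ra (ra (0, 1) (sg' (ra p g))) (sg' (ra p g))⁻¹ := by
          rw [ra_sg' (ra_ne hp g)]
      _ = (0, 1) := by rw [← ra_mul, mul_inv_cancel, ra_one]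
  have := eq_u_of_row h
  unfold tc
  rw [← this]
  group

lemma measurable_tc (g : G) : Measurable (fun p => tc p g) := by
  unfold tc
  have h1 : Measurable fun p => sg' p * g * (sg' (ra p g))⁻¹ :=
    (measurable_sg'.mul_const g).mul ((measurable_sg'.comp (measurable_ra g)).inv)
  exact (continuous_entry 0 1).measurable.comp h1

/-- parametrization of the group -/
noncomputable def Phi (z : ℝ × (ℝ × ℝ)) : G := u z.1 * sg' z.2

lemma measurable_Phi : Measurable Phi := by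
  unfold Phi
  exact (continuous_u.measurable.comp measurable_fst).mul (measurable_sg'.comp measurable_snd)

lemma ae_ne : ∀ᵐ p : ℝ × ℝ, p.1 ^ 2 + p.2 ^ 2 ≠ 0 := by
  rw [ae_iff]
  have : {p : ℝ × ℝ | ¬ p.1 ^ 2 + p.2 ^ 2 ≠ 0} ⊆ {0} := by
    intro p hp
    by_contra hcon
    exact hp (sq_ne_zero_of hcon)
  exact measure_mono_null this (measure_singleton _)

/-- right Haar measure -/
noncomputable def kap : Measure G := (volume : Measure (ℝ × (ℝ × ℝ))).map Phi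

instance kap_sfin : SFinite kap := by unfold kap; infer_instance

lemma kap_univ_ne : kap univ ≠ 0 := by
  unfold kap
  rw [Measure.map_apply measurable_Phi MeasurableSet.univ, preimage_univ]
  exact (NeZero.ne _ : (volume : Measure (ℝ × (ℝ × ℝ))) univ ≠ 0)

lemma kap_right (g : G) {φ : G → ℝ≥0∞} (hφ : Measurable φ) :
    ∫⁻ x, φ (x * g) ∂kap = ∫⁻ x, φ x ∂kap := by
  unfold kap
  have hφ2 : Measurable fun x => φ (x * g) := hφ.comp (measurable_mul_const g)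
  rw [lintegral_map hφ2 measurable_Phi, lintegral_map hφ measurable_Phi]
  have hm1 : Measurable fun z => φ (Phi z * g) := hφ2.comp measurable_Phi
  have hm2 : Measurable fun z => φ (Phi z) := hφ.comp measurable_Phi
  rw [Measure.volume_eq_prod, lintegral_prod_symm _ hm1.aemeasurable,
    lintegral_prod_symm _ hm2.aemeasurable]
  have h1 : ∀ᵐ p : ℝ × ℝ, ∫⁻ t, φ (Phi (t, p) * g) = ∫⁻ t, φ (Phi (t, ra p g)) := by
    filter_upwards [ae_ne] with p hp
    have h2 : ∀ t, Phi (t, p) * g = Phi (t + tc p g, ra p g) := by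
      intro t
      unfold Phi
      simp only
      rw [mul_assoc, sg'_mul hp, u_add, mul_assoc]
    simp_rw [h2]
    exact lintegral_add_right_eq_self (μ := volume) (fun t => φ (Phi (t, ra p g))) (tc p g)
  rw [lintegral_congr_ae h1]
  have hm3 : Measurable fun p : ℝ × ℝ => ∫⁻ t, φ (Phi (t, p)) :=
    Measurable.lintegral_prod_left' (f := fun z : ℝ × (ℝ × ℝ) => φ (Phi z)) hm2
  exact (measurePreserving_ra g).lintegral_comp hm3

section

variable {Γ : Subgroup G} [DiscreteTopology Γ]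

lemma measurable_smul2 : Measurable fun z : G × (G ⧸ Γ) => z.1 • z.2 :=
  (continuous_smul : Continuous fun z : G × (G ⧸ Γ) => z.1 • z.2).measurable

/-- correspondence of measures -/
lemma kap_mul (μ : Measure (G ⧸ Γ)) [SFinite μ] [SMulInvariantMeasure G (G ⧸ Γ) μ]
    {E : Set (G ⧸ Γ)} (hE : MeasurableSet E) :
    kap univ * μ E = kap (QuotientGroup.mk ⁻¹' E) * μ univ := by
  have hm : Measurable fun z : G × (G ⧸ Γ) => E.indicator (1 : G ⧸ Γ → ℝ≥0∞) (z.1 • z.2) :=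
    (measurable_one.indicator hE).comp measurable_smul2
  have h1 : ∫⁻ g, ∫⁻ x, E.indicator (1 : G ⧸ Γ → ℝ≥0∞) (g • x) ∂μ ∂kap = kap univ * μ E := by
    have : ∀ g : G, ∫⁻ x, E.indicator (1 : G ⧸ Γ → ℝ≥0∞) (g • x) ∂μ = μ E := by
      intro g
      rw [(measurePreserving_smul g μ).lintegral_comp (measurable_one.indicator hE),
        lintegral_indicator_one hE]
    simp_rw [this]
    rw [lintegral_const, mul_comm]
  have h2 : ∫⁻ x, ∫⁻ g, E.indicator (1 : G ⧸ Γ → ℝ≥0∞) (g • x) ∂kap ∂μ =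
      kap (QuotientGroup.mk ⁻¹' E) * μ univ := by
    have : ∀ x : G ⧸ Γ, ∫⁻ g, E.indicator (1 : G ⧸ Γ → ℝ≥0∞) (g • x) ∂kap =
        kap (QuotientGroup.mk ⁻¹' E) := by
      intro x
      obtain ⟨h, rfl⟩ := QuotientGroup.mk_surjective x
      have h3 := kap_right h (φ := fun g : G => E.indicator (1 : G ⧸ Γ → ℝ≥0∞) (g : G ⧸ Γ))
        ((measurable_one.indicator hE).comp QuotientGroup.measurable_coe)
      have h4 : ∀ g : G, g • (h : G ⧸ Γ) = ((g * h : G) : G ⧸ Γ) := fun g => rfl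
      simp_rw [h4]
      rw [h3]
      rw [← lintegral_indicator_one (QuotientGroup.measurable_coe hE)]
      rfl
    simp_rw [this]
    rw [lintegral_const]
  rw [← h1, ← h2]
  exact lintegral_lintegral_swap hm.aemeasurable

lemma ae_iff_kap (μ : Measure (G ⧸ Γ)) [SFinite μ] [SMulInvariantMeasure G (G ⧸ Γ) μ]
    (hμ : μ ≠ 0) {P : G ⧸ Γ → Prop} (hP : MeasurableSet {x | P x}) :
    (∀ᵐ x ∂μ, P x) ↔ ∀ᵐ z : ℝ × (ℝ × ℝ), P (Phi z : G ⧸ Γ) := by
  have h1 := kap_mul μ hP.compl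
  have h2 : kap (QuotientGroup.mk ⁻¹' {x | P x}ᶜ) =
      volume {z : ℝ × (ℝ × ℝ) | ¬ P (Phi z : G ⧸ Γ)} := by
    unfold kap
    rw [Measure.map_apply measurable_Phi (QuotientGroup.measurable_coe hP.compl)]
    rfl
  rw [ae_iff, ae_iff, ← h2]
  have h3 : {a | ¬ P a} = {x | P x}ᶜ := rfl
  rw [h3]
  constructor
  · intro h
    rw [h, mul_zero] at h1
    exact (mul_eq_zero.1 h1.symm).resolve_right (by rwa [Measure.measure_univ_eq_zero])
  · intro h
    rw [h, zero_mul] at h1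
    exact (mul_eq_zero.1 h1).resolve_left kap_univ_ne

omit [DiscreteTopology Γ] in
lemma flow_const (H : ℝ → ℝ × ℝ → ℝ) (hHm : Measurable fun z : ℝ × (ℝ × ℝ) => H z.1 z.2)
    (h1 : ∀ t : ℝ, ∀ᵐ z : ℝ × (ℝ × ℝ), H (z.1 + t) z.2 = H z.1 z.2) :
    ∀ᵐ p : ℝ × ℝ, ∃ c, ∀ᵐ s : ℝ, H s p = c := by
  have hm : Measurable fun w : ℝ × (ℝ × (ℝ × ℝ)) => H (w.2.1 + w.1) w.2.2 :=
    hHm.comp (by fun_prop : Measurable fun w : ℝ × (ℝ × (ℝ × ℝ)) => (w.2.1 + w.1, w.2.2))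
  have hset : MeasurableSet {w : ℝ × (ℝ × (ℝ × ℝ)) | H (w.2.1 + w.1) w.2.2 = H w.2.1 w.2.2} :=
    measurableSet_eq_fun hm (hHm.comp measurable_snd)
  have h3 : ∀ᵐ z : ℝ × (ℝ × ℝ), ∀ᵐ t : ℝ, H (z.1 + t) z.2 = H z.1 z.2 :=
    (Measure.ae_ae_comm (μ := (volume : Measure ℝ)) (ν := (volume : Measure (ℝ × (ℝ × ℝ))))
      (p := fun (t : ℝ) (z : ℝ × (ℝ × ℝ)) => H (z.1 + t) z.2 = H z.1 z.2)
      hset).1 (Eventually.of_forall h1)
  have h4 : ∀ᵐ p : ℝ × ℝ, ∀ᵐ s : ℝ, ∀ᵐ t : ℝ, H (s + t) p = H s p := by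
    rw [Measure.volume_eq_prod] at h3
    exact Measure.ae_ae_of_ae_prod (Measure.measurePreserving_swap.quasiMeasurePreserving.ae h3)
  filter_upwards [h4] with p hp
  obtain ⟨s, hs⟩ := hp.exists
  refine ⟨H s p, ?_⟩
  have h5 : Measure.QuasiMeasurePreserving (fun t : ℝ => t - s) volume volume :=
    (measurePreserving_sub_right volume s).quasiMeasurePreserving
  filter_upwards [h5.ae hs] with t ht
  rwa [add_sub_cancel] at ht

omit [DiscreteTopology Γ] in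
lemma plane_part {Λ : Subgroup G} {Q : ℝ} (hcoc : Coc Λ Q) (hirr : Irr Γ Q) (hΓΛ : Γ ≤ Λ)
    [hN : (Γ.subgroupOf Λ).Normal] (hnil : Group.IsNilpotent (Λ ⧸ Γ.subgroupOf Λ))
    (H : ℝ → ℝ × ℝ → ℝ) (hHm : Measurable fun z : ℝ × (ℝ × ℝ) => H z.1 z.2) {M : ℝ}
    (hM : ∀ s p, |H s p| ≤ M) (h2 : ∀ᵐ p : ℝ × ℝ, ∃ c, ∀ᵐ s : ℝ, H s p = c)
    (hγ : ∀ γ ∈ Γ, ∀ s, ∀ p : ℝ × ℝ, p.1 ^ 2 + p.2 ^ 2 ≠ 0 → H s (ra p γ) = H (s - tc p γ) p) :
    ∃ c, ∀ᵐ z : ℝ × (ℝ × ℝ), H z.1 z.2 = c := by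
  have hHs : Measurable fun z : (ℝ × ℝ) × ℝ => H z.2 z.1 :=
    hHm.comp (measurable_snd.prodMk measurable_fst)
  obtain ⟨F, hF⟩ : ∃ F : ℝ × ℝ → ℝ, F = fun p => ∫ s in Icc (0 : ℝ) 1, H s p := ⟨_, rfl⟩
  have hFm : Measurable F := by
    rw [hF]
    exact (hHs.stronglyMeasurable.integral_prod_right'
      (ν := volume.restrict (Icc (0 : ℝ) 1))).measurable
  have hFM : ∀ p, |F p| ≤ M := by
    intro p
    have h3 := norm_setIntegral_le_of_norm_le_const (μ := volume) (s := Icc (0 : ℝ) 1)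
      (f := fun s => H s p) (C := M) (by simp) (fun s _ => hM _ _)
    rw [hF]
    simpa using h3
  have hFc : ∀ p c, (∀ᵐ s : ℝ, H s p = c) → F p = c := by
    intro p c h
    have h3 : F p = ∫ s in Icc (0 : ℝ) 1, c := by
      rw [hF]
      refine integral_congr_ae (ae_restrict_of_ae ?_)
      filter_upwards [h] with s hs using hs
    rw [h3]; simp
  have hFH : ∀ᵐ p : ℝ × ℝ, ∀ᵐ s : ℝ, H s p = F p := by
    filter_upwards [h2] with p hp
    obtain ⟨c, hc⟩ := hp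
    rwa [hFc p c hc]
  have hFinv : ∀ γ ∈ Γ, Inv F γ := by
    intro γ hγ'
    unfold Inv
    filter_upwards [hFH, ae_ne] with p hp hp0
    refine hFc _ _ ?_
    have h5 : Measure.QuasiMeasurePreserving (fun s : ℝ => s - tc p γ) volume volume :=
      (measurePreserving_sub_right volume _).quasiMeasurePreserving
    filter_upwards [h5.ae hp] with s hs
    rw [← hs, hγ γ hγ' s p hp0]
  obtain ⟨c, hc⟩ := plane_ergodic hcoc hirr hΓΛ hnil hFm hFM hFinv
  refine ⟨c, ?_⟩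
  have h7 : ∀ᵐ p : ℝ × ℝ, ∀ᵐ s : ℝ, H s p = c := by
    filter_upwards [hc, hFH] with p hp1 hp2
    rwa [hp1] at hp2
  have h8 : ∀ᵐ z : (ℝ × ℝ) × ℝ, H z.2 z.1 = c := by
    rw [Measure.volume_eq_prod]
    refine (Measure.ae_prod_iff_ae_ae (p := fun z : (ℝ × ℝ) × ℝ => H z.2 z.1 = c) ?_).2 h7
    exact measurableSet_eq_fun hHs measurable_const
  rw [Measure.volume_eq_prod] at h8 ⊢
  exact Measure.measurePreserving_swap.quasiMeasurePreserving.ae h8

theorem ergodic_bdd {Λ : Subgroup G} {Q : ℝ} (hcoc : Coc Λ Q) (hirr : Irr Γ Q) (hΓΛ : Γ ≤ Λ)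
    [hN : (Γ.subgroupOf Λ).Normal] (hnil : Group.IsNilpotent (Λ ⧸ Γ.subgroupOf Λ))
    (μ : Measure (G ⧸ Γ)) [SFinite μ] [SMulInvariantMeasure G (G ⧸ Γ) μ]
    (hμ : μ ≠ 0) {f : G ⧸ Γ → ℝ} (hf : Measurable f) {M : ℝ} (hM : ∀ x, |f x| ≤ M)
    (hinv : ∀ t : ℝ, ∀ᵐ x ∂μ, f (u t • x) = f x) : ∃ c, ∀ᵐ x ∂μ, f x = c := by
  have hHm : Measurable fun z : ℝ × (ℝ × ℝ) => f (Phi (z.1, z.2) : G) :=
    hf.comp (QuotientGroup.measurable_coe.comp measurable_Phi)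
  have h1 : ∀ t : ℝ, ∀ᵐ z : ℝ × (ℝ × ℝ), f (Phi (z.1 + t, z.2) : G) = f (Phi (z.1, z.2) : G) := by
    intro t
    have h2 := (ae_iff_kap μ hμ (P := fun x => f (u t • x) = f x)
      (measurableSet_eq_fun (hf.comp (measurable_const_smul (u t))) hf)).1 (hinv t)
    filter_upwards [h2] with z hz
    show f (Phi (z.1 + t, z.2) : G) = f (Phi z : G)
    rw [← hz]
    congr 1
    have h4 : ∀ g h : G, g • (h : G ⧸ Γ) = ((g * h : G) : G ⧸ Γ) := fun g h => rfl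
    rw [h4]
    congr 1
    unfold Phi
    simp only
    rw [← mul_assoc, ← u_add, add_comm]
  have h2 := flow_const (fun s p => f (Phi (s, p) : G)) hHm h1
  obtain ⟨c, hc⟩ := plane_part hcoc hirr hΓΛ hnil (fun s p => f (Phi (s, p) : G)) hHm
    (fun s p => hM _) h2 (by
      intro γ hγ s p hp0
      congr 1
      have h6 : Phi (s, ra p γ) = Phi (s - tc p γ, p) * γ := by
        unfold Phi
        simp only
        rw [mul_assoc, sg'_mul hp0, ← mul_assoc, ← u_add, sub_add_cancel]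
      rw [h6]
      exact QuotientGroup.mk_mul_of_mem _ hγ)
  refine ⟨c, ?_⟩
  rw [ae_iff_kap μ hμ (P := fun x => f x = c) (measurableSet_eq_fun hf measurable_const)]
  exact hc

/-- **Ergodicity of the horocycle flow** -/
theorem ergodic {Λ : Subgroup G} {Q : ℝ} (hcoc : Coc Λ Q) (hirr : Irr Γ Q) (hΓΛ : Γ ≤ Λ)
    [hN : (Γ.subgroupOf Λ).Normal] (hnil : Group.IsNilpotent (Λ ⧸ Γ.subgroupOf Λ))
    (μ : Measure (G ⧸ Γ)) [SFinite μ] [SMulInvariantMeasure G (G ⧸ Γ) μ]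
    (hμ : μ ≠ 0) {f : G ⧸ Γ → ℝ} (hf : AEMeasurable f μ)
    (hinv : ∀ t : ℝ, ∀ᵐ x ∂μ, f (u t • x) = f x) : ∃ c, ∀ᵐ x ∂μ, f x = c := by
  obtain ⟨g, hg, hfg⟩ := hf
  have h1 : ∀ t : ℝ, ∀ᵐ x ∂μ, Real.arctan (g (u t • x)) = Real.arctan (g x) := by
    intro t
    filter_upwards [hinv t, hfg, (measurePreserving_smul (u t) μ).quasiMeasurePreserving.ae hfg]
      with x h1 h2 h3
    rw [← h2, ← h3, h1]
  obtain ⟨c, hc⟩ := ergodic_bdd hcoc hirr hΓΛ hnil μ hμ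
    (f := fun x => Real.arctan (g x)) (Real.measurable_arctan.comp hg) (M := Real.pi / 2)
    (fun x => abs_le.2 ⟨(Real.neg_pi_div_two_lt_arctan _).le, (Real.arctan_lt_pi_div_two _).le⟩) h1
  refine ⟨Real.tan c, ?_⟩
  filter_upwards [hc, hfg] with x hx hx2
  rw [hx2, ← hx, Real.tan_arctan]

end

end Pool.Agent.E8helper85.NS
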