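import Pool.Agent.E8helper85.NS.Sq2

/-!
# Squashability: conclusion
-/

set_option autoImplicit false

open MeasureTheory Filter Topology Set
open scoped ENNReal NNReal

namespace Pool.Agent.E8helper85.NS

section

variable {X : Type*} [MeasurableSpace X] [MulAction G X] [MeasurableSMul₂ G X]
  {μ : Measure X} [SigmaFinite μ] [SMulInvariantMeasure G X μ]

/-- a nonsingular map commuting with the flow rescales the measure -/
theorem rescale (herg : Erg μ) (hμ : μ ≠ 0) (S : X ≃ᵐ X)
    (hS : Measure.QuasiMeasurePreserving S μ μ)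
    (hcomm : ∀ t : ℝ, ∀ᵐ x ∂μ, S (u t • x) = u t • S x) :
    ∃ c : ℝ, 0 < c ∧ μ.map S = ENNReal.ofReal c • μ := by
  have hsf : SigmaFinite (μ.map S) := S.sigmaFinite_map
  have hinv : ∀ (t : ℝ) (E : Set X), MeasurableSet E →
      (μ.map S) ((fun x => u t • x) ⁻¹' E) = (μ.map S) E := by
    intro t E hE
    have hm : MeasurableSet ((fun x : X => u t • x) ⁻¹' E) := hE.preimage (measurable_const_smul _)
    rw [Measure.map_apply S.measurable hm, Measure.map_apply S.measurable hE]
    have h1 : (S ⁻¹' ((fun x : X => u t • x) ⁻¹' E) : Set X) =ᵐ[μ]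
        (fun x : X => u t • x) ⁻¹' (S ⁻¹' E) := by
      filter_upwards [hcomm t] with x hx
      apply propext
      show u t • S x ∈ E ↔ S (u t • x) ∈ E
      rw [hx]
    rw [measure_congr h1]
    exact (measurePreserving_smul (u t) μ).measure_preimage
      (hE.preimage S.measurable).nullMeasurableSet
  obtain ⟨f, hf⟩ : ∃ f, f = (μ.map S).rnDeriv μ := ⟨_, rfl⟩
  have hfm : Measurable f := by rw [hf]; exact Measure.measurable_rnDeriv _ _
  have hwd : μ.withDensity f = μ.map S := by
    rw [hf]; exact Measure.withDensity_rnDeriv_eq _ _ hS.absolutelyContinuous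
  have hft : ∀ᵐ x ∂μ, f x < ∞ := by rw [hf]; exact Measure.rnDeriv_lt_top _ _
  have hfinv : ∀ t : ℝ, ∀ᵐ x ∂μ, f (u t • x) = f x := by
    intro t
    have hm : Measurable fun x => f (u t • x) := hfm.comp (measurable_const_smul _)
    have h1 : μ.withDensity (fun x => f (u t • x)) = μ.withDensity f := by
      refine Measure.ext fun E hE => ?_
      rw [hwd, withDensity_apply _ hE, ← hinv (-t) E hE, ← hwd,
        withDensity_apply _ (hE.preimage (measurable_const_smul _)), ← lintegral_indicator hE,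
        ← lintegral_indicator (hE.preimage (measurable_const_smul _))]
      rw [← lint_smul (μ := μ) (u t) (hfm.indicator (hE.preimage (measurable_const_smul _)))]
      refine lintegral_congr fun x => ?_
      have h2 : u (-t) • u t • x = x := by
        rw [← mul_smul, ← u_add, neg_add_cancel, u_zero, one_smul]
      by_cases hx : x ∈ E
      · have hx' : u t • x ∈ (fun x : X => u (-t) • x) ⁻¹' E := by
          show u (-t) • u t • x ∈ E
          rwa [h2]
        rw [indicator_of_mem hx, indicator_of_mem hx']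
      · have hx' : u t • x ∉ (fun x : X => u (-t) • x) ⁻¹' E := by
          show ¬ u (-t) • u t • x ∈ E
          rwa [h2]
        rw [indicator_of_notMem hx, indicator_of_notMem hx']
    exact (withDensity_eq_iff_of_sigmaFinite hm.aemeasurable hfm.aemeasurable).1 h1
  obtain ⟨c, hc⟩ := herg (fun x => (f x).toReal) hfm.ennreal_toReal.aemeasurable (fun t => by
    filter_upwards [hfinv t] with x hx
    rw [hx])
  have hfc : f =ᵐ[μ] fun _ => ENNReal.ofReal c := by
    filter_upwards [hc, hft] with x hx hx2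
    rw [← hx, ENNReal.ofReal_toReal hx2.ne]
  have hres : μ.map S = ENNReal.ofReal c • μ := by
    rw [← hwd, withDensity_congr_ae hfc, withDensity_const]
  refine ⟨c, ?_, hres⟩
  by_contra hcon
  rw [ENNReal.ofReal_of_nonpos (not_lt.1 hcon), zero_smul] at hres
  apply hμ
  exact (Measure.map_eq_zero_iff S.measurable.aemeasurable).1 hres

/-- indicator functions -/
lemma dom_ind {ω : X → ℝ} (hω : RW μ ω) {E : Set X} (hE : MeasurableSet E) {δ : ℝ} (hδ : 0 < δ)
    (h : ∀ x ∈ E, δ ≤ ω x) : Dom ω (E.indicator 1) δ⁻¹ := by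
  refine ⟨measurable_one.indicator hE, fun x => ?_⟩
  by_cases hx : x ∈ E
  · rw [indicator_of_mem hx, Pi.one_apply, abs_one]
    rw [← div_eq_inv_mul, le_div_iff₀ hδ, one_mul]
    exact h x hx
  · rw [indicator_of_notMem hx, abs_zero]
    exact mul_nonneg (inv_pos.2 hδ).le (hω.pos x).le

theorem squash (herg : Erg μ) {ω : X → ℝ} (hω : RW μ ω) {C : ℝ} {T : ℕ → ℝ}
    (hmo : Mo μ ω C T) (hμ : μ ≠ 0) (S : X ≃ᵐ X)
    (hS : Measure.QuasiMeasurePreserving S μ μ)
    (hcomm : ∀ t : ℝ, ∀ᵐ x ∂μ, S (u t • x) = u t • S x) : μ.map S = μ := by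
  obtain ⟨c, hc0, hc⟩ := rescale herg hμ S hS hcomm
  have hωint : 0 < ∫ x, ω x ∂μ := by
    rw [integral_pos_iff_support_of_nonneg (fun x => (hω.pos x).le) hω.int]
    have : Function.support ω = univ := by
      ext x; simp [(hω.pos x).ne']
    rw [this]
    exact (Measure.measure_univ_ne_zero.2 hμ).bot_lt
  obtain ⟨κ, hκ, hlim⟩ := lim_beta2 herg hω hmo hωint
  -- choice of the set
  have hEn : ∃ n : ℕ, μ {x | (1 : ℝ) / (n + 1) ≤ ω x ∧ (1 : ℝ) / (n + 1) ≤ ω (S x)} ≠ 0 := by
    by_contra hcon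
    push Not at hcon
    apply hμ
    rw [← Measure.measure_univ_eq_zero]
    refine measure_mono_null ?_ (measure_iUnion_null hcon)
    intro x _
    rw [mem_iUnion]
    have h1 : 0 < min (ω x) (ω (S x)) := lt_min (hω.pos _) (hω.pos _)
    obtain ⟨n, hn⟩ := exists_nat_one_div_lt h1
    exact ⟨n, hn.le.trans (min_le_left _ _), hn.le.trans (min_le_right _ _)⟩
  obtain ⟨n, hn⟩ := hEn
  obtain ⟨δ, hδdef⟩ : ∃ δ : ℝ, δ = 1 / (n + 1) := ⟨_, rfl⟩
  have hδ : 0 < δ := by rw [hδdef]; positivity
  rw [← hδdef] at hn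
  obtain ⟨E, hEdef⟩ : ∃ E : Set X, E = {x | δ ≤ ω x ∧ δ ≤ ω (S x)} := ⟨_, rfl⟩
  rw [← hEdef] at hn
  have hEm : MeasurableSet E := by
    rw [hEdef]
    exact (measurableSet_le measurable_const hω.meas).inter
      (measurableSet_le measurable_const (hω.meas.comp S.measurable))
  obtain ⟨B, hBdef⟩ : ∃ B : Set X, B = S.symm ⁻¹' E := ⟨_, rfl⟩
  have hBm : MeasurableSet B := by rw [hBdef]; exact hEm.preimage S.symm.measurable
  have hBE : ∀ x, S x ∈ B ↔ x ∈ E := by
    intro x
    rw [hBdef, mem_preimage, S.symm_apply_apply]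
  have hDE : Dom ω (E.indicator 1) δ⁻¹ := dom_ind hω hEm hδ (fun x hx => by
    rw [hEdef] at hx; exact hx.1)
  have hDB : Dom ω (B.indicator 1) δ⁻¹ := dom_ind hω hBm hδ (fun y hy => by
    rw [hBdef, hEdef] at hy
    have := hy.2
    rwa [S.apply_symm_apply] at this)
  have hind : ∀ x, B.indicator (1 : X → ℝ) (S x) = E.indicator 1 x := by
    intro x
    by_cases hx : x ∈ E
    · rw [indicator_of_mem hx, indicator_of_mem ((hBE x).2 hx)]; rfl
    · rw [indicator_of_notMem hx, indicator_of_notMem fun h => hx ((hBE x).1 h)]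
  have hmapint : ∀ g : X → ℝ, ∫ x, g (S x) ∂μ = c * ∫ y, g y ∂μ := by
    intro g
    rw [← integral_map_equiv S g, hc, integral_smul_measure, ENNReal.toReal_ofReal hc0.le,
      smul_eq_mul]
  have hint1 : ∫ x, E.indicator (1 : X → ℝ) x ∂μ = c * ∫ y, B.indicator (1 : X → ℝ) y ∂μ := by
    rw [← hmapint]
    simp_rw [hind]
  have hKr : ∀ T : ℝ, ∀ᵐ x ∂μ, Kr (B.indicator 1) T (S x) = Kr (E.indicator 1) T x := by
    intro T
    have h1 : ∀ t : ℝ, ∀ᵐ x ∂μ, B.indicator (1 : X → ℝ) (u t • S x) = E.indicator 1 (u t • x) := by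
      intro t
      filter_upwards [hcomm t] with x hx
      rw [← hx, hind]
    have hset : MeasurableSet {z : ℝ × X | B.indicator (1 : X → ℝ) (u z.1 • S z.2) =
        E.indicator 1 (u z.1 • z.2)} := by
      refine measurableSet_eq_fun ?_ (measurable_uncurry_r (measurable_one.indicator hEm))
      exact (measurable_uncurry_r (measurable_one.indicator hBm)).comp
        (measurable_fst.prodMk (S.measurable.comp measurable_snd))
    have h2 : ∀ᵐ x ∂μ, ∀ᵐ t : ℝ, B.indicator (1 : X → ℝ) (u t • S x) = E.indicator 1 (u t • x) :=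
      (Measure.ae_ae_comm (μ := (volume : Measure ℝ)) (ν := μ)
        (p := fun t x => B.indicator (1 : X → ℝ) (u t • S x) = E.indicator 1 (u t • x))
        hset).1 (Eventually.of_forall h1)
    filter_upwards [h2] with x hx
    unfold Kr
    exact integral_congr_ae (ae_restrict_of_ae hx)
  have hbeta : ∀ T : ℝ, ∫ x, E.indicator (1 : X → ℝ) x * Kr (E.indicator 1) T x ∂μ =
      c * ∫ x, B.indicator (1 : X → ℝ) x * Kr (B.indicator 1) T x ∂μ := by
    intro T
    rw [← hmapint]
    refine integral_congr_ae ?_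
    filter_upwards [hKr T] with x hx
    rw [hx, hind]
  have l1 := hlim _ _ hDE
  have l2 := (hlim _ _ hDB).const_mul c
  have l3 : κ * (∫ x, E.indicator (1 : X → ℝ) x ∂μ) ^ 2 =
      c * (κ * (∫ x, B.indicator (1 : X → ℝ) x ∂μ) ^ 2) := by
    refine tendsto_nhds_unique l1 (l2.congr fun n => ?_)
    rw [hbeta]; ring
  have hEpos : 0 < ∫ x, E.indicator (1 : X → ℝ) x ∂μ := by
    have hi := hDE.integrable hω.int
    rw [integral_indicator_one hEm]
    rw [integrable_indicator_iff hEm] at hi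
    have hfin : μ E < ∞ := by
      have := (integrableOn_const_iff (C := (1 : ℝ)) (s := E) (μ := μ)).1 hi
      simpa using this
    exact ENNReal.toReal_pos hn hfin.ne
  rw [hint1] at l3 hEpos
  obtain ⟨b, hb⟩ : ∃ b, b = ∫ y, B.indicator (1 : X → ℝ) y ∂μ := ⟨_, rfl⟩
  rw [← hb] at l3 hEpos
  have hb0 : 0 < b := (pos_iff_pos_of_mul_pos hEpos).1 hc0
  have hc1 : c = 1 := by
    have h1 : κ * b ^ 2 * c * (c - 1) = 0 := by linear_combination l3
    have h2 : κ * b ^ 2 * c ≠ 0 := by positivity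
    have := (mul_eq_zero.1 h1).resolve_left h2
    linarith
  rw [hc, hc1, ENNReal.ofReal_one, one_smul]

end

end Pool.Agent.E8helper85.NS
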