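import Pool.Agent.E8helper85.NS.Weight
import Pool.Agent.E8helper85.NS.Sq3
import Pool.Agent.E8helper85.NS.Meas4

/-!
# The main theorem
-/

set_option autoImplicit false

open MeasureTheory Filter Topology Set
open scoped ENNReal NNReal MatrixGroups

namespace Pool.Agent.E8helper85.NS

section

variable {X : Type*} [MeasurableSpace X] [MulAction G X] [MeasurableSMul₂ G X]
  {μ : Measure X} [SFinite μ] [SMulInvariantMeasure G X μ]

omit [SFinite μ] [SMulInvariantMeasure G X μ] in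
lemma rw_of_wt {w : X → ℝ≥0∞} (hw : Wt w) (hpos : ∀ x, w x ≠ 0) (hint : ∫⁻ x, w x ∂μ ≠ ∞) :
    RW μ (fun x => (w x).toReal) where
  meas := hw.meas.ennreal_toReal
  pos := fun x => ENNReal.toReal_pos (hpos x)
    (ne_top_of_le_ne_top ENNReal.one_ne_top (hw.le_one x))
  le_one := fun x => by
    have := ENNReal.toReal_mono ENNReal.one_ne_top (hw.le_one x)
    simpa using this
  int := integrable_toReal_of_lintegral_ne_top hw.meas.aemeasurable hint
  trans := by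
    intro r
    obtain ⟨m, hm⟩ := exists_nat_ge |r|
    have h1 : ∀ (k : ℕ) (s : ℝ), |s| ≤ 1 → ∀ x : X, w (u (k * s) • x) ≤ 2 ^ k * w x := by
      intro k s hs x
      induction k with
      | zero => simp [u_zero]
      | succ k ih =>
        have e1 : u (((k + 1 : ℕ) : ℝ) * s) = u s * u (k * s) := by
          rw [← u_add]; congr 1; push_cast; ring
        rw [e1, mul_smul]
        calc w (u s • u (k * s) • x) ≤ 2 * w (u (k * s) • x) := by
              refine hw.smul_le _ _ ?_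
              rw [q_u, ← sq_abs]
              nlinarith [abs_nonneg s]
          _ ≤ 2 * (2 ^ k * w x) := cm _ ih
          _ = 2 ^ (k + 1) * w x := by ring
    refine ⟨2 ^ (m + 1), fun x => ?_⟩
    have h2 := h1 (m + 1) (r / (m + 1)) (by
      rw [abs_div, abs_of_pos (by positivity : (0 : ℝ) < m + 1), div_le_one (by positivity)]
      linarith) x
    have h3 : ((m + 1 : ℕ) : ℝ) * (r / (m + 1)) = r := by
      push_cast; field_simp
    rw [h3] at h2
    have h4 := ENNReal.toReal_mono (ENNReal.mul_ne_top (ENNReal.pow_ne_top (by simp))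
      (ne_top_of_le_ne_top ENNReal.one_ne_top (hw.le_one x))) h2
    simpa using h4

omit [SFinite μ] [SMulInvariantMeasure G X μ] in
lemma KK_le {w : X → ℝ≥0∞} (hw : Wt w) (T : ℝ) (x : X) : KK w T x ≤ ENNReal.ofReal (2 * T) := by
  unfold KK
  calc ∫⁻ t in Icc (-T) T, w (u t • x) ≤ ∫⁻ _t in Icc (-T) T, 1 :=
        lintegral_mono fun t => hw.le_one _
    _ = ENNReal.ofReal (2 * T) := by
        rw [setLIntegral_const, Real.volume_Icc, one_mul]
        congr 1; ring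

omit [SFinite μ] [SMulInvariantMeasure G X μ] in
lemma Kr_eq {w : X → ℝ≥0∞} (hw : Wt w) (T : ℝ) (x : X) :
    Kr (fun x => (w x).toReal) T x = (KK w T x).toReal := by
  unfold Kr KK
  exact integral_toReal (measurable_orbit hw.meas continuous_u.measurable x).aemeasurable
    (Eventually.of_forall fun t => (hw.le_one _).trans_lt ENNReal.one_lt_top)

omit [SFinite μ] [SMulInvariantMeasure G X μ] in
lemma mo_of_wt {w : X → ℝ≥0∞} (hw : Wt w) (hint : ∫⁻ x, w x ∂μ ≠ ∞) {C : ℝ≥0∞} (hC : C ≠ ∞)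
    {T : ℕ → ℝ} (hT : ∀ n, 0 < T n)
    (hle : ∀ n, ∫⁻ x, w x * KK w (T n) x ^ 2 ∂μ ≤ C * (∫⁻ x, w x * KK w (T n) x ∂μ) ^ 2)
    (hlim : Tendsto (fun n => ∫⁻ x, w x * KK w (T n) x ∂μ) atTop (𝓝 ∞)) :
    ∃ (C' : ℝ) (T' : ℕ → ℝ), Mo μ (fun x => (w x).toReal) C' T' := by
  obtain ⟨b, hb⟩ : ∃ b : ℕ → ℝ≥0∞, b = fun n => ∫⁻ x, w x * KK w (T n) x ∂μ := ⟨_, rfl⟩
  have hb' : ∀ n, ∫⁻ x, w x * KK w (T n) x ∂μ = b n := fun n => by rw [hb]
  simp_rw [hb'] at hlim hle
  have hfin : ∀ n, b n ≠ ∞ := by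
    intro n
    rw [hb]
    refine ne_top_of_le_ne_top (b := (∫⁻ x, w x ∂μ) * ENNReal.ofReal (2 * T n)) ?_ ?_
    · exact ENNReal.mul_ne_top hint ENNReal.ofReal_ne_top
    · rw [← lintegral_mul_const _ hw.meas]
      exact lintegral_mono fun x => cm _ (KK_le hw _ x)
  have hKfin : ∀ n x, KK w (T n) x ≠ ∞ := fun n x =>
    ne_top_of_le_ne_top ENNReal.ofReal_ne_top (KK_le hw _ x)
  have hwfin : ∀ x, w x ≠ ∞ := fun x => ne_top_of_le_ne_top ENNReal.one_ne_top (hw.le_one x)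
  have hbr : ∀ n, ∫ x, (w x).toReal * Kr (fun x => (w x).toReal) (T n) x ∂μ = (b n).toReal := by
    intro n
    have hm1 : Measurable fun x => w x * KK w (T n) x := hw.meas.mul (measurable_KK hw.meas _)
    rw [← hb', ← integral_toReal hm1.aemeasurable
      (Eventually.of_forall fun x => (ENNReal.mul_ne_top (hwfin x) (hKfin n x)).lt_top)]
    refine integral_congr_ae (Eventually.of_forall fun x => ?_)
    simp only
    rw [Kr_eq hw]
    exact ENNReal.toReal_mul.symm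
  have htr : Tendsto (fun n => (b n).toReal) atTop atTop := by
    rw [tendsto_atTop]
    intro r
    have h1 := (ENNReal.tendsto_nhds_top_iff_nnreal.1 hlim) r.toNNReal
    filter_upwards [h1] with n hn
    have h2 := (ENNReal.toReal_lt_toReal (by simp) (hfin n)).2 hn
    rw [ENNReal.coe_toReal] at h2
    exact (Real.le_coe_toNNReal r).trans h2.le
  obtain ⟨n0, hn0⟩ := (htr.eventually (eventually_ge_atTop 1)).exists_forall_of_atTop
  have hsq : ∀ n, ∫ x, (w x).toReal * Kr (fun x => (w x).toReal) (T n) x ^ 2 ∂μ =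
      (∫⁻ x, w x * KK w (T n) x ^ 2 ∂μ).toReal := by
    intro n
    have hm1 : Measurable fun x => w x * KK w (T n) x ^ 2 :=
      hw.meas.mul ((measurable_KK hw.meas _).pow_const 2)
    rw [← integral_toReal hm1.aemeasurable
      (Eventually.of_forall fun x => (ENNReal.mul_ne_top (hwfin x)
        (ENNReal.pow_ne_top (hKfin n x))).lt_top)]
    refine integral_congr_ae (Eventually.of_forall fun x => ?_)
    simp only
    rw [Kr_eq hw, ← ENNReal.toReal_pow]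
    exact ENNReal.toReal_mul.symm
  have hrfin : ∀ n, C * b n ^ 2 ≠ ∞ := fun n =>
    ENNReal.mul_ne_top hC (ENNReal.pow_ne_top (hfin n))
  refine ⟨C.toReal, fun n => T (n + n0), ⟨fun n => hT _, fun n => ?_, ?_, fun n => ?_,
    fun n => ?_⟩⟩
  · rw [hbr]
    exact lt_of_lt_of_le one_pos (hn0 _ (Nat.le_add_left _ _))
  · simp_rw [hbr]
    exact htr.comp (tendsto_add_atTop_nat n0)
  · have h1 := integrable_toReal_of_lintegral_ne_top
      (hw.meas.mul ((measurable_KK hw.meas (T (n + n0))).pow_const 2)).aemeasurable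
      (ne_top_of_le_ne_top (hrfin (n + n0)) (hle (n + n0)))
    refine h1.congr (Eventually.of_forall fun x => ?_)
    simp only
    rw [Kr_eq hw, ← ENNReal.toReal_pow]
    exact ENNReal.toReal_mul
  · rw [hbr, hsq]
    have := ENNReal.toReal_mono (hrfin (n + n0)) (hle (n + n0))
    rwa [ENNReal.toReal_mul, ENNReal.toReal_pow] at this

end

/-- the main theorem, for the standard topology -/
theorem main_std (Λ Γ : Subgroup G) [DiscreteTopology Λ] [CompactSpace (G ⧸ Λ)] (hΓΛ : Γ ≤ Λ)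
    [hN : (Γ.subgroupOf Λ).Normal] (hnil : Group.IsNilpotent (Λ ⧸ Γ.subgroupOf Λ))
    (μ : Measure (G ⧸ Γ)) (hμ : μ ≠ 0) [IsFiniteMeasureOnCompacts μ]
    [SMulInvariantMeasure G (G ⧸ Γ) μ] (S : (G ⧸ Γ) ≃ᵐ (G ⧸ Γ))
    (hS : Measure.QuasiMeasurePreserving S μ μ)
    (hcomm : ∀ t : ℝ, ∀ᵐ x ∂μ, S (u t • x) = u t • S x) : μ.map S = μ := by
  have hΓd : DiscreteTopology Γ := DiscreteTopology.of_subset (s := (Λ : Set G)) ‹_› hΓΛ
  have : MeasurableSMul₂ G (G ⧸ Γ) := ⟨measurable_smul2⟩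
  obtain ⟨Q, hcoc⟩ := exists_coc Λ
  have hirr : Irr Γ Q := irr hcoc hΓΛ hnil Q
  have herg : Erg μ := fun f hf hinv => ergodic hcoc hirr hΓΛ hnil μ hμ hf hinv
  obtain ⟨hint, C, hC, T, hT, hle, hlim⟩ := moment_wt hcoc hnil hΓΛ μ hμ
  have hW : Wt (wt Λ Γ Q) := wt_wt hcoc hΓΛ
  have hRW := rw_of_wt (μ := μ) hW (wt_pos hcoc hΓΛ) hint
  obtain ⟨C', T', hmo⟩ := mo_of_wt hW hint hC hT hle hlim
  exact squash herg hRW hmo hμ S hS hcomm

theorem main_thm :
  ∀ [τ : TopologicalSpace SL(2, ℝ)],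
    Topology.IsEmbedding (fun g : SL(2, ℝ) => (g : Matrix (Fin 2) (Fin 2) ℝ)) →
  ∀ (u : ℝ → SL(2, ℝ)), (∀ t : ℝ, (u t : Matrix (Fin 2) (Fin 2) ℝ) = !![1, t; 0, 1]) →
  ∀ (Λ Γ : Subgroup SL(2, ℝ)),
    DiscreteTopology Λ → CompactSpace (SL(2, ℝ) ⧸ Λ) → Γ ≤ Λ →
  ∀ [hN : (Γ.subgroupOf Λ).Normal],
    Group.IsNilpotent (Λ ⧸ Γ.subgroupOf Λ) →
  ∀ [m : MeasurableSpace (SL(2, ℝ) ⧸ Γ)] [BorelSpace (SL(2, ℝ) ⧸ Γ)],
  ∀ μ : Measure (SL(2, ℝ) ⧸ Γ), μ ≠ 0 → IsFiniteMeasureOnCompacts μ →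
    SMulInvariantMeasure SL(2, ℝ) (SL(2, ℝ) ⧸ Γ) μ →
  ∀ S : (SL(2, ℝ) ⧸ Γ) ≃ᵐ (SL(2, ℝ) ⧸ Γ),
    Measure.QuasiMeasurePreserving S μ μ →
    Measure.QuasiMeasurePreserving S.symm μ μ →
    (∀ t : ℝ, ∀ᵐ x ∂μ, S (u t • x) = u t • S x) →
    μ.map S = μ := by
  intro τ hemb u0 hu0 Λ Γ hΛ hcpt hΓΛ hN hnil m hm μ hμ hfc hinv S hS hS' hcomm
  have hu : u0 = u := by
    funext t
    exact Subtype.ext (hu0 t)
  subst hu
  have hτ : τ = Matrix.SpecialLinearGroup.instTopologicalSpace := hemb.eq_induced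
  subst hτ
  have hΓd : DiscreteTopology Γ := DiscreteTopology.of_subset (s := (Λ : Set G)) ‹_› hΓΛ
  have hm' : m = QuotientGroup.measurableSpace Γ := by
    rw [hm.measurable_eq]
    exact (CosetSpace.borelSpace (N := Γ)).measurable_eq.symm
  subst hm'
  exact main_std Λ Γ hΓΛ hnil μ hμ S hS hcomm

end Pool.Agent.E8helper85.NS
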