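import Mathlib

/-!
# Finitely generated nilpotent groups have polynomial growth
-/

set_option autoImplicit false

namespace Pool.Agent.E8helper85.NS

open scoped Pointwise commutatorElement

open Classical in
/-- all finite subsets of the subgroup `N` have polynomial growth -/
def PG {D : Type*} [Group D] (N : Subgroup D) : Prop :=
  ∀ S : Finset D, (∀ s ∈ S, s ∈ N) → ∃ C κ : ℕ, ∀ n : ℕ, (S ^ n).card ≤ C * (n + 1) ^ κ

section

variable {D : Type*} [Group D]

/-- iterated commutators -/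
def itc (t m : D) : ℕ → D
  | 0 => m
  | n + 1 => ⁅(itc t m n)⁻¹, t⁆

lemma conj_itc (t m : D) (n : ℕ) : t * itc t m n * t⁻¹ = itc t m n * itc t m (n + 1) := by
  show _ = itc t m n * ⁅(itc t m n)⁻¹, t⁆
  rw [commutatorElement_def]
  group

lemma itc_mem_lcs (t m : D) (n : ℕ) : itc t m n ∈ (⊤ : Subgroup D).lowerCentralSeries n := by
  induction n with
  | zero => simp
  | succ n ih =>
    show ⁅(itc t m n)⁻¹, t⁆ ∈ _
    rw [Subgroup.lowerCentralSeries_succ]
    exact Subgroup.subset_closure ⟨_, inv_mem ih, t, Subgroup.mem_top _, rfl⟩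

lemma itc_mem (N : Subgroup D) (t m : D) (hN : ∀ x ∈ N, t * x * t⁻¹ ∈ N) (hm : m ∈ N) (n : ℕ) :
    itc t m n ∈ N := by
  induction n with
  | zero => exact hm
  | succ n ih =>
    show ⁅(itc t m n)⁻¹, t⁆ ∈ _
    rw [commutatorElement_def, inv_inv]
    have h : (itc t m n)⁻¹ * t * itc t m n * t⁻¹ = (itc t m n)⁻¹ * (t * itc t m n * t⁻¹) := by group
    rw [h]
    exact mul_mem (inv_mem ih) (hN _ ih)

open Classical in
lemma pow_mono_exp {S : Finset D} (h1 : (1 : D) ∈ S) {a b : ℕ} (hab : a ≤ b) : S ^ a ⊆ S ^ b :=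
  Finset.pow_subset_pow_right h1 hab

open Classical in
lemma conj_pow_mem (t m : D) (cl : ℕ) (hcl : (⊤ : Subgroup D).lowerCentralSeries cl = ⊥) (S : Finset D)
    (h1 : (1 : D) ∈ S) (hS : ∀ j < cl, itc t m j ∈ S) (k : ℕ) :
    ∀ j ≤ cl, t ^ k * itc t m j * (t ^ k)⁻¹ ∈ S ^ ((k + 1) ^ (cl - j)) := by
  induction k with
  | zero =>
    intro j hj
    rcases hj.eq_or_lt with rfl | hj
    · have : itc t m j = 1 := by
        have h := itc_mem_lcs t m j
        rw [hcl] at h
        exact Subgroup.mem_bot.1 h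
      rw [this]
      simpa using h1
    · simpa using hS j hj
  | succ k ih =>
    intro j hj
    rcases hj.eq_or_lt with rfl | hj
    · have : itc t m j = 1 := by
        have h := itc_mem_lcs t m j
        rw [hcl] at h
        exact Subgroup.mem_bot.1 h
      rw [this]
      simpa using h1
    · have h : t ^ (k + 1) * itc t m j * (t ^ (k + 1))⁻¹ =
          (t ^ k * itc t m j * (t ^ k)⁻¹) * (t ^ k * itc t m (j + 1) * (t ^ k)⁻¹) := by
        have := conj_itc t m j
        calc t ^ (k + 1) * itc t m j * (t ^ (k + 1))⁻¹ =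
            t ^ k * (t * itc t m j * t⁻¹) * (t ^ k)⁻¹ := by rw [pow_succ]; group
          _ = t ^ k * (itc t m j * itc t m (j + 1)) * (t ^ k)⁻¹ := by rw [this]
          _ = _ := by group
      rw [h]
      have h2 := Finset.mul_mem_mul (ih j hj.le) (ih (j + 1) hj)
      rw [← pow_add] at h2
      refine pow_mono_exp h1 ?_ h2
      obtain ⟨p, hp⟩ : ∃ p, cl - j = p + 1 := ⟨cl - j - 1, by omega⟩
      have hp' : cl - (j + 1) = p := by omega
      rw [hp, hp']
      calc (k + 1) ^ (p + 1) + (k + 1) ^ p = (k + 1) ^ p * (k + 2) := by ring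
        _ ≤ (k + 2) ^ p * (k + 2) := Nat.mul_le_mul_right _ (Nat.pow_le_pow_left (by omega) _)
        _ = (k + 1 + 1) ^ (p + 1) := by ring

open Classical in
/-- adding one normalizing element -/
theorem PG.step (hD : Group.IsNilpotent D) {N : Subgroup D} (hN : PG N) (t : D)
    (ht : ∀ x ∈ N, t * x * t⁻¹ ∈ N) (ht' : ∀ x ∈ N, t⁻¹ * x * t ∈ N) :
    PG (N ⊔ Subgroup.zpowers t) := by
  obtain ⟨cl, hcl⟩ := Subgroup.nilpotent_iff_lowerCentralSeries.1 hD
  -- elements of `N ⊔ ⟨t⟩`
  have hmem : ∀ g ∈ N ⊔ Subgroup.zpowers t, ∃ m ∈ N, ∃ e : ℤ, g = m * t ^ e := by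
    have hz : ∀ (e : ℤ) (x : D), x ∈ N → t ^ e * x * (t ^ e)⁻¹ ∈ N := by
      intro e
      induction e with
      | zero => intro x hx; simpa using hx
      | succ n ih =>
        intro x hx
        have := ih _ (ht x hx)
        have h2 : t ^ ((n : ℤ) + 1) * x * (t ^ ((n : ℤ) + 1))⁻¹ =
            t ^ (n : ℤ) * (t * x * t⁻¹) * (t ^ (n : ℤ))⁻¹ := by
          rw [zpow_add_one]; group
        rw [h2]; exact this
      | pred n ih =>
        intro x hx
        have := ih _ (ht' x hx)
        have h2 : t ^ (-(n : ℤ) - 1) * x * (t ^ (-(n : ℤ) - 1))⁻¹ =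
            t ^ (-(n : ℤ)) * (t⁻¹ * x * t) * (t ^ (-(n : ℤ)))⁻¹ := by
          rw [zpow_sub_one]; group
        rw [h2]; exact this
    intro g hg
    rw [Subgroup.sup_eq_closure] at hg
    induction hg using Subgroup.closure_induction with
    | mem x hx =>
      rcases hx with hx | hx
      · exact ⟨x, hx, 0, by simp⟩
      · obtain ⟨e, rfl⟩ := Subgroup.mem_zpowers_iff.1 hx
        exact ⟨1, one_mem _, e, by simp⟩
    | one => exact ⟨1, one_mem _, 0, by simp⟩
    | mul x y _ _ hx hy =>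
      obtain ⟨m, hm, e, rfl⟩ := hx
      obtain ⟨m', hm', e', rfl⟩ := hy
      refine ⟨m * (t ^ e * m' * (t ^ e)⁻¹), mul_mem hm (hz _ _ hm'), e + e', ?_⟩
      rw [zpow_add]; group
    | inv x _ hx =>
      obtain ⟨m, hm, e, rfl⟩ := hx
      refine ⟨t ^ (-e) * m⁻¹ * (t ^ (-e))⁻¹, hz _ _ (inv_mem hm), -e, ?_⟩
      rw [zpow_neg]; group
  intro S hS
  choose! mm hmm ee hee using hmem
  obtain ⟨E, hE⟩ : ∃ E : ℕ, ∀ s ∈ S, (ee s).natAbs ≤ E :=
    ⟨S.sup fun s => (ee s).natAbs, fun s hs => Finset.le_sup (f := fun s => (ee s).natAbs) hs⟩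
  obtain ⟨M, hM⟩ : ∃ M : Finset D, M = insert 1 (S.biUnion fun s =>
    ((Finset.range cl).image fun j => itc t (mm s) j) ∪
      ((Finset.range cl).image fun j => itc t⁻¹ (mm s) j)) := ⟨_, rfl⟩
  have h1 : (1 : D) ∈ M := by rw [hM]; exact Finset.mem_insert_self _ _
  have hMN : ∀ x ∈ M, x ∈ N := by
    intro x hx
    rw [hM, Finset.mem_insert, Finset.mem_biUnion] at hx
    rcases hx with rfl | ⟨s, hs, hx⟩
    · exact one_mem _
    · rw [Finset.mem_union, Finset.mem_image, Finset.mem_image] at hx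
      rcases hx with ⟨j, -, rfl⟩ | ⟨j, -, rfl⟩
      · exact itc_mem N t _ ht (hmm _ (hS s hs)) j
      · exact itc_mem N t⁻¹ _ (by simpa using ht') (hmm _ (hS s hs)) j
  have hconj : ∀ s ∈ S, ∀ k : ℤ, t ^ k * mm s * (t ^ k)⁻¹ ∈ M ^ ((k.natAbs + 1) ^ cl) := by
    intro s hs k
    have key1 : ∀ k : ℕ, t ^ k * mm s * (t ^ k)⁻¹ ∈ M ^ ((k + 1) ^ cl) := by
      intro k
      have := conj_pow_mem t (mm s) cl hcl M h1 (fun j hj => by
        rw [hM, Finset.mem_insert, Finset.mem_biUnion]
        exact Or.inr ⟨s, hs, Finset.mem_union_left _ (Finset.mem_image.2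
          ⟨j, Finset.mem_range.2 hj, rfl⟩)⟩) k 0 (Nat.zero_le _)
      simpa [itc] using this
    have key2 : ∀ k : ℕ, t⁻¹ ^ k * mm s * (t⁻¹ ^ k)⁻¹ ∈ M ^ ((k + 1) ^ cl) := by
      intro k
      have := conj_pow_mem t⁻¹ (mm s) cl hcl M h1 (fun j hj => by
        rw [hM, Finset.mem_insert, Finset.mem_biUnion]
        exact Or.inr ⟨s, hs, Finset.mem_union_right _ (Finset.mem_image.2
          ⟨j, Finset.mem_range.2 hj, rfl⟩)⟩) k 0 (Nat.zero_le _)
      simpa [itc] using this
    rcases Int.natAbs_eq k with h | h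
    · rw [h, Int.natAbs_natCast, zpow_natCast]
      exact key1 _
    · rw [h, Int.natAbs_neg, Int.natAbs_natCast, zpow_neg, zpow_natCast, ← inv_pow]
      exact key2 _
  obtain ⟨C, κ, hC⟩ := hN M hMN
  have hmain : ∀ n : ℕ, ∀ g ∈ S ^ n, ∃ x ∈ M ^ (n * (n * E + 1) ^ cl), ∃ k : ℤ,
      k.natAbs ≤ n * E ∧ g = x * t ^ k := by
    intro n
    induction n with
    | zero =>
      intro g hg
      rw [pow_zero, Finset.mem_one] at hg
      exact ⟨1, by simp, 0, by simp, by simp [hg]⟩
    | succ n ih =>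
      intro g hg
      rw [pow_succ, Finset.mem_mul] at hg
      obtain ⟨g', hg', s, hs, rfl⟩ := hg
      obtain ⟨x, hx, k, hk, rfl⟩ := ih g' hg'
      refine ⟨x * (t ^ k * mm s * (t ^ k)⁻¹), ?_, k + ee s, ?_, ?_⟩
      · have h2 := Finset.mul_mem_mul hx (hconj s hs k)
        rw [← pow_add] at h2
        refine pow_mono_exp h1 ?_ h2
        have h3 : (k.natAbs + 1) ^ cl ≤ (n * E + 1) ^ cl := Nat.pow_le_pow_left (by omega) _
        have h4 : (n * E + 1) ^ cl ≤ ((n + 1) * E + 1) ^ cl :=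
          Nat.pow_le_pow_left (by nlinarith) _
        calc n * (n * E + 1) ^ cl + (k.natAbs + 1) ^ cl ≤
            n * (n * E + 1) ^ cl + (n * E + 1) ^ cl := by omega
          _ = (n + 1) * (n * E + 1) ^ cl := by ring
          _ ≤ (n + 1) * ((n + 1) * E + 1) ^ cl := Nat.mul_le_mul_left _ h4
      · have h2 := hE s hs
        have h3 := Int.natAbs_add_le k (ee s)
        have : (n + 1) * E = n * E + E := by ring
        omega
      · have h2 := hee s (hS s hs)
        rw [zpow_add]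
        calc x * t ^ k * s = x * t ^ k * (mm s * t ^ ee s) := by rw [← h2]
          _ = _ := by group
  refine ⟨C * ((E + 1) ^ cl) ^ κ * (2 * (E + 1)), (cl + 1) * κ + 1, fun n => ?_⟩
  have hsub : S ^ n ⊆ ((M ^ (n * (n * E + 1) ^ cl)) ×ˢ
      (Finset.Icc (-(n * E : ℕ) : ℤ) (n * E : ℕ))).image (fun p => p.1 * t ^ p.2) := by
    intro g hg
    obtain ⟨x, hx, k, hk, rfl⟩ := hmain n g hg
    rw [Finset.mem_image]
    refine ⟨(x, k), ?_, rfl⟩
    rw [Finset.mem_product, Finset.mem_Icc]
    refine ⟨hx, ?_, ?_⟩ <;> simp only <;> omega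
  have hcard := (Finset.card_le_card hsub).trans Finset.card_image_le
  rw [Finset.card_product, Int.card_Icc] at hcard
  have h5 : ((n * E : ℕ) + 1 - (-(n * E : ℕ) : ℤ)).toNat = 2 * (n * E) + 1 := by omega
  rw [h5] at hcard
  refine hcard.trans ?_
  have h6 := hC (n * (n * E + 1) ^ cl)
  have h7 : n * (n * E + 1) ^ cl + 1 ≤ (E + 1) ^ cl * (n + 1) ^ (cl + 1) := by
    have h8 : (n * E + 1) ^ cl ≤ ((n + 1) * (E + 1)) ^ cl := Nat.pow_le_pow_left (by nlinarith) _
    have h9 : 1 ≤ ((n + 1) * (E + 1)) ^ cl := Nat.one_le_pow _ _ (by positivity)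
    calc n * (n * E + 1) ^ cl + 1 ≤ n * ((n + 1) * (E + 1)) ^ cl + ((n + 1) * (E + 1)) ^ cl :=
        Nat.add_le_add (Nat.mul_le_mul_left _ h8) h9
      _ = (n + 1) * ((n + 1) * (E + 1)) ^ cl := by ring
      _ = (E + 1) ^ cl * (n + 1) ^ (cl + 1) := by rw [mul_pow]; ring
  have h10 : 2 * (n * E) + 1 ≤ 2 * (E + 1) * (n + 1) := by nlinarith
  calc (M ^ (n * (n * E + 1) ^ cl)).card * (2 * (n * E) + 1)
      ≤ (C * (n * (n * E + 1) ^ cl + 1) ^ κ) * (2 * (E + 1) * (n + 1)) :=
        Nat.mul_le_mul h6 h10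
    _ ≤ (C * ((E + 1) ^ cl * (n + 1) ^ (cl + 1)) ^ κ) * (2 * (E + 1) * (n + 1)) := by
        gcongr
    _ = C * ((E + 1) ^ cl) ^ κ * (2 * (E + 1)) * (n + 1) ^ ((cl + 1) * κ + 1) := by
        rw [mul_pow, ← pow_mul (n + 1), pow_succ (n + 1) ((cl + 1) * κ)]
        ring

lemma PG.mono {N N' : Subgroup D} (h : PG N') (hN : N ≤ N') : PG N :=
  fun S hS => h S fun s hs => hN (hS s hs)

open Classical in
lemma PG.bot : PG (⊥ : Subgroup D) := by
  intro S hS
  refine ⟨1, 0, fun n => ?_⟩
  have hS1 : S ⊆ 1 := by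
    intro s hs
    rw [Finset.mem_one]
    exact Subgroup.mem_bot.1 (hS s hs)
  have : S ^ n ⊆ 1 := by
    have := Finset.pow_subset_pow_left hS1 (n := n)
    rwa [one_pow] at this
  simpa using Finset.card_le_card this

open Classical in
theorem pg_top (hD : Group.IsNilpotent D) : PG (⊤ : Subgroup D) := by
  have hsolv : Group.IsSolvable D := inferInstance
  obtain ⟨n, hn⟩ := hsolv.solvable
  have key : ∀ i, PG (derivedSeries D (i + 1)) → PG (derivedSeries D i) := by
    intro i hi S hS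
    have h2 : ∀ T : Finset D, (∀ s ∈ T, s ∈ derivedSeries D i) →
        PG (derivedSeries D (i + 1) ⊔ Subgroup.closure (T : Set D)) ∧
        derivedSeries D (i + 1) ⊔ Subgroup.closure (T : Set D) ≤ derivedSeries D i := by
      intro T
      induction T using Finset.induction_on with
      | empty =>
        intro _
        rw [Finset.coe_empty, Subgroup.closure_empty, sup_bot_eq]
        exact ⟨hi, derivedSeries_antitone _ (Nat.le_succ _)⟩
      | insert x T _ ih =>
        intro hT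
        obtain ⟨ih1, ih2⟩ := ih fun s hs => hT s (Finset.mem_insert_of_mem hs)
        have hx : x ∈ derivedSeries D i := hT x (Finset.mem_insert_self _ _)
        have hc : ∀ y z : D, y ∈ derivedSeries D i → z ∈ derivedSeries D i →
            ⁅y, z⁆ ∈ derivedSeries D (i + 1) := by
          intro y z hy hz
          rw [derivedSeries_succ]
          exact Subgroup.commutator_mem_commutator hy hz
        have hstep := PG.step hD ih1 x (by
          intro y hy
          have h3 := hc x y hx (ih2 hy)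
          have h4 : x * y * x⁻¹ = ⁅x, y⁆ * y := by rw [commutatorElement_def]; group
          rw [h4]
          exact mul_mem (Subgroup.mem_sup_left h3) hy) (by
          intro y hy
          have h3 := hc x⁻¹ y (inv_mem hx) (ih2 hy)
          have h4 : x⁻¹ * y * x = ⁅x⁻¹, y⁆ * y := by rw [commutatorElement_def]; group
          rw [h4]
          exact mul_mem (Subgroup.mem_sup_left h3) hy)
        have heq : derivedSeries D (i + 1) ⊔ Subgroup.closure ((insert x T : Finset D) : Set D) =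
            derivedSeries D (i + 1) ⊔ Subgroup.closure (T : Set D) ⊔ Subgroup.zpowers x := by
          rw [Finset.coe_insert, Set.insert_eq, Subgroup.closure_union, Subgroup.zpowers_eq_closure]
          rw [sup_assoc, sup_comm (Subgroup.closure {x})]
        rw [heq]
        refine ⟨hstep, sup_le ih2 ?_⟩
        rw [Subgroup.zpowers_le]
        exact hx
    exact (h2 S hS).1 S fun s hs => Subgroup.mem_sup_right (Subgroup.subset_closure hs)
  have h3 : ∀ j ≤ n, PG (derivedSeries D (n - j)) := by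
    intro j
    induction j with
    | zero => intro _; rw [Nat.sub_zero, hn]; exact PG.bot
    | succ j ih =>
      intro hj
      have h4 := ih (by omega)
      have h5 : n - j = n - (j + 1) + 1 := by omega
      rw [h5] at h4
      exact key _ h4
  have h4 := h3 n le_rfl
  rw [Nat.sub_self, derivedSeries_zero] at h4
  exact h4

end

end Pool.Agent.E8helper85.NS
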