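import Pool.Agent.E8helper85.NS.Top

/-!
# Irreducibility
-/

set_option autoImplicit false

open Filter Topology Set
open scoped commutatorElement

namespace Pool.Agent.E8helper85.NS

/-- scalar matrices -/
def IsSc (z : G) : Prop := z 0 1 = 0 ∧ z 1 0 = 0 ∧ z 0 0 = z 1 1

lemma IsSc.q_mul {e : G} (he : IsSc e) (z : G) : q (e * z) = q z := by
  obtain ⟨h1, h2, h3⟩ := he
  have hd := det_eq e
  rw [h1, h2, h3] at hd
  have h4 : e 1 1 ^ 2 = 1 := by linarith
  unfold q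
  rw [mul_00, mul_01, mul_10, mul_11, h1, h2, h3]
  linear_combination (z 0 0 ^ 2 + z 0 1 ^ 2 + z 1 0 ^ 2 + z 1 1 ^ 2) * h4

lemma IsSc.q_eq {e : G} (he : IsSc e) : q e = 2 := by
  rw [← mul_one e, he.q_mul, q_one]

lemma zero_of_bdd {x B : ℝ} (h : ∀ s : ℝ, (Real.exp s * x) ^ 2 ≤ B) : x = 0 := by
  by_contra hx
  have hB : 0 ≤ B := (sq_nonneg _).trans (h 0)
  have hx2 : 0 < x ^ 2 := by positivity
  have h1 := h ((B + 1) / x ^ 2)
  have h2 : (B + 1) / x ^ 2 ≤ Real.exp ((B + 1) / x ^ 2) := by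
    have := Real.add_one_le_exp ((B + 1) / x ^ 2)
    linarith
  have h3 : 1 ≤ Real.exp ((B + 1) / x ^ 2) := Real.one_le_exp (by positivity)
  have h4 : (B + 1) / x ^ 2 ≤ Real.exp ((B + 1) / x ^ 2) ^ 2 := by nlinarith
  have h5 : (B + 1) / x ^ 2 * x ^ 2 = B + 1 := by field_simp
  nlinarith

lemma conj_a_01 (s : ℝ) (k : G) : (a s * k * (a s)⁻¹) 0 1 = Real.exp s * k 0 1 := by
  rw [← a_neg, mul_01, mul_00, mul_01]
  simp only [a_00, a_01, a_11]
  have : Real.exp s = Real.exp (s / 2) * Real.exp (-(-s / 2)) := by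
    rw [← Real.exp_add]; congr 1; ring
  rw [this]; ring

lemma isSc_of_bdd {z : G} {B : ℝ} (h : ∀ g : G, q (g * z * g⁻¹) ≤ B) : IsSc z := by
  have key : ∀ k : G, (k * z * k⁻¹) 0 1 = 0 := by
    intro k
    refine zero_of_bdd (B := B) fun s => ?_
    rw [← conj_a_01]
    have h1 := h (a s * k)
    have h2 : a s * k * z * (a s * k)⁻¹ = a s * (k * z * k⁻¹) * (a s)⁻¹ := by group
    rw [h2] at h1
    refine le_trans ?_ h1
    unfold q
    nlinarith [sq_nonneg ((a s * (k * z * k⁻¹) * (a s)⁻¹) 0 0),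
      sq_nonneg ((a s * (k * z * k⁻¹) * (a s)⁻¹) 1 0),
      sq_nonneg ((a s * (k * z * k⁻¹) * (a s)⁻¹) 1 1)]
  have h1 := key 1
  have h2 := key w
  have h3 := key (u 1)
  rw [mul_01, mul_00, mul_01, inv_01, inv_11] at h1 h2 h3
  simp at h1 h2 h3
  exact ⟨h1, h2, by linarith⟩

lemma isSc_of_comm {Λ : Subgroup G} {Q : ℝ} (hcoc : Coc Λ Q) {z : G}
    (h : ∀ g ∈ Λ, IsSc (g * z * g⁻¹ * z⁻¹)) : IsSc z := by
  have hQ0 : 0 ≤ Q := by
    obtain ⟨c, _, _, hc, _⟩ := hcoc 1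
    exact (q_nonneg c).trans hc
  refine isSc_of_bdd (B := Q * q z * Q) fun g => ?_
  obtain ⟨c, g', hg', hc, rfl⟩ := hcoc g
  have h1 : c * g' * z * (c * g')⁻¹ = c * ((g' * z * g'⁻¹ * z⁻¹) * z) * c⁻¹ := by group
  rw [h1]
  refine (q_mul_le _ _).trans ?_
  rw [q_inv]
  refine mul_le_mul ((q_mul_le _ _).trans ?_) hc (q_nonneg _) (mul_nonneg hQ0 (q_nonneg _))
  rw [(h g' hg').q_mul]
  exact mul_le_mul_of_nonneg_right hc (q_nonneg _)

lemma exists_not_isSc {Λ : Subgroup G} {Q : ℝ} (hcoc : Coc Λ Q) : ∃ g ∈ Λ, ¬ IsSc g := by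
  by_contra hcon
  push Not at hcon
  have h1 : ∀ t : ℝ, 2 + t ^ 2 ≤ Q * 2 := by
    intro t
    obtain ⟨c, g', hg', hc, h⟩ := hcoc (u t)
    rw [← q_u, h]
    refine (q_mul_le _ _).trans ?_
    rw [(hcon g' hg').q_eq]
    exact mul_le_mul_of_nonneg_right hc (by norm_num)
  have h2 := h1 (Q + 1)
  have h3 := h1 0
  nlinarith [sq_nonneg Q]

lemma exists_not_isSc' {Λ Γ : Subgroup G} {Q : ℝ} (hcoc : Coc Λ Q)
    [hN : (Γ.subgroupOf Λ).Normal] (hnil : Group.IsNilpotent (Λ ⧸ Γ.subgroupOf Λ)) :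
    ∃ g ∈ Γ, ¬ IsSc g := by
  by_contra hcon
  push Not at hcon
  obtain ⟨n, hn⟩ := hnil.nilpotent
  have key : ∀ i : ℕ, ∀ z : Λ, (QuotientGroup.mk z : Λ ⧸ Γ.subgroupOf Λ) ∈
      Subgroup.upperCentralSeries (Λ ⧸ Γ.subgroupOf Λ) i → IsSc (z : G) := by
    intro i
    induction i with
    | zero =>
      intro z hz
      rw [Subgroup.upperCentralSeries_zero, Subgroup.mem_bot, QuotientGroup.eq_one_iff,
        Subgroup.mem_subgroupOf] at hz
      exact hcon _ hz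
    | succ i ih =>
      intro z hz
      refine isSc_of_comm hcoc fun g hg => ?_
      rw [Subgroup.mem_upperCentralSeries_succ_iff] at hz
      have h2 := inv_mem (hz (QuotientGroup.mk (⟨g, hg⟩ : Λ)))
      rw [commutatorElement_inv] at h2
      have h3 := ih (⁅(⟨g, hg⟩ : Λ), z⁆) h2
      rw [commutatorElement_def] at h3
      simpa using h3
  obtain ⟨g, hg, hg2⟩ := exists_not_isSc hcoc
  exact hg2 (key n ⟨g, hg⟩ (by rw [hn]; exact Subgroup.mem_top _))

/-- the determinant of two row vectors -/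
def dt (p r : ℝ × ℝ) : ℝ := p.1 * r.2 - p.2 * r.1

lemma dt_ra (p r : ℝ × ℝ) (g : G) : dt (ra p g) (ra r g) = dt p r := by
  have := det_eq g
  unfold dt ra
  simp only
  linear_combination (p.1 * r.2 - p.2 * r.1) * this

lemma dt_self (p : ℝ × ℝ) : dt p p = 0 := by unfold dt; ring
lemma dt_comm (p r : ℝ × ℝ) : dt p r = - dt r p := by unfold dt; ring
lemma dt_smul_left (c : ℝ) (p r : ℝ × ℝ) : dt (c • p) r = c * dt p r := by
  unfold dt; simp; ring
lemma dt_smul_right (c : ℝ) (p r : ℝ × ℝ) : dt p (c • r) = c * dt p r := by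
  unfold dt; simp; ring

lemma exists_smul_of_dt {p r : ℝ × ℝ} (hr : r ≠ 0) (h : dt p r = 0) : ∃ x : ℝ, p = x • r := by
  have hr2 : 0 < r.1 ^ 2 + r.2 ^ 2 := by
    by_contra hcon
    have h1 : r.1 = 0 := by nlinarith [sq_nonneg r.1, sq_nonneg r.2]
    have h2 : r.2 = 0 := by nlinarith [sq_nonneg r.1, sq_nonneg r.2]
    exact hr (Prod.ext h1 h2)
  refine ⟨(p.1 * r.1 + p.2 * r.2) / (r.1 ^ 2 + r.2 ^ 2), ?_⟩
  unfold dt at h
  ext
  · simp only [Prod.smul_fst, smul_eq_mul]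
    field_simp
    linear_combination r.2 * h
  · simp only [Prod.smul_snd, smul_eq_mul]
    field_simp
    linear_combination (-r.1) * h

/-- the matrix with prescribed second row -/
noncomputable def sg (p : ℝ × ℝ) (hp : p.1 ^ 2 + p.2 ^ 2 ≠ 0) : G :=
  ⟨!![p.2 / (p.1 ^ 2 + p.2 ^ 2), - p.1 / (p.1 ^ 2 + p.2 ^ 2); p.1, p.2], by
    rw [Matrix.det_fin_two]
    simp only [Matrix.of_apply, Matrix.cons_val', Matrix.cons_val_zero, Matrix.cons_val_one,
      Matrix.cons_val_fin_one]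
    field_simp
    ring⟩

lemma ra_zero_one (g : G) : ra (0, 1) g = (g 1 0, g 1 1) := by
  unfold ra; simp

lemma ra_sg (p : ℝ × ℝ) (hp : p.1 ^ 2 + p.2 ^ 2 ≠ 0) : ra (0, 1) (sg p hp) = p := by
  rw [ra_zero_one]; rfl

lemma sq_ne_zero_of {p : ℝ × ℝ} (hp : p ≠ 0) : p.1 ^ 2 + p.2 ^ 2 ≠ 0 := by
  intro hcon
  have h1 : p.1 = 0 := by nlinarith [sq_nonneg p.1, sq_nonneg p.2]
  have h2 : p.2 = 0 := by nlinarith [sq_nonneg p.1, sq_nonneg p.2]
  exact hp (Prod.ext h1 h2)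

lemma eq_u_of_row {g : G} (h : ra (0, 1) g = (0, 1)) : g = u (g 0 1) := by
  rw [ra_zero_one] at h
  have h1 : g 1 0 = 0 := congrArg Prod.fst h
  have h2 : g 1 1 = 1 := congrArg Prod.snd h
  have hd := det_eq g
  rw [h1, h2] at hd
  rw [ext_iff']
  simp only [u_00, u_01, u_10, u_11]
  exact ⟨by linarith, trivial, h1, h2⟩

/-- squared distance to the identity -/
noncomputable def ds (g : G) : ℝ := (g 0 0 - 1) ^ 2 + g 0 1 ^ 2 + g 1 0 ^ 2 + (g 1 1 - 1) ^ 2

lemma eq_one_of_ds {g : G} (h : ds g ≤ 0) : g = 1 := by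
  unfold ds at h
  have e1 := sq_nonneg (g 0 0 - 1)
  have e2 := sq_nonneg (g 0 1)
  have e3 := sq_nonneg (g 1 0)
  have e4 := sq_nonneg (g 1 1 - 1)
  have h1 : g 0 0 - 1 = 0 := pow_eq_zero_iff two_ne_zero |>.1 (le_antisymm (by linarith) e1)
  have h2 : g 0 1 = 0 := pow_eq_zero_iff two_ne_zero |>.1 (le_antisymm (by linarith) e2)
  have h3 : g 1 0 = 0 := pow_eq_zero_iff two_ne_zero |>.1 (le_antisymm (by linarith) e3)
  have h4 : g 1 1 - 1 = 0 := pow_eq_zero_iff two_ne_zero |>.1 (le_antisymm (by linarith) e4)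
  rw [ext_iff']
  simp only [one_00, one_01, one_10, one_11]
  exact ⟨by linarith, h2, h3, by linarith⟩

lemma ds_conj_u (c : G) (x : ℝ) : ds (c⁻¹ * u x * c) ≤ q c ^ 2 * x ^ 2 := by
  have h00 : (c⁻¹ * u x * c) 0 0 - 1 = x * (c 1 1 * c 1 0) := by
    rw [mul_00, mul_00, mul_01, inv_00, inv_01]
    simp only [u_00, u_01, u_10, u_11]
    linear_combination det_eq c
  have h01 : (c⁻¹ * u x * c) 0 1 = x * (c 1 1 * c 1 1) := by
    rw [mul_01, mul_00, mul_01, inv_00, inv_01]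
    simp only [u_00, u_01, u_10, u_11]
    ring
  have h10 : (c⁻¹ * u x * c) 1 0 = - x * (c 1 0 * c 1 0) := by
    rw [mul_10, mul_10, mul_11, inv_10, inv_11]
    simp only [u_00, u_01, u_10, u_11]
    ring
  have h11 : (c⁻¹ * u x * c) 1 1 - 1 = - x * (c 1 0 * c 1 1) := by
    rw [mul_11, mul_10, mul_11, inv_10, inv_11]
    simp only [u_00, u_01, u_10, u_11]
    linear_combination det_eq c
  unfold ds
  rw [h00, h01, h10, h11]
  have h1 : 0 ≤ c 0 0 ^ 2 + c 0 1 ^ 2 := by positivity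
  have h2 : 0 ≤ c 1 0 ^ 2 + c 1 1 ^ 2 := by positivity
  have h3 : (c 1 0 ^ 2 + c 1 1 ^ 2) ^ 2 ≤ q c ^ 2 := by
    unfold q
    nlinarith
  nlinarith [sq_nonneg x]

/-- if `Γ` is cocompact and discrete, there is no nontrivial unipotent element -/
lemma no_unipotent {Λ : Subgroup G} [DiscreteTopology Λ] {Q : ℝ} (hcoc : Coc Λ Q) {z k : G}
    {b : ℝ} (hz : z ∈ Λ) (h : k * z * k⁻¹ = u b) : z = 1 := by
  have hQ0 : 0 ≤ Q := by
    obtain ⟨c, _, _, hc, _⟩ := hcoc 1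
    exact (q_nonneg c).trans hc
  have hconj : ∀ n : ℕ, ∃ g' ∈ Λ, ds (g' * z * g'⁻¹) ≤ Q ^ 2 * (Real.exp (-n) * b) ^ 2 ∧
      q (g' * z * g'⁻¹) ≤ Q * (2 + b ^ 2) * Q := by
    intro n
    obtain ⟨c, g', hg', hc, hcg⟩ := hcoc (a (-n) * k)
    have h1 : g' * z * g'⁻¹ = c⁻¹ * u (Real.exp (-n) * b) * c := by
      have h2 : g' = c⁻¹ * (a (-n) * k) := by rw [hcg]; group
      rw [h2]
      have h3 : c⁻¹ * (a (-n) * k) * z * (c⁻¹ * (a (-n) * k))⁻¹ =
          c⁻¹ * (a (-n) * (k * z * k⁻¹) * (a (-n))⁻¹) * c := by group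
      rw [h3, h, a_mul_u]
      group
    refine ⟨g', hg', ?_, ?_⟩
    · rw [h1]
      refine (ds_conj_u _ _).trans ?_
      have := pow_le_pow_left₀ (q_nonneg c) hc 2
      exact mul_le_mul_of_nonneg_right this (sq_nonneg _)
    · rw [h1]
      refine (q_mul_le _ _).trans ?_
      refine mul_le_mul ((q_mul_le _ _).trans ?_) hc (q_nonneg _)
        (mul_nonneg hQ0 (by positivity))
      rw [q_inv, q_u]
      refine mul_le_mul hc ?_ (by positivity) hQ0
      have h4 : Real.exp (-n : ℝ) ≤ 1 := Real.exp_le_one_iff.2 (by simp)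
      have h5 : 0 < Real.exp (-n : ℝ) := Real.exp_pos _
      have h6 : (Real.exp (-n : ℝ)) ^ 2 ≤ 1 := by nlinarith
      nlinarith [sq_nonneg b]
  choose g' hg' hds hq using hconj
  have hfin := finite_inter Λ (Q * (2 + b ^ 2) * Q)
  by_contra hz1
  have hne : ∀ n, g' n * z * (g' n)⁻¹ ≠ 1 := by
    intro n hn
    apply hz1
    have : z = (g' n)⁻¹ * (g' n * z * (g' n)⁻¹) * g' n := by group
    rw [this, hn]; group
  have hmem : ∀ n, g' n * z * (g' n)⁻¹ ∈
      {g : G | g ∈ Λ ∧ q g ≤ Q * (2 + b ^ 2) * Q} \ {1} :=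
    fun n => ⟨⟨mul_mem (mul_mem (hg' n) hz) (inv_mem (hg' n)), hq n⟩, hne n⟩
  obtain ⟨y, hy, hymin⟩ := Set.exists_min_image _ ds (hfin.subset sdiff_subset) ⟨_, hmem 0⟩
  have hy0 : 0 < ds y := by
    by_contra hcon
    exact hy.2 (eq_one_of_ds (not_lt.1 hcon))
  have hlim : Tendsto (fun n : ℕ => Q ^ 2 * (Real.exp (-n) * b) ^ 2) atTop (𝓝 0) := by
    have h1 : Tendsto (fun n : ℕ => Real.exp (-n)) atTop (𝓝 0) :=
      Real.tendsto_exp_neg_atTop_nhds_zero.comp tendsto_natCast_atTop_atTop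
    have h2 := (((h1.mul_const b).pow 2).const_mul (Q ^ 2))
    simpa using h2
  obtain ⟨n, hn⟩ := (hlim.eventually (gt_mem_nhds hy0)).exists
  have := hymin _ (hmem n)
  linarith [hds n]

/-- the quadratic form of a matrix -/
lemma Qf_expand (g : G) (p p' s : ℝ × ℝ) : dt p p' ^ 2 * dt (ra s g) s =
    dt s p' ^ 2 * dt (ra p g) p + dt p s ^ 2 * dt (ra p' g) p' +
      dt s p' * dt p s * (dt (ra p g) p' + dt (ra p' g) p) := by
  unfold dt ra
  simp only
  ring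

lemma isSc_of_Qf {g : G} (h : ∀ s, dt (ra s g) s = 0) : IsSc g := by
  have h1 := h (1, 0)
  have h2 := h (0, 1)
  have h3 := h (1, 1)
  unfold dt ra at h1 h2 h3
  simp at h1 h2 h3
  refine ⟨h1, h2, by linarith⟩

/-- a discrete cocompact group does not preserve the union of two lines -/
lemma no_pair {Λ : Subgroup G} {Q : ℝ} (hcoc : Coc Λ Q) {p p' : ℝ × ℝ} (hd : dt p p' ≠ 0)
    (h : ∀ g ∈ Λ, (dt (ra p g) p = 0 ∨ dt (ra p g) p' = 0) ∧
      (dt (ra p' g) p = 0 ∨ dt (ra p' g) p' = 0)) : False := by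
  have hp : p ≠ 0 := by rintro rfl; apply hd; unfold dt; simp
  have hp' : p' ≠ 0 := by rintro rfl; apply hd; unfold dt; simp
  have key : ∀ g ∈ Λ, ∀ s, |dt (ra s g) p * dt (ra s g) p'| = |dt s p * dt s p'| := by
    intro g hg s
    have h0 := h g⁻¹ (inv_mem hg)
    have e1 : dt (ra s g) p = dt s (ra p g⁻¹) := by
      rw [← dt_ra s (ra p g⁻¹) g, ← ra_mul, inv_mul_cancel, ra_one]
    have e2 : dt (ra s g) p' = dt s (ra p' g⁻¹) := by
      rw [← dt_ra s (ra p' g⁻¹) g, ← ra_mul, inv_mul_cancel, ra_one]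
    have e3 : dt (ra p g⁻¹) (ra p' g⁻¹) = dt p p' := dt_ra _ _ _
    obtain ⟨h1, h2⟩ := h0
    rw [e1, e2]
    rcases h1 with h1 | h1
    · obtain ⟨x, hx⟩ := exists_smul_of_dt hp h1
      rcases h2 with h2 | h2
      · obtain ⟨y, hy⟩ := exists_smul_of_dt hp h2
        rw [hx, hy, dt_smul_left, dt_smul_right, dt_self] at e3
        exfalso; apply hd; rw [← e3]; ring
      · obtain ⟨y, hy⟩ := exists_smul_of_dt hp' h2
        rw [hx, hy, dt_smul_left, dt_smul_right] at e3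
        have hxy : x * y = 1 := by
          have : (x * y - 1) * dt p p' = 0 := by linear_combination e3
          rcases mul_eq_zero.1 this with h | h
          · linarith
          · exact absurd h hd
        rw [hx, hy, dt_smul_right, dt_smul_right]
        congr 1
        linear_combination (dt s p * dt s p') * hxy
    · obtain ⟨x, hx⟩ := exists_smul_of_dt hp' h1
      rcases h2 with h2 | h2
      · obtain ⟨y, hy⟩ := exists_smul_of_dt hp h2
        rw [hx, hy, dt_smul_left, dt_smul_right, dt_comm p' p] at e3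
        have hxy : x * y = -1 := by
          have : (x * y + 1) * dt p p' = 0 := by linear_combination -e3
          rcases mul_eq_zero.1 this with h | h
          · linarith
          · exact absurd h hd
        rw [hx, hy, dt_smul_right, dt_smul_right]
        have : x * dt s p' * (y * dt s p) = - (dt s p * dt s p') := by
          linear_combination (dt s p * dt s p') * hxy
        rw [this, abs_neg]
      · obtain ⟨y, hy⟩ := exists_smul_of_dt hp' h2
        rw [hx, hy, dt_smul_left, dt_smul_right, dt_self] at e3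
        exfalso; apply hd; rw [← e3]; ring
  -- boundedness
  obtain ⟨B, hB⟩ : ∃ B, B = 2 * Q * (|p.1| + |p.2|) * (|p'.1| + |p'.2|) := ⟨_, rfl⟩
  have hbd : ∀ s : ℝ × ℝ, s ≠ 0 → |dt s p * dt s p'| ≤ B := by
    intro s hs
    obtain ⟨c, g', hg', hc, hcg⟩ := hcoc (sg s (sq_ne_zero_of hs))
    have e1 : s = ra (ra (0, 1) c) g' := by rw [← ra_mul, ← hcg, ra_sg]
    rw [e1, key g' hg', ra_zero_one, abs_mul]
    have h1 : |c 1 0| ≤ √Q := (abs_entry_le c 1 0).trans (Real.sqrt_le_sqrt hc)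
    have h2 : |c 1 1| ≤ √Q := (abs_entry_le c 1 1).trans (Real.sqrt_le_sqrt hc)
    have hQ : √Q * √Q = Q := Real.mul_self_sqrt ((q_nonneg c).trans hc)
    have h3 : ∀ r : ℝ × ℝ, |dt (c 1 0, c 1 1) r| ≤ √Q * (|r.1| + |r.2|) := by
      intro r
      unfold dt
      refine (abs_sub _ _).trans ?_
      rw [abs_mul, abs_mul]
      nlinarith [mul_le_mul_of_nonneg_right h1 (abs_nonneg r.2),
        mul_le_mul_of_nonneg_right h2 (abs_nonneg r.1)]
    calc |dt (c 1 0, c 1 1) p| * |dt (c 1 0, c 1 1) p'| ≤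
        (√Q * (|p.1| + |p.2|)) * (√Q * (|p'.1| + |p'.2|)) :=
          mul_le_mul (h3 p) (h3 p') (abs_nonneg _) (by positivity)
      _ = (√Q * √Q) * (|p.1| + |p.2|) * (|p'.1| + |p'.2|) := by ring
      _ = Q * (|p.1| + |p.2|) * (|p'.1| + |p'.2|) := by rw [hQ]
      _ ≤ B := by
          rw [hB]
          have : 0 ≤ Q * (|p.1| + |p.2|) * (|p'.1| + |p'.2|) := by
            have : 0 ≤ Q := (q_nonneg c).trans hc
            positivity
          linarith
  have hsum : p + p' ≠ 0 := by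
    intro hcon
    have : p' = (-1 : ℝ) • p := by rw [neg_one_smul]; exact (neg_eq_of_add_eq_zero_right hcon).symm
    apply hd
    rw [this, dt_smul_right, dt_self, mul_zero]
  have hdsum : dt (p + p') p * dt (p + p') p' = - dt p p' ^ 2 := by
    unfold dt; simp; ring
  have h1 : ∀ r : ℝ, r ≠ 0 → r ^ 2 * dt p p' ^ 2 ≤ B := by
    intro r hr
    have h2 := hbd (r • (p + p')) (smul_ne_zero hr hsum)
    rw [dt_smul_left, dt_smul_left] at h2
    have h3 : r * dt (p + p') p * (r * dt (p + p') p') = - (r ^ 2 * dt p p' ^ 2) := by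
      linear_combination r ^ 2 * hdsum
    rw [h3, abs_neg, abs_of_nonneg (by positivity)] at h2
    exact h2
  have hd2 : 0 < dt p p' ^ 2 := by positivity
  have hB0 : 0 ≤ B := by have := h1 1 one_ne_zero; nlinarith
  have h4 := h1 ((B + 1) / dt p p' ^ 2 + 1) (by positivity)
  have h5 : (B + 1) / dt p p' ^ 2 * dt p p' ^ 2 = B + 1 := by field_simp
  have h6 : 0 ≤ (B + 1) / dt p p' ^ 2 := by positivity
  nlinarith

/-- no line is fixed by the normal subgroup -/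
theorem no_fixed_line {Λ Γ : Subgroup G} [DiscreteTopology Λ] {Q : ℝ} (hcoc : Coc Λ Q)
    (hΓΛ : Γ ≤ Λ) [hN : (Γ.subgroupOf Λ).Normal]
    (hnil : Group.IsNilpotent (Λ ⧸ Γ.subgroupOf Λ)) (p : ℝ × ℝ) (hp : p ≠ 0) :
    ∃ γ ∈ Γ, dt (ra p γ) p ≠ 0 := by
  by_contra hcon
  push Not at hcon
  have hnorm : ∀ g ∈ Λ, ∀ γ ∈ Γ, g * γ * g⁻¹ ∈ Γ := by
    intro g hg γ hγ
    have h := hN.conj_mem ⟨γ, hΓΛ hγ⟩ (Subgroup.mem_subgroupOf.2 hγ) ⟨g, hg⟩
    rw [Subgroup.mem_subgroupOf] at h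
    simpa using h
  have hall : ∀ g ∈ Λ, ∀ γ ∈ Γ, dt (ra (ra p g) γ) (ra p g) = 0 := by
    intro g hg γ hγ
    have h1 := hcon _ (hnorm g hg γ hγ)
    rw [← dt_ra _ _ g, ← ra_mul] at h1
    rw [← ra_mul]
    have h2 : g * γ * g⁻¹ * g = g * γ := by group
    rwa [h2] at h1
  obtain ⟨γ0, hγ0, hsc⟩ := exists_not_isSc' hcoc hnil
  by_cases hcase : ∃ g1 ∈ Λ, dt p (ra p g1) ≠ 0
  · obtain ⟨g1, hg1, hd⟩ := hcase
    set p' := ra p g1 with hp'
    have hN : ∀ g ∈ Λ, dt (ra p g) p' * dt p (ra p g) = 0 := by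
      intro g hg
      have h1 := Qf_expand γ0 p p' (ra p g)
      rw [hall g hg γ0 hγ0, hcon γ0 hγ0, hall g1 hg1 γ0 hγ0] at h1
      by_contra hne
      apply hsc
      have hB : dt (ra p γ0) p' + dt (ra p' γ0) p = 0 := by
        have h2 : dt (ra p g) p' * dt p (ra p g) * (dt (ra p γ0) p' + dt (ra p' γ0) p) = 0 := by
          linear_combination -h1
        exact (mul_eq_zero.1 h2).resolve_left hne
      refine isSc_of_Qf fun s => ?_
      have h3 := Qf_expand γ0 p p' s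
      rw [hcon γ0 hγ0, hall g1 hg1 γ0 hγ0, hB] at h3
      have h4 : dt p p' ^ 2 * dt (ra s γ0) s = 0 := by linear_combination h3
      exact (mul_eq_zero.1 h4).resolve_left (pow_ne_zero 2 hd)
    refine no_pair hcoc hd fun g hg => ⟨?_, ?_⟩
    · rcases mul_eq_zero.1 (hN g hg) with h | h
      · exact Or.inr h
      · left; rw [dt_comm, h, neg_zero]
    · rw [hp', ← ra_mul]
      rcases mul_eq_zero.1 (hN (g1 * g) (mul_mem hg1 hg)) with h | h
      · exact Or.inr h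
      · left; rw [dt_comm, h, neg_zero]
  · push Not at hcase
    have hchi : ∀ g ∈ Λ, ∃ x : ℝ, ra p g = x • p := fun g hg =>
      exists_smul_of_dt hp (by rw [dt_comm, hcase g hg, neg_zero])
    have hab : ∀ g ∈ Λ, ∀ z ∈ Λ, g * z * g⁻¹ * z⁻¹ = 1 := by
      intro g hg z hz
      have hfix : ra p (g * z * g⁻¹ * z⁻¹) = p := by
        obtain ⟨x, hx⟩ := hchi g hg
        obtain ⟨y, hy⟩ := hchi z hz
        obtain ⟨x', hx'⟩ := hchi _ (inv_mem hg)
        obtain ⟨y', hy'⟩ := hchi _ (inv_mem hz)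
        have hxx : (x * x') • p = p := by
          have : ra (ra p g) g⁻¹ = p := by rw [← ra_mul, mul_inv_cancel, ra_one]
          rw [hx, ra_smul, hx', smul_smul] at this
          exact this
        have hyy : (y * y') • p = p := by
          have : ra (ra p z) z⁻¹ = p := by rw [← ra_mul, mul_inv_cancel, ra_one]
          rw [hy, ra_smul, hy', smul_smul] at this
          exact this
        rw [ra_mul, ra_mul, ra_mul, hx, ra_smul, hy, smul_smul, ra_smul, hx', smul_smul, ra_smul,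
          hy', smul_smul]
        have : x * y * x' * y' = (x * x') * (y * y') := by ring
        rw [this, mul_smul, hyy, hxx]
      obtain ⟨k, hk⟩ : ∃ k, k = sg p (sq_ne_zero_of hp) := ⟨_, rfl⟩
      have hkp : ra (0, 1) k = p := by rw [hk, ra_sg]
      refine no_unipotent hcoc (k := k) (b := (k * (g * z * g⁻¹ * z⁻¹) * k⁻¹) 0 1)
        (mul_mem (mul_mem (mul_mem hg hz) (inv_mem hg)) (inv_mem hz)) (eq_u_of_row ?_)
      rw [ra_mul, ra_mul, hkp, hfix, ← hkp, ← ra_mul, mul_inv_cancel, ra_one]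
    obtain ⟨z, hz, hz2⟩ := exists_not_isSc hcoc
    apply hz2
    refine isSc_of_comm hcoc fun g hg => ?_
    rw [hab g hg z hz]
    exact ⟨one_01, one_10, by rw [one_00, one_11]⟩

/-- **Irreducibility** -/
theorem irr {Λ Γ : Subgroup G} [DiscreteTopology Λ] {Q0 : ℝ} (hcoc : Coc Λ Q0)
    (hΓΛ : Γ ≤ Λ) [hN : (Γ.subgroupOf Λ).Normal]
    (hnil : Group.IsNilpotent (Λ ⧸ Γ.subgroupOf Λ)) (Q : ℝ) : Irr Γ Q := by
  have key : ∃ c0 : ℝ, 0 < c0 ∧ ∃ C1 : ℝ, ∀ c ∈ {c : G | q c ≤ Q}, ∃ γ ∈ Γ,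
      c0 ≤ |(c * γ * c⁻¹) 1 0| ∧ q (c * γ * c⁻¹) ≤ C1 := by
    refine (isCompact_q Q).induction_on (p := fun s => ∃ c0 : ℝ, 0 < c0 ∧ ∃ C1 : ℝ, ∀ c ∈ s,
      ∃ γ ∈ Γ, c0 ≤ |(c * γ * c⁻¹) 1 0| ∧ q (c * γ * c⁻¹) ≤ C1) ?_ ?_ ?_ ?_
    · exact ⟨1, one_pos, 0, fun c hc => absurd hc (notMem_empty c)⟩
    · rintro s t hst ⟨c0, hc0, C1, h⟩
      exact ⟨c0, hc0, C1, fun c hc => h c (hst hc)⟩
    · rintro s t ⟨c0, hc0, C1, h⟩ ⟨c0', hc0', C1', h'⟩
      refine ⟨min c0 c0', lt_min hc0 hc0', max C1 C1', ?_⟩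
      rintro c (hc | hc)
      · obtain ⟨γ, hγ, h1, h2⟩ := h c hc
        exact ⟨γ, hγ, (min_le_left _ _).trans h1, h2.trans (le_max_left _ _)⟩
      · obtain ⟨γ, hγ, h1, h2⟩ := h' c hc
        exact ⟨γ, hγ, (min_le_right _ _).trans h1, h2.trans (le_max_right _ _)⟩
    · intro c _
      have hrow : ((c 1 0, c 1 1) : ℝ × ℝ) ≠ 0 := by
        intro h
        have h1 : c 1 0 = 0 := congrArg Prod.fst h
        have h2 : c 1 1 = 0 := congrArg Prod.snd h
        have := det_eq c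
        rw [h1, h2] at this
        simp at this
      obtain ⟨γ, hγ, hne⟩ := no_fixed_line hcoc hΓΛ hnil _ hrow
      have hne2 : (c * γ * c⁻¹) 1 0 ≠ 0 := by
        intro hcon
        apply hne
        rw [mul_10, mul_10, mul_11, inv_00, inv_10] at hcon
        unfold dt ra
        simp only
        linear_combination hcon
      have hpos : 0 < |(c * γ * c⁻¹) 1 0| := abs_pos.2 hne2
      refine ⟨{c' : G | |(c * γ * c⁻¹) 1 0| / 2 < |(c' * γ * c'⁻¹) 1 0| ∧
        q (c' * γ * c'⁻¹) < q (c * γ * c⁻¹) + 1}, ?_, |(c * γ * c⁻¹) 1 0| / 2, by positivity,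
        q (c * γ * c⁻¹) + 1, fun c' hc' => ⟨γ, hγ, hc'.1.le, hc'.2.le⟩⟩
      refine mem_nhdsWithin_of_mem_nhds (IsOpen.mem_nhds ?_ ⟨by linarith, by linarith⟩)
      refine IsOpen.inter ?_ ?_
      · exact isOpen_lt continuous_const
          (((continuous_entry 1 0).comp (by fun_prop : Continuous fun c' : G =>
            c' * γ * c'⁻¹)).abs)
      · exact isOpen_lt (continuous_q.comp (by fun_prop)) continuous_const
  obtain ⟨c0, hc0, C1, h⟩ := key
  exact ⟨c0, hc0, C1, fun c hc => h c hc⟩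

end Pool.Agent.E8helper85.NS
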