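import Pool.Agent.E8helper85.NS.Irred

/-!
# Measures on `G ⧸ Γ`
-/

set_option autoImplicit false

open MeasureTheory Filter Topology Set
open scoped ENNReal NNReal

namespace Pool.Agent.E8helper85.NS

noncomputable scoped instance instMG : MeasurableSpace G := borel G
scoped instance instBG : BorelSpace G := ⟨rfl⟩

/-- generation by unipotents -/
lemma gen (g : G) : ∃ x y z t : ℝ, g = u x * v y * u z * v t := by
  have key : ∀ g : G, g 1 0 ≠ 0 → ∃ x y z : ℝ, g = u x * v y * u z := by
    intro g hg
    refine ⟨(g 0 0 - 1) / g 1 0, g 1 0, (g 1 1 - 1) / g 1 0, ?_⟩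
    have hd := det_eq g
    rw [ext_iff']
    simp only [mul_00, mul_01, mul_10, mul_11, v_00, v_01, v_10, v_11, u_00, u_01, u_10, u_11]
    refine ⟨by field_simp; ring, ?_, by ring, by field_simp; ring⟩
    field_simp
    linear_combination -hd
  by_cases hg : g 1 0 = 0
  · have h1 : (g * v 1) 1 0 ≠ 0 := by
      rw [mul_10, hg]
      simp only [v_00, v_10]
      intro hcon
      have hd := det_eq g
      rw [hg] at hd
      have : g 1 1 = 0 := by linarith
      rw [this] at hd
      simp at hd
    obtain ⟨x, y, z, h⟩ := key _ h1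
    refine ⟨x, y, z, -1, ?_⟩
    rw [← h, v_neg]
    group
  · obtain ⟨x, y, z, h⟩ := key _ hg
    refine ⟨x, y, z, 0, ?_⟩
    rw [← h, v_zero, mul_one]

lemma modular_eq_one (g : G) : Measure.modularCharacterFun g = 1 := by
  have hu : ∀ t, Measure.modularCharacter (u t) = 1 := by
    intro t
    have h1 : a (Real.log 2) * u t * (a (Real.log 2))⁻¹ * (u t)⁻¹ = u t := by
      rw [a_mul_u, Real.exp_log two_pos, two_mul, u_add]; group
    have h2 := congrArg Measure.modularCharacter h1
    rw [← h2]
    rw [map_mul, map_mul, map_mul]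
    have h3 : ∀ g : G, Measure.modularCharacter g * Measure.modularCharacter g⁻¹ = 1 := by
      intro g; rw [← map_mul, mul_inv_cancel, map_one]
    calc _ = (Measure.modularCharacter (a (Real.log 2)) *
            Measure.modularCharacter (a (Real.log 2))⁻¹) *
            (Measure.modularCharacter (u t) * Measure.modularCharacter (u t)⁻¹) := by ring
      _ = 1 := by rw [h3, h3, one_mul]
  have hv : ∀ t, Measure.modularCharacter (v t) = 1 := by
    intro t
    have h1 : a (-Real.log 2) * v t * (a (-Real.log 2))⁻¹ * (v t)⁻¹ = v t := by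
      rw [a_mul_v, neg_neg, Real.exp_log two_pos, two_mul, v_add]; group
    have h2 := congrArg Measure.modularCharacter h1
    rw [← h2]
    rw [map_mul, map_mul, map_mul]
    have h3 : ∀ g : G, Measure.modularCharacter g * Measure.modularCharacter g⁻¹ = 1 := by
      intro g; rw [← map_mul, mul_inv_cancel, map_one]
    calc _ = (Measure.modularCharacter (a (-Real.log 2)) *
            Measure.modularCharacter (a (-Real.log 2))⁻¹) *
            (Measure.modularCharacter (v t) * Measure.modularCharacter (v t)⁻¹) := by ring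
      _ = 1 := by rw [h3, h3, one_mul]
  show Measure.modularCharacter g = 1
  obtain ⟨x, y, z, t, rfl⟩ := gen g
  rw [map_mul, map_mul, map_mul, hu, hv, hu, hv]
  simp

/-- `G` is unimodular -/
lemma map_mul_right_haar (ν : Measure G) [ν.IsHaarMeasure] (g : G) :
    ν.map (fun x => x * g) = ν := by
  rw [Measure.map_right_mul_eq_modularCharacterFun_smul ν g, modular_eq_one, one_smul]

section

variable (Γ : Subgroup G)

instance instCountable [DiscreteTopology Γ] : Countable Γ :=
  TopologicalSpace.separableSpace_iff_countable.1 inferInstance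

/-- periodization -/
noncomputable def per (φ : G → ℝ≥0∞) (x : G ⧸ Γ) : ℝ≥0∞ := ∑' γ : Γ, φ (x.out * γ)

lemma per_mk (φ : G → ℝ≥0∞) (g : G) : per Γ φ (g : G ⧸ Γ) = ∑' γ : Γ, φ (g * γ) := by
  unfold per
  obtain ⟨γ0, h⟩ := QuotientGroup.mk_out_eq_mul Γ g
  rw [h]
  rw [← (Equiv.mulLeft γ0).tsum_eq (fun γ : Γ => φ (g * γ))]
  refine tsum_congr fun γ => ?_
  simp only [Equiv.coe_mulLeft, Subgroup.coe_mul, mul_assoc]

lemma measurable_per [Countable Γ] {φ : G → ℝ≥0∞} (hφ : Measurable φ) :
    Measurable (per Γ φ) := by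
  rw [QuotientGroup.measurable_from_quotient]
  have : (per Γ φ) ∘ (QuotientGroup.mk : G → G ⧸ Γ) = fun g => ∑' γ : Γ, φ (g * γ) := by
    funext g; exact per_mk Γ φ g
  rw [this]
  exact Measurable.tsum fun γ => hφ.comp (measurable_mul_const _)

end

end Pool.Agent.E8helper85.NS
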