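import Pool.Agent.E8helper85.NS.Meas1

/-!
# Measures on `G ⧸ Γ`: the lift to `G`
-/

set_option autoImplicit false

open MeasureTheory Filter Topology Set
open scoped ENNReal NNReal

namespace Pool.Agent.E8helper85.NS

variable (Γ : Subgroup G)

/-- counting measure on a coset -/
noncomputable def ker (x : G ⧸ Γ) : Measure G :=
  Measure.sum fun γ : Γ => Measure.dirac (x.out * (γ : G))

lemma lintegral_ker {φ : G → ℝ≥0∞} (hφ : Measurable φ) (x : G ⧸ Γ) :
    ∫⁻ g, φ g ∂(ker Γ x) = per Γ φ x := by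
  unfold ker per
  rw [lintegral_sum_measure]
  refine tsum_congr fun γ => ?_
  rw [lintegral_dirac' _ hφ]

lemma measurable_ker [Countable Γ] : Measurable (ker Γ) := by
  refine Measure.measurable_of_measurable_coe _ fun s hs => ?_
  have h : (fun x => ker Γ x s) = per Γ (s.indicator 1) := by
    funext x
    rw [← lintegral_ker Γ (measurable_one.indicator hs), lintegral_indicator_one hs]
  rw [h]
  exact measurable_per Γ (measurable_one.indicator hs)

/-- the lift of a measure on `G ⧸ Γ` -/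
noncomputable def nu (μ : Measure (G ⧸ Γ)) : Measure G := μ.bind (ker Γ)

lemma lintegral_nu [Countable Γ] (μ : Measure (G ⧸ Γ)) {φ : G → ℝ≥0∞} (hφ : Measurable φ) :
    ∫⁻ g, φ g ∂(nu Γ μ) = ∫⁻ x, per Γ φ x ∂μ := by
  unfold nu
  rw [Measure.lintegral_bind (measurable_ker Γ).aemeasurable hφ.aemeasurable]
  exact lintegral_congr fun x => lintegral_ker Γ hφ x

lemma per_mul_left (φ : G → ℝ≥0∞) (g : G) (x : G ⧸ Γ) :
    per Γ (fun h => φ (g * h)) x = per Γ φ (g • x) := by
  obtain ⟨h, rfl⟩ := QuotientGroup.mk_surjective x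
  have : g • (h : G ⧸ Γ) = ((g * h : G) : G ⧸ Γ) := rfl
  rw [this, per_mk, per_mk]
  refine tsum_congr fun γ => ?_
  rw [mul_assoc]

lemma per_mono {φ ψ : G → ℝ≥0∞} (h : ∀ g, φ g ≤ ψ g) (x : G ⧸ Γ) : per Γ φ x ≤ per Γ ψ x :=
  ENNReal.tsum_le_tsum fun _ => h _

lemma le_per (φ : G → ℝ≥0∞) (g : G) : φ g ≤ per Γ φ (g : G ⧸ Γ) := by
  rw [per_mk]
  have := ENNReal.le_tsum (f := fun γ : Γ => φ (g * γ)) 1
  simpa using this

lemma per_mul_comp (φ : G → ℝ≥0∞) (f : G ⧸ Γ → ℝ≥0∞) (x : G ⧸ Γ) :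
    per Γ (fun g => φ g * f (g : G ⧸ Γ)) x = per Γ φ x * f x := by
  obtain ⟨h, rfl⟩ := QuotientGroup.mk_surjective x
  rw [per_mk, per_mk, ← ENNReal.tsum_mul_right]
  refine tsum_congr fun γ => ?_
  congr 2
  exact QuotientGroup.mk_mul_of_mem h γ.2

instance instClosed [DiscreteTopology Γ] : IsClosed (Γ : Set G) := Subgroup.isClosed_of_discrete

instance instSMulMeas [DiscreteTopology Γ] : MeasurableSMul G (G ⧸ Γ) :=
  QuotientGroup.measurableSMul

instance nu_inv [DiscreteTopology Γ] (μ : Measure (G ⧸ Γ)) [SMulInvariantMeasure G (G ⧸ Γ) μ] :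
    (nu Γ μ).IsMulLeftInvariant := by
  constructor
  intro g
  refine Measure.ext_of_lintegral _ fun f hf => ?_
  rw [lintegral_map hf (measurable_const_mul g), lintegral_nu Γ μ hf,
    lintegral_nu Γ μ (φ := fun h => f (g * h)) (hf.comp (measurable_const_mul g))]
  simp_rw [per_mul_left]
  exact (measurePreserving_smul g μ).lintegral_comp (measurable_per Γ hf)

/-- number of elements of `Γ` in a ball -/
noncomputable def cnt (R : ℝ) : ℕ := {γ : G | γ ∈ Γ ∧ q γ ≤ R}.ncard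

lemma per_ball_le [DiscreteTopology Γ] (R : ℝ) (x : G ⧸ Γ) :
    per Γ ({g : G | q g ≤ R}.indicator 1) x ≤
      cnt Γ (R * R) * (QuotientGroup.mk '' {g : G | q g ≤ R}).indicator 1 x := by
  by_cases hx : x ∈ QuotientGroup.mk '' {g : G | q g ≤ R}
  · obtain ⟨h, hh, rfl⟩ := hx
    have hx' : (h : G ⧸ Γ) ∈ (QuotientGroup.mk '' {g : G | q g ≤ R} : Set (G ⧸ Γ)) :=
      ⟨h, hh, rfl⟩
    rw [indicator_of_mem hx', Pi.one_apply, mul_one, per_mk]
    have hfin := finite_inter Γ (R * R)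
    have hfin2 : {γ : Γ | q (γ : G) ≤ R * R}.Finite := by
      refine Set.Finite.of_finite_image (f := fun γ : Γ => (γ : G))
        (hfin.subset ?_) Subtype.val_injective.injOn
      rintro _ ⟨γ, hγ, rfl⟩
      exact ⟨γ.2, hγ⟩
    have hcard : hfin2.toFinset.card ≤ cnt Γ (R * R) := by
      unfold cnt
      rw [← Set.ncard_eq_toFinset_card _ hfin2]
      rw [← Set.ncard_image_of_injective {γ : Γ | q (γ : G) ≤ R * R}
        (f := fun γ : Γ => (γ : G)) Subtype.val_injective]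
      refine Set.ncard_le_ncard ?_ hfin
      rintro _ ⟨γ, hγ, rfl⟩
      exact ⟨γ.2, hγ⟩
    calc ∑' γ : Γ, ({g : G | q g ≤ R}.indicator (1 : G → ℝ≥0∞)) (h * γ)
        = ∑ γ ∈ hfin2.toFinset, ({g : G | q g ≤ R}.indicator (1 : G → ℝ≥0∞)) (h * γ) := by
          refine tsum_eq_sum fun γ hγ => ?_
          rw [Set.Finite.mem_toFinset] at hγ
          refine indicator_of_notMem (fun hcon => hγ ?_) _
          have h1 : (γ : G) = h⁻¹ * (h * γ) := by group
          show q (γ : G) ≤ R * R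
          rw [h1]
          refine (q_mul_le _ _).trans ?_
          rw [q_inv]
          have h2 : q h ≤ R := hh
          have h3 : q (h * γ) ≤ R := hcon
          exact mul_le_mul h2 h3 (q_nonneg _) ((q_nonneg _).trans h2)
      _ ≤ ∑ γ ∈ hfin2.toFinset, 1 := Finset.sum_le_sum fun γ _ => indicator_le_self' (by simp) _
      _ = (hfin2.toFinset.card : ℝ≥0∞) := by simp
      _ ≤ (cnt Γ (R * R) : ℝ≥0∞) := by exact_mod_cast hcard
  · rw [indicator_of_notMem hx, mul_zero, nonpos_iff_eq_zero]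
    obtain ⟨h, rfl⟩ := QuotientGroup.mk_surjective x
    rw [per_mk, ENNReal.tsum_eq_zero]
    intro γ
    refine indicator_of_notMem (fun hcon => hx ?_) _
    exact ⟨h * γ, hcon, QuotientGroup.mk_mul_of_mem h γ.2⟩

lemma measurableSet_qball (R : ℝ) : MeasurableSet {g : G | q g ≤ R} :=
  (isClosed_le continuous_q continuous_const).measurableSet

lemma isCompact_mk_qball (R : ℝ) :
    IsCompact (QuotientGroup.mk '' {g : G | q g ≤ R} : Set (G ⧸ Γ)) :=
  (isCompact_q R).image QuotientGroup.continuous_mk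

instance nu_fin [DiscreteTopology Γ] (μ : Measure (G ⧸ Γ)) [IsFiniteMeasureOnCompacts μ] :
    IsFiniteMeasureOnCompacts (nu Γ μ) := by
  constructor
  intro K hK
  obtain ⟨R, hR⟩ : ∃ R, ∀ g ∈ K, q g ≤ R := by
    obtain ⟨R, hR⟩ := hK.bddAbove_image continuous_q.continuousOn
    exact ⟨R, fun g hg => hR (mem_image_of_mem _ hg)⟩
  calc nu Γ μ K ≤ nu Γ μ {g : G | q g ≤ R} := measure_mono fun g hg => hR g hg
    _ = ∫⁻ x, per Γ ({g : G | q g ≤ R}.indicator 1) x ∂μ := by
        rw [← lintegral_nu Γ μ (measurable_one.indicator (measurableSet_qball R)),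
          lintegral_indicator_one (measurableSet_qball R)]
    _ ≤ ∫⁻ x, cnt Γ (R * R) * (QuotientGroup.mk '' {g : G | q g ≤ R}).indicator 1 x ∂μ :=
        lintegral_mono fun x => per_ball_le Γ R x
    _ = cnt Γ (R * R) * μ (QuotientGroup.mk '' {g : G | q g ≤ R}) := by
        have hmeas : MeasurableSet (QuotientGroup.mk '' {g : G | q g ≤ R} : Set (G ⧸ Γ)) :=
          (isCompact_mk_qball Γ R).isClosed.measurableSet
        rw [lintegral_const_mul _ (measurable_one.indicator hmeas), lintegral_indicator_one hmeas]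
    _ < ∞ := ENNReal.mul_lt_top (ENNReal.natCast_lt_top _)
        ((isCompact_mk_qball Γ R).measure_lt_top)

lemma nu_univ_ne_zero [Countable Γ] {μ : Measure (G ⧸ Γ)} (hμ : μ ≠ 0) : nu Γ μ ≠ 0 := by
  intro hcon
  apply hμ
  rw [← Measure.measure_univ_eq_zero]
  have h1 : ∫⁻ x, per Γ 1 x ∂μ = 0 := by
    rw [← lintegral_nu Γ μ measurable_one, hcon, lintegral_zero_measure]
  refine le_antisymm ?_ bot_le
  rw [← h1, ← lintegral_one]
  refine lintegral_mono fun x => ?_
  obtain ⟨h, rfl⟩ := QuotientGroup.mk_surjective x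
  exact le_per Γ 1 h

lemma nu_haar [DiscreteTopology Γ] {μ : Measure (G ⧸ Γ)} [IsFiniteMeasureOnCompacts μ]
    [SMulInvariantMeasure G (G ⧸ Γ) μ] (hμ : μ ≠ 0) : (nu Γ μ).IsHaarMeasure := by
  have : NeZero (nu Γ μ) := ⟨nu_univ_ne_zero Γ hμ⟩
  have h1 : (nu Γ μ).IsOpenPosMeasure :=
    isOpenPosMeasure_of_mulLeftInvariant_of_regular
  exact {}

lemma nu_right [DiscreteTopology Γ] {μ : Measure (G ⧸ Γ)} [IsFiniteMeasureOnCompacts μ]
    [SMulInvariantMeasure G (G ⧸ Γ) μ] (g : G) {φ : G → ℝ≥0∞} (hφ : Measurable φ) :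
    ∫⁻ x, φ (x * g) ∂(nu Γ μ) = ∫⁻ x, φ x ∂(nu Γ μ) := by
  by_cases hμ : μ = 0
  · have : nu Γ μ = 0 := by rw [hμ]; unfold nu; exact Measure.bind_zero_left _
    rw [this]; simp
  have := nu_haar Γ hμ
  rw [← lintegral_map hφ (measurable_mul_const g), map_mul_right_haar]

end Pool.Agent.E8helper85.NS
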