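import Pool.Agent.E8helper85.NS.Meas2

/-!
# Right translations on `G ⧸ Γ`
-/

set_option autoImplicit false

open MeasureTheory Filter Topology Set
open scoped ENNReal NNReal

namespace Pool.Agent.E8helper85.NS

variable (Γ : Subgroup G)

/-- `l` normalizes `Γ` -/
def Nz (l : G) : Prop := ∀ γ : G, l * γ * l⁻¹ ∈ Γ ↔ γ ∈ Γ

lemma Nz.inv_mem {l : G} (hl : Nz Γ l) {γ : G} (hγ : γ ∈ Γ) : l⁻¹ * γ * l ∈ Γ := by
  rw [← hl]
  have : l * (l⁻¹ * γ * l) * l⁻¹ = γ := by group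
  rwa [this]

lemma Nz.inv {l : G} (hl : Nz Γ l) : Nz Γ l⁻¹ := by
  intro γ
  rw [inv_inv]
  constructor
  · intro h
    rw [← hl] at h
    have : l * (l⁻¹ * γ * l) * l⁻¹ = γ := by group
    rwa [this] at h
  · exact fun h => hl.inv_mem Γ h

/-- right translation -/
noncomputable def Rt (l : G) (x : G ⧸ Γ) : G ⧸ Γ := ((x.out * l : G) : G ⧸ Γ)

lemma Rt_mk {l : G} (hl : Nz Γ l) (g : G) : Rt Γ l (g : G ⧸ Γ) = ((g * l : G) : G ⧸ Γ) := by
  unfold Rt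
  obtain ⟨γ0, h⟩ := QuotientGroup.mk_out_eq_mul Γ g
  rw [h]
  have h1 : g * γ0 * l = g * l * (l⁻¹ * γ0 * l) := by group
  rw [h1]
  exact QuotientGroup.mk_mul_of_mem _ (hl.inv_mem Γ γ0.2)

lemma Rt_smul {l : G} (hl : Nz Γ l) (g : G) (x : G ⧸ Γ) : Rt Γ l (g • x) = g • Rt Γ l x := by
  obtain ⟨h, rfl⟩ := QuotientGroup.mk_surjective x
  have e1 : g • (h : G ⧸ Γ) = ((g * h : G) : G ⧸ Γ) := rfl
  rw [e1, Rt_mk Γ hl, Rt_mk Γ hl, mul_assoc]
  rfl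

lemma measurable_Rt {l : G} (hl : Nz Γ l) : Measurable (Rt Γ l) := by
  rw [QuotientGroup.measurable_from_quotient]
  have : (Rt Γ l) ∘ (QuotientGroup.mk : G → G ⧸ Γ) = QuotientGroup.mk ∘ fun g => g * l := by
    funext g; exact Rt_mk Γ hl g
  rw [this]
  exact QuotientGroup.measurable_coe.comp (measurable_mul_const l)

/-- a positive function with finite periodization -/
noncomputable def rho0 (g : G) : ℝ≥0∞ :=
  ∑' n : ℕ, (2⁻¹ : ℝ≥0∞) ^ (n + 1) * ((1 : ℝ≥0∞) + cnt Γ (n * n))⁻¹ *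
    ({g : G | q g ≤ (n : ℝ)}.indicator 1 g)

lemma measurable_rho0 : Measurable (rho0 Γ) := by
  unfold rho0
  refine Measurable.tsum fun n => Measurable.const_mul ?_ _
  exact measurable_one.indicator (measurableSet_qball _)

lemma per_rho0_le [DiscreteTopology Γ] (x : G ⧸ Γ) : per Γ (rho0 Γ) x ≤ 1 := by
  have h1 : per Γ (rho0 Γ) x = ∑' n : ℕ, (2⁻¹ : ℝ≥0∞) ^ (n + 1) *
      ((1 : ℝ≥0∞) + cnt Γ (n * n))⁻¹ * per Γ ({g : G | q g ≤ (n : ℝ)}.indicator 1) x := by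
    unfold per rho0
    rw [ENNReal.tsum_comm]
    refine tsum_congr fun n => ?_
    rw [ENNReal.tsum_mul_left]
  have h2 : ∑' n : ℕ, (2⁻¹ : ℝ≥0∞) ^ (n + 1) = 1 := by
    rw [ENNReal.tsum_geometric_add_one, ENNReal.one_sub_inv_two, inv_inv]
    exact ENNReal.inv_mul_cancel (by simp) (by simp)
  rw [h1]
  refine le_trans (ENNReal.tsum_le_tsum fun n => ?_) h2.le
  have h3 : per Γ ({g : G | q g ≤ (n : ℝ)}.indicator 1) x ≤ (1 : ℝ≥0∞) + cnt Γ (n * n) := by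
    refine (per_ball_le Γ n x).trans ?_
    refine (mul_le_of_le_one_right bot_le ?_).trans le_add_self
    exact indicator_le_self' (by simp) _
  calc (2⁻¹ : ℝ≥0∞) ^ (n + 1) * ((1 : ℝ≥0∞) + cnt Γ (n * n))⁻¹ *
        per Γ ({g : G | q g ≤ (n : ℝ)}.indicator 1) x
      ≤ (2⁻¹ : ℝ≥0∞) ^ (n + 1) * ((1 : ℝ≥0∞) + cnt Γ (n * n))⁻¹ *
        ((1 : ℝ≥0∞) + cnt Γ (n * n)) := by gcongr
    _ = (2⁻¹ : ℝ≥0∞) ^ (n + 1) := by
        rw [mul_assoc, ENNReal.inv_mul_cancel (by simp) (by finiteness), mul_one]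

lemma rho0_pos (g : G) : 0 < rho0 Γ g := by
  obtain ⟨n, hn⟩ := exists_nat_ge (q g)
  have hmem : g ∈ {g : G | q g ≤ (n : ℝ)} := hn
  refine lt_of_lt_of_le ?_ (ENNReal.le_tsum n)
  rw [indicator_of_mem hmem, Pi.one_apply, mul_one]
  refine ENNReal.mul_pos ?_ ?_
  · exact pow_ne_zero _ (by simp)
  · simp

/-- a partition of unity -/
noncomputable def rho (g : G) : ℝ≥0∞ := rho0 Γ g * (per Γ (rho0 Γ) (g : G ⧸ Γ))⁻¹

lemma measurable_rho [Countable Γ] : Measurable (rho Γ) :=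
  (measurable_rho0 Γ).mul ((measurable_per Γ (measurable_rho0 Γ)).comp
    QuotientGroup.measurable_coe).inv

lemma per_rho [DiscreteTopology Γ] (x : G ⧸ Γ) : per Γ (rho Γ) x = 1 := by
  unfold rho
  rw [per_mul_comp Γ (rho0 Γ) (fun x => (per Γ (rho0 Γ) x)⁻¹)]
  refine ENNReal.mul_inv_cancel ?_ ?_
  · obtain ⟨h, rfl⟩ := QuotientGroup.mk_surjective x
    exact (lt_of_lt_of_le (rho0_pos Γ h) (le_per Γ _ h)).ne'
  · exact ((per_rho0_le Γ x).trans_lt ENNReal.one_lt_top).ne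

lemma per_rho_right [DiscreteTopology Γ] {l : G} (hl : Nz Γ l) (x : G ⧸ Γ) :
    per Γ (fun g => rho Γ (g * l⁻¹)) x = 1 := by
  obtain ⟨h, rfl⟩ := QuotientGroup.mk_surjective x
  rw [per_mk, ← per_rho Γ ((h * l⁻¹ : G) : G ⧸ Γ), per_mk]
  let e : Γ ≃ Γ :=
    { toFun := fun γ => ⟨l * γ * l⁻¹, (hl γ).2 γ.2⟩
      invFun := fun γ => ⟨l⁻¹ * γ * l, hl.inv_mem Γ γ.2⟩
      left_inv := fun γ => by ext1; simp; group
      right_inv := fun γ => by ext1; simp; group }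
  rw [← e.tsum_eq (fun γ : Γ => rho Γ (h * l⁻¹ * γ))]
  refine tsum_congr fun γ => ?_
  congr 1
  show h * γ * l⁻¹ = h * l⁻¹ * (l * γ * l⁻¹)
  group

theorem right_inv [DiscreteTopology Γ] {μ : Measure (G ⧸ Γ)} [IsFiniteMeasureOnCompacts μ]
    [SMulInvariantMeasure G (G ⧸ Γ) μ] {l : G} (hl : Nz Γ l) :
    MeasurePreserving (Rt Γ l) μ μ := by
  refine ⟨measurable_Rt Γ hl, ?_⟩
  refine Measure.ext_of_lintegral _ fun f hf => ?_
  rw [lintegral_map hf (measurable_Rt Γ hl)]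
  have hf1 : Measurable fun x => f (Rt Γ l x) := hf.comp (measurable_Rt Γ hl)
  have hf2 : Measurable fun g : G => f (g : G ⧸ Γ) := hf.comp QuotientGroup.measurable_coe
  calc ∫⁻ x, f (Rt Γ l x) ∂μ = ∫⁻ x, per Γ (fun g => rho Γ g * f (Rt Γ l g)) x ∂μ := by
        refine lintegral_congr fun x => ?_
        rw [per_mul_comp Γ (rho Γ) (fun x => f (Rt Γ l x)), per_rho, one_mul]
    _ = ∫⁻ g, rho Γ g * f (Rt Γ l g) ∂(nu Γ μ) := by
        rw [lintegral_nu Γ μ (φ := fun g => rho Γ g * f (Rt Γ l g))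
          ((measurable_rho Γ).mul (hf1.comp QuotientGroup.measurable_coe))]
    _ = ∫⁻ g, (fun h : G => rho Γ (h * l⁻¹) * f (h : G ⧸ Γ)) (g * l) ∂(nu Γ μ) := by
        refine lintegral_congr fun g => ?_
        simp only [mul_inv_cancel_right]
        rw [Rt_mk Γ hl]
    _ = ∫⁻ h, rho Γ (h * l⁻¹) * f (h : G ⧸ Γ) ∂(nu Γ μ) :=
        nu_right Γ l (((measurable_rho Γ).comp (measurable_mul_const _)).mul hf2)
    _ = ∫⁻ x, per Γ (fun h : G => rho Γ (h * l⁻¹) * f (h : G ⧸ Γ)) x ∂μ :=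
        lintegral_nu Γ μ (((measurable_rho Γ).comp (measurable_mul_const _)).mul hf2)
    _ = ∫⁻ x, f x ∂μ := by
        refine lintegral_congr fun x => ?_
        rw [per_mul_comp Γ (fun h => rho Γ (h * l⁻¹)) f, per_rho_right Γ hl, one_mul]

end Pool.Agent.E8helper85.NS
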