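import Pool.Agent.E8helper85.NS.Meas3

/-!
# Second moment bounds: rough constancy
-/

set_option autoImplicit false

open MeasureTheory Filter Topology Set
open scoped ENNReal NNReal

namespace Pool.Agent.E8helper85.NS

/-- elements near the identity -/
def Near (h : G) : Prop :=
  |h 0 0 - 1| ≤ 1 / 4 ∧ |h 0 1| ≤ 1 / 4 ∧ |h 1 0| ≤ 1 / 4 ∧ |h 1 1 - 1| ≤ 1 / 4

lemma Near.inv {h : G} (hh : Near h) : Near h⁻¹ := by
  obtain ⟨h1, h2, h3, h4⟩ := hh
  unfold Near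
  rw [inv_00, inv_01, inv_10, inv_11, abs_neg, abs_neg]
  exact ⟨h4, h2, h3, h1⟩

lemma Near.q_le {h : G} (hh : Near h) : q h ≤ 11 := by
  obtain ⟨h1, h2, h3, h4⟩ := hh
  rw [abs_le] at h1 h2 h3 h4
  unfold q
  nlinarith

lemma near_v {τ : ℝ} (h : |τ| ≤ 1 / 4) : Near (v τ) := by
  refine ⟨by simp, by simp, ?_, by simp⟩
  rw [v_10]
  exact h

lemma Near.den {h : G} (hh : Near h) {t : ℝ} (ht : t ∈ Icc (-1 : ℝ) 1) :
    1 / 2 ≤ h 0 0 + t * h 1 0 ∧ h 0 0 + t * h 1 0 ≤ 3 / 2 := by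
  obtain ⟨h1, h2, h3, h4⟩ := hh
  rw [abs_le] at h1 h3
  obtain ⟨ht1, ht2⟩ := ht
  have h5 : |t * h 1 0| ≤ 1 / 4 := by
    rw [abs_mul]
    have e1 : |t| ≤ 1 := abs_le.2 ⟨ht1, ht2⟩
    have e2 : |h 1 0| ≤ 1 / 4 := abs_le.2 h3
    calc |t| * |h 1 0| ≤ 1 * (1 / 4) := mul_le_mul e1 e2 (abs_nonneg _) zero_le_one
      _ = 1 / 4 := by ring
  rw [abs_le] at h5
  constructor <;> linarith

lemma mobius_subst {h : G} (hh : Near h) (g : ℝ → ℝ≥0∞) :
    ∫⁻ t in Icc (-1 : ℝ) 1, g ((h 0 1 + t * h 1 1) / (h 0 0 + t * h 1 0)) ≤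
      ENNReal.ofReal (9 / 4) * ∫⁻ t in Icc (-3 : ℝ) 3, g t := by
  have hd := det_eq h
  set f : ℝ → ℝ := fun t => (h 0 1 + t * h 1 1) / (h 0 0 + t * h 1 0) with hf
  have hderiv : ∀ t ∈ Icc (-1 : ℝ) 1, HasDerivWithinAt f (1 / (h 0 0 + t * h 1 0) ^ 2)
      (Icc (-1 : ℝ) 1) t := by
    intro t ht
    have hne : h 0 0 + t * h 1 0 ≠ 0 := by have := (hh.den ht).1; linarith
    have h1 : HasDerivAt (fun t : ℝ => h 0 1 + t * h 1 1) (h 1 1) t := by
      simpa using ((hasDerivAt_id t).mul_const (h 1 1)).const_add (h 0 1)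
    have h2 : HasDerivAt (fun t : ℝ => h 0 0 + t * h 1 0) (h 1 0) t := by
      simpa using ((hasDerivAt_id t).mul_const (h 1 0)).const_add (h 0 0)
    have h3 := h1.div h2 hne
    have h4 : h 1 1 * (h 0 0 + t * h 1 0) - (h 0 1 + t * h 1 1) * h 1 0 = 1 := by
      linear_combination hd
    rw [h4] at h3
    exact h3.hasDerivWithinAt
  have hinj : InjOn f (Icc (-1 : ℝ) 1) := by
    intro t ht t' ht' htt
    have hne : h 0 0 + t * h 1 0 ≠ 0 := by have := (hh.den ht).1; linarith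
    have hne' : h 0 0 + t' * h 1 0 ≠ 0 := by have := (hh.den ht').1; linarith
    simp only [hf] at htt
    rw [div_eq_div_iff hne hne'] at htt
    linear_combination htt - (t - t') * hd
  have hkey := lintegral_image_eq_lintegral_abs_deriv_mul measurableSet_Icc hderiv hinj g
  have himg : f '' Icc (-1 : ℝ) 1 ⊆ Icc (-3) 3 := by
    rintro _ ⟨t, ht, rfl⟩
    have hden := hh.den ht
    have hnum : |h 0 1 + t * h 1 1| ≤ 3 / 2 := by
      obtain ⟨h1, h2, h3, h4⟩ := hh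
      have e1 : |t| ≤ 1 := abs_le.2 ht
      have e2 : |h 1 1| ≤ 5 / 4 := by rw [abs_le] at h4 ⊢; constructor <;> linarith
      calc |h 0 1 + t * h 1 1| ≤ |h 0 1| + |t * h 1 1| := abs_add_le _ _
        _ = |h 0 1| + |t| * |h 1 1| := by rw [abs_mul]
        _ ≤ 1 / 4 + 1 * (5 / 4) := by
            refine add_le_add h2 (mul_le_mul e1 e2 (abs_nonneg _) zero_le_one)
        _ = 3 / 2 := by norm_num
    refine abs_le.1 ?_
    simp only [hf]
    rw [abs_div, abs_of_pos (by linarith : 0 < h 0 0 + t * h 1 0), div_le_iff₀ (by linarith)]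
    linarith
  calc ∫⁻ t in Icc (-1 : ℝ) 1, g (f t)
      ≤ ∫⁻ t in Icc (-1 : ℝ) 1, ENNReal.ofReal (9 / 4) *
        (ENNReal.ofReal |1 / (h 0 0 + t * h 1 0) ^ 2| * g (f t)) := by
        refine setLIntegral_mono' measurableSet_Icc fun t ht => ?_
        rw [← mul_assoc, ← ENNReal.ofReal_mul (by norm_num)]
        refine le_mul_of_one_le_left' ?_
        rw [ENNReal.one_le_ofReal]
        have hden := hh.den ht
        rw [abs_of_nonneg (by positivity)]
        have hpos : 0 < (h 0 0 + t * h 1 0) ^ 2 := by nlinarith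
        rw [mul_one_div, le_div_iff₀ hpos]
        nlinarith
    _ = ENNReal.ofReal (9 / 4) * ∫⁻ t in Icc (-1 : ℝ) 1,
        (ENNReal.ofReal |1 / (h 0 0 + t * h 1 0) ^ 2| * g (f t)) := by
        rw [lintegral_const_mul' _ _ ENNReal.ofReal_ne_top]
    _ = ENNReal.ofReal (9 / 4) * ∫⁻ t in f '' Icc (-1 : ℝ) 1, g t := by rw [hkey]
    _ ≤ ENNReal.ofReal (9 / 4) * ∫⁻ t in Icc (-3 : ℝ) 3, g t := by
        gcongr

section

variable {X : Type*} [MeasurableSpace X] [MulAction G X] [MeasurableSMul₂ G X]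

/-- weights -/
structure Wt (φ : X → ℝ≥0∞) : Prop where
  meas : Measurable φ
  le_one : ∀ x, φ x ≤ 1
  smul_le : ∀ (b : G) (x : X), q b ≤ 11 → φ (b • x) ≤ 2 * φ x

/-- window integrals -/
noncomputable def FF (φ : X → ℝ≥0∞) (s b : ℝ) (y : X) : ℝ≥0∞ :=
  ∫⁻ t in Icc (-b) b, φ ((a s * u t) • y)

lemma measurable_uncurry {φ : X → ℝ≥0∞} (hφ : Measurable φ) {k : ℝ → G} (hk : Measurable k) :
    Measurable fun z : ℝ × X => φ (k z.1 • z.2) :=
  hφ.comp (measurable_smul.comp ((hk.comp measurable_fst).prodMk measurable_snd))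

lemma measurable_au (s : ℝ) : Measurable fun t : ℝ => a s * u t :=
  (by fun_prop : Continuous fun t : ℝ => a s * u t).measurable

lemma measurable_FF {φ : X → ℝ≥0∞} (hφ : Measurable φ) (s b : ℝ) : Measurable (FF φ s b) := by
  unfold FF
  exact (measurable_uncurry hφ (measurable_au s)).lintegral_prod_left'
    (μ := volume.restrict (Icc (-b) b))

lemma FF_mono (φ : X → ℝ≥0∞) (s : ℝ) {b b' : ℝ} (h : b ≤ b') (y : X) :
    FF φ s b y ≤ FF φ s b' y :=
  lintegral_mono_set (Icc_subset_Icc (by linarith) h)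

/-- translates of windows -/
lemma FF_u (φ : X → ℝ≥0∞) (s b c : ℝ) (y : X) :
    FF φ s b (u c • y) = ∫⁻ t in Icc (c - b) (c + b), φ ((a s * u t) • y) := by
  unfold FF
  have h1 : ∀ t, (a s * u t) • u c • y = (a s * u (t + c)) • y := by
    intro t; rw [← mul_smul, mul_assoc, ← u_add]
  simp_rw [h1]
  rw [← lintegral_indicator measurableSet_Icc, ← lintegral_indicator measurableSet_Icc,
    ← lintegral_add_right_eq_self (fun t => (Icc (c - b) (c + b)).indicator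
      (fun t => φ ((a s * u t) • y)) t) c]
  refine lintegral_congr fun t => ?_
  by_cases ht : t ∈ Icc (-b) b
  · rw [indicator_of_mem ht, indicator_of_mem]
    exact ⟨by linarith [ht.1], by linarith [ht.2]⟩
  · rw [indicator_of_notMem ht, indicator_of_notMem]
    intro hcon
    exact ht ⟨by linarith [hcon.1], by linarith [hcon.2]⟩

lemma rough {φ : X → ℝ≥0∞} (hφ : Wt φ) {s : ℝ} (hs : 0 ≤ s) {h : G} (hh : Near h) (x : X) :
    FF φ s 1 (h • x) ≤ ENNReal.ofReal (9 / 2) * FF φ s 3 x := by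
  have h1 : FF φ s 1 (h • x) ≤ ∫⁻ t in Icc (-1 : ℝ) 1,
      2 * φ ((a s * u ((h 0 1 + t * h 1 1) / (h 0 0 + t * h 1 0))) • x) := by
    unfold FF
    refine setLIntegral_mono' measurableSet_Icc fun t ht => ?_
    have hden := hh.den ht
    have hne : h 0 0 + t * h 1 0 ≠ 0 := by linarith
    have e1 : (a s * u t) • h • x = (v (Real.exp (-s) * (h 1 0 / (h 0 0 + t * h 1 0))) *
        dg (h 0 0 + t * h 1 0) hne) •
        (a s * u ((h 0 1 + t * h 1 1) / (h 0 0 + t * h 1 0))) • x := by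
      rw [← mul_smul, ← mul_smul]
      congr 1
      rw [mul_assoc, u_mul_eq t h hne, ← mul_assoc, ← mul_assoc, a_mul_v, mul_assoc (v _) (a s),
        a_mul_dg, mul_assoc, mul_assoc, mul_assoc]
    rw [e1]
    refine hφ.smul_le _ _ ?_
    obtain ⟨z, hz⟩ : ∃ z, z = Real.exp (-s) * (h 1 0 / (h 0 0 + t * h 1 0)) := ⟨_, rfl⟩
    obtain ⟨x', hx'⟩ : ∃ x', x' = h 0 0 + t * h 1 0 := ⟨_, rfl⟩
    have hz1 : |z| ≤ 1 / 2 := by
      rw [hz, abs_mul, abs_div, abs_of_pos (Real.exp_pos _),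
        abs_of_pos (by linarith : 0 < h 0 0 + t * h 1 0)]
      have e2 : Real.exp (-s) ≤ 1 := Real.exp_le_one_iff.2 (by linarith)
      have e3 : |h 1 0| / (h 0 0 + t * h 1 0) ≤ 1 / 2 := by
        rw [div_le_iff₀ (by linarith)]
        have := hh.2.2.1
        linarith
      calc Real.exp (-s) * (|h 1 0| / (h 0 0 + t * h 1 0)) ≤ 1 * (1 / 2) :=
            mul_le_mul e2 e3 (div_nonneg (abs_nonneg _) (by linarith)) zero_le_one
        _ = 1 / 2 := by ring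
    rw [← hz]
    unfold q
    rw [mul_00, mul_01, mul_10, mul_11]
    simp only [v_00, v_01, v_10, v_11, dg_00, dg_01, dg_10, dg_11]
    rw [← hx'] at hden ⊢
    have hxi : x'⁻¹ ≤ 2 := by
      rw [inv_le_comm₀ (by linarith) (by norm_num)]; linarith
    have hxi0 : 0 < x'⁻¹ := inv_pos.2 (by linarith)
    have e4 : x' ^ 2 ≤ 9 / 4 := by nlinarith
    have e5 : x'⁻¹ ^ 2 ≤ 4 := by nlinarith
    have e6 : z ^ 2 ≤ 1 / 4 := by
      rw [← sq_abs]; nlinarith [abs_nonneg z]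
    have e7 : z ^ 2 * x' ^ 2 ≤ 1 / 4 * (9 / 4) :=
      mul_le_mul e6 e4 (sq_nonneg _) (by norm_num)
    have e8 : (1 * x' + 0 * 0) ^ 2 + (1 * 0 + 0 * x'⁻¹) ^ 2 + (z * x' + 1 * 0) ^ 2 +
        (z * 0 + 1 * x'⁻¹) ^ 2 = x' ^ 2 + z ^ 2 * x' ^ 2 + x'⁻¹ ^ 2 := by ring
    rw [e8]
    linarith
  refine h1.trans ?_
  rw [lintegral_const_mul' _ _ (by simp)]
  have h2 := mobius_subst hh (fun t => φ ((a s * u t) • x))
  calc 2 * ∫⁻ t in Icc (-1 : ℝ) 1, φ ((a s * u ((h 0 1 + t * h 1 1) / (h 0 0 + t * h 1 0))) • x)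
      ≤ 2 * (ENNReal.ofReal (9 / 4) * ∫⁻ t in Icc (-3 : ℝ) 3, φ ((a s * u t) • x)) := by
        gcongr
    _ = ENNReal.ofReal (9 / 2) * FF φ s 3 x := by
        unfold FF
        rw [← mul_assoc]
        congr 1
        have : (2 : ℝ≥0∞) = ENNReal.ofReal 2 := by simp
        rw [this, ← ENNReal.ofReal_mul (by norm_num)]
        norm_num

end

end Pool.Agent.E8helper85.NS
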