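import Pool.Agent.E8helper85.NS.Mom1

/-!
# Second moment bounds: the supremum bound
-/

set_option autoImplicit false

open MeasureTheory Filter Topology Set
open scoped ENNReal NNReal

namespace Pool.Agent.E8helper85.NS

lemma cm {x y : ℝ≥0∞} (c : ℝ≥0∞) (h : x ≤ y) : c * x ≤ c * y := by gcongr

lemma mul_le_sq_add_sq (x y : ℝ≥0∞) : x * y ≤ x ^ 2 + y ^ 2 := by
  rcases le_total x y with h | h
  · calc x * y ≤ y * y := by gcongr
      _ = y ^ 2 := by ring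
      _ ≤ x ^ 2 + y ^ 2 := le_add_self
  · calc x * y ≤ x * x := by gcongr
      _ = x ^ 2 := by ring
      _ ≤ x ^ 2 + y ^ 2 := le_self_add

lemma add_sq_le4 (x y : ℝ≥0∞) : (x + y) ^ 2 ≤ 4 * (x ^ 2 + y ^ 2) := by
  rcases le_total x y with h | h
  · calc (x + y) ^ 2 ≤ (y + y) ^ 2 := by gcongr
      _ = 4 * y ^ 2 := by ring
      _ ≤ 4 * (x ^ 2 + y ^ 2) := by gcongr; exact le_add_self
  · calc (x + y) ^ 2 ≤ (x + x) ^ 2 := by gcongr
      _ = 4 * x ^ 2 := by ring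
      _ ≤ 4 * (x ^ 2 + y ^ 2) := by gcongr; exact le_self_add

lemma add_sq_le3 (x y z : ℝ≥0∞) : (x + y + z) ^ 2 ≤ 16 * (x ^ 2 + y ^ 2 + z ^ 2) := by
  calc (x + y + z) ^ 2 ≤ 4 * ((x + y) ^ 2 + z ^ 2) := add_sq_le4 _ _
    _ ≤ 4 * (4 * (x ^ 2 + y ^ 2) + 4 * z ^ 2) := by
        gcongr
        · exact add_sq_le4 x y
        · calc z ^ 2 = 1 * z ^ 2 := by ring
            _ ≤ 4 * z ^ 2 := by gcongr; norm_num
    _ = 16 * (x ^ 2 + y ^ 2 + z ^ 2) := by ring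

section

variable {X : Type*} [MeasurableSpace X] [MulAction G X] [MeasurableSMul₂ G X]
  {μ : Measure X} [SFinite μ] [SMulInvariantMeasure G X μ]

lemma lint_smul (g : G) {Ψ : X → ℝ≥0∞} (hΨ : Measurable Ψ) :
    ∫⁻ x, Ψ (g • x) ∂μ = ∫⁻ x, Ψ x ∂μ :=
  (measurePreserving_smul g μ).lintegral_comp hΨ

omit [MulAction G X] [MeasurableSMul₂ G X] [SMulInvariantMeasure G X μ] in
lemma swapK {K : ℝ × X → ℝ≥0∞} (hK : Measurable K) (S : Set ℝ) :
    ∫⁻ x, (∫⁻ t in S, K (t, x)) ∂μ = ∫⁻ t in S, (∫⁻ x, K (t, x) ∂μ) :=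
  lintegral_lintegral_swap (f := fun x t => K (t, x)) (hK.comp measurable_swap).aemeasurable

lemma avg {k : ℝ → G} (hk : Measurable k) {Ψ : X → ℝ≥0∞} (hΨ : Measurable Ψ) (b : ℝ) :
    ∫⁻ x, (∫⁻ t in Icc (-b) b, Ψ (k t • x)) ∂μ = ENNReal.ofReal (2 * b) * ∫⁻ x, Ψ x ∂μ := by
  rw [swapK (μ := μ) (measurable_uncurry hΨ hk) (Icc (-b) b)]
  simp only
  simp_rw [lint_smul _ hΨ]
  rw [setLIntegral_const, Real.volume_Icc, mul_comm]
  congr 2
  ring

omit [SFinite μ] [SMulInvariantMeasure G X μ] in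
lemma measurable_orbit {φ : X → ℝ≥0∞} (hφ : Measurable φ) {k : ℝ → G} (hk : Measurable k)
    (x : X) : Measurable fun t : ℝ => φ (k t • x) :=
  hφ.comp (hk.smul_const x)

/-- the second moment -/
noncomputable def f2 (μ : Measure X) (φ : X → ℝ≥0∞) (s : ℝ) : ℝ≥0∞ := ∫⁻ x, FF φ s 1 x ^ 2 ∂μ

lemma FF3_le (φ : X → ℝ≥0∞) (s : ℝ) (y : X) :
    FF φ s 3 y ≤ FF φ s 1 (u (-2) • y) + FF φ s 1 y + FF φ s 1 (u 2 • y) := by
  rw [FF_u, FF_u]
  unfold FF
  have h1 : Icc (-3 : ℝ) 3 ⊆ Icc (-2 - 1) (-2 + 1) ∪ Icc (-1) 1 ∪ Icc (2 - 1) (2 + 1) := by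
    intro t ht
    obtain ⟨h1, h2⟩ := ht
    rcases le_total t (-1) with h | h
    · left; left; constructor <;> linarith
    · rcases le_total t 1 with h' | h'
      · left; right; constructor <;> linarith
      · right; constructor <;> linarith
  refine (lintegral_mono_set h1).trans ?_
  refine (lintegral_union_le _ _ _).trans ?_
  gcongr
  exact lintegral_union_le _ _ _

lemma FF2_le (φ : X → ℝ≥0∞) (s : ℝ) (y : X) :
    FF φ s 2 y ≤ FF φ s 1 (u (-1) • y) + FF φ s 1 (u 1 • y) := by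
  rw [FF_u, FF_u]
  unfold FF
  have h1 : Icc (-2 : ℝ) 2 ⊆ Icc (-1 - 1) (-1 + 1) ∪ Icc (1 - 1) (1 + 1) := by
    intro t ht
    obtain ⟨h1, h2⟩ := ht
    rcases le_total t 0 with h | h
    · left; constructor <;> linarith
    · right; constructor <;> linarith
  refine (lintegral_mono_set h1).trans ?_
  exact lintegral_union_le _ _ _

lemma FF1_le (φ : X → ℝ≥0∞) (s : ℝ) (y : X) :
    FF φ s 1 y ≤ FF φ s (1 / 2) (u (-(1 / 2)) • y) + FF φ s (1 / 2) (u (1 / 2) • y) := by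
  rw [FF_u, FF_u]
  unfold FF
  have h1 : Icc (-1 : ℝ) 1 ⊆ Icc (-(1 / 2) - 1 / 2) (-(1 / 2) + 1 / 2) ∪
      Icc (1 / 2 - 1 / 2) (1 / 2 + 1 / 2) := by
    intro t ht
    obtain ⟨h1, h2⟩ := ht
    rcases le_total t 0 with h | h
    · left; constructor <;> linarith
    · right; constructor <;> linarith
  refine (lintegral_mono_set h1).trans ?_
  exact lintegral_union_le _ _ _

lemma int_FF3 {φ : X → ℝ≥0∞} (hφ : Measurable φ) (s : ℝ) :
    ∫⁻ x, FF φ s 3 x ^ 2 ∂μ ≤ 48 * f2 μ φ s := by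
  have hm := measurable_FF hφ s 1
  have hm2 : Measurable fun x => FF φ s 1 x ^ 2 := hm.pow_const 2
  calc ∫⁻ x, FF φ s 3 x ^ 2 ∂μ ≤ ∫⁻ x, 16 * (FF φ s 1 (u (-2) • x) ^ 2 + FF φ s 1 x ^ 2 +
        FF φ s 1 (u 2 • x) ^ 2) ∂μ := by
        refine lintegral_mono fun x => ?_
        refine le_trans ?_ (add_sq_le3 _ _ _)
        gcongr
        exact FF3_le φ s x
    _ = 16 * (f2 μ φ s + f2 μ φ s + f2 μ φ s) := by
        rw [lintegral_const_mul' _ _ (by simp), lintegral_add_right, lintegral_add_right,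
          lint_smul (u (-2)) hm2, lint_smul (u 2) hm2]
        · rfl
        · exact hm2
        · exact hm2.comp (measurable_const_smul (u 2))
    _ = 48 * f2 μ φ s := by ring

lemma int_FF2 {φ : X → ℝ≥0∞} (hφ : Measurable φ) (s : ℝ) :
    ∫⁻ x, FF φ s 2 x ^ 2 ∂μ ≤ 8 * f2 μ φ s := by
  have hm := measurable_FF hφ s 1
  have hm2 : Measurable fun x => FF φ s 1 x ^ 2 := hm.pow_const 2
  calc ∫⁻ x, FF φ s 2 x ^ 2 ∂μ ≤ ∫⁻ x, 4 * (FF φ s 1 (u (-1) • x) ^ 2 +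
        FF φ s 1 (u 1 • x) ^ 2) ∂μ := by
        refine lintegral_mono fun x => ?_
        refine le_trans ?_ (add_sq_le4 _ _)
        gcongr
        exact FF2_le φ s x
    _ = 4 * (f2 μ φ s + f2 μ φ s) := by
        rw [lintegral_const_mul' _ _ (by simp), lintegral_add_right,
          lint_smul (u (-1)) hm2, lint_smul (u 1) hm2]
        · rfl
        · exact hm2.comp (measurable_const_smul (u 1))
    _ = 8 * f2 μ φ s := by ring

lemma f2_le_half {φ : X → ℝ≥0∞} (hφ : Measurable φ) (s : ℝ) :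
    f2 μ φ s ≤ 8 * ∫⁻ x, FF φ s (1 / 2) x ^ 2 ∂μ := by
  have hm := measurable_FF hφ s (1 / 2)
  have hm2 : Measurable fun x => FF φ s (1 / 2) x ^ 2 := hm.pow_const 2
  unfold f2
  calc ∫⁻ x, FF φ s 1 x ^ 2 ∂μ ≤ ∫⁻ x, 4 * (FF φ s (1 / 2) (u (-(1 / 2)) • x) ^ 2 +
        FF φ s (1 / 2) (u (1 / 2) • x) ^ 2) ∂μ := by
        refine lintegral_mono fun x => ?_
        refine le_trans ?_ (add_sq_le4 _ _)
        gcongr
        exact FF1_le φ s x
    _ = 4 * (∫⁻ x, FF φ s (1 / 2) x ^ 2 ∂μ + ∫⁻ x, FF φ s (1 / 2) x ^ 2 ∂μ) := by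
        rw [lintegral_const_mul' _ _ (by simp), lintegral_add_right,
          lint_smul (u (-(1 / 2))) hm2, lint_smul (u (1 / 2)) hm2]
        exact hm2.comp (measurable_const_smul (u (1 / 2)))
    _ = 8 * ∫⁻ x, FF φ s (1 / 2) x ^ 2 ∂μ := by ring

/-- a symmetry of the space commuting with the action -/
structure Sym (μ : Measure X) (R : X → X) : Prop where
  mp : MeasurePreserving R μ μ
  comm : ∀ (g : G) (x : X), R (g • x) = g • R x

lemma J_step1 {φ : X → ℝ≥0∞} (hφ : Wt φ) {R : X → X} (hR : Sym μ R) (r : ℝ) :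
    ∫⁻ x, φ (R x) * FF φ (2 * r) 3 x ∂μ ≤
      12 * ∫⁻ x, φ (R (a (-r) • x)) * φ (a r • x) ∂μ := by
  have hm1 : Measurable fun x => φ (R x) := hφ.meas.comp hR.mp.measurable
  have hm2 := measurable_uncurry hφ.meas (measurable_au (2 * r))
  have h1 : ∫⁻ x, φ (R x) * FF φ (2 * r) 3 x ∂μ =
      ∫⁻ t in Icc (-3 : ℝ) 3, ∫⁻ x, φ (R x) * φ ((a (2 * r) * u t) • x) ∂μ := by
    rw [← swapK (μ := μ) (K := fun z => φ (R z.2) * φ ((a (2 * r) * u z.1) • z.2))
      ((hm1.comp measurable_snd).mul hm2) (Icc (-3 : ℝ) 3)]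
    refine lintegral_congr fun x => ?_
    simp only
    rw [lintegral_const_mul _ (measurable_orbit hφ.meas (measurable_au (2 * r)) x)]
    rfl
  rw [h1]
  have h2 : ∀ t ∈ Icc (-3 : ℝ) 3, ∫⁻ x, φ (R x) * φ ((a (2 * r) * u t) • x) ∂μ ≤
      2 * ∫⁻ x, φ (R (a (-r) • x)) * φ (a r • x) ∂μ := by
    intro t ht
    have hm3 : Measurable fun x => φ (R x) * φ ((a (2 * r) * u t) • x) :=
      hm1.mul (hφ.meas.comp (measurable_const_smul _))
    rw [← lint_smul (u (-t) * a (-r)) hm3, ← lintegral_const_mul' _ _ (by simp)]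
    refine lintegral_mono fun x => ?_
    have e1 : (a (2 * r) * u t) • (u (-t) * a (-r)) • x = a r • x := by
      rw [← mul_smul, mul_assoc, ← mul_assoc (u t), ← u_add, add_neg_cancel, u_zero, one_mul,
        ← a_add]
      congr 2; ring
    have e2 : R ((u (-t) * a (-r)) • x) = u (-t) • R (a (-r) • x) := by
      rw [mul_smul, hR.comm]
    rw [e1, e2, ← mul_assoc]
    gcongr
    refine hφ.smul_le _ _ ?_
    rw [q_u]
    obtain ⟨h3, h4⟩ := ht
    nlinarith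
  calc ∫⁻ t in Icc (-3 : ℝ) 3, ∫⁻ x, φ (R x) * φ ((a (2 * r) * u t) • x) ∂μ
      ≤ ∫⁻ t in Icc (-3 : ℝ) 3, 2 * ∫⁻ x, φ (R (a (-r) • x)) * φ (a r • x) ∂μ :=
        setLIntegral_mono' measurableSet_Icc h2
    _ = 12 * ∫⁻ x, φ (R (a (-r) • x)) * φ (a r • x) ∂μ := by
        rw [setLIntegral_const, Real.volume_Icc]
        have : ENNReal.ofReal (3 - -3) = 6 := by norm_num
        rw [this]; ring

lemma J_step2 {φ : X → ℝ≥0∞} (hφ : Wt φ) {R : X → X} (hR : Sym μ R) {r : ℝ} (hr : 0 ≤ r) :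
    ∫⁻ x, φ (R (a (-r) • x)) * φ (a r • x) ∂μ ≤
      ∫⁻ x, φ (R (a (-r) • x)) * FF φ r 1 x ∂μ := by
  have hm1 : Measurable fun x => φ (R x) := hφ.meas.comp hR.mp.measurable
  have hm1' : Measurable fun x => φ (R (a (-r) • x)) := hm1.comp (measurable_const_smul _)
  have hm3 : Measurable fun x => φ (R (a (-r) • x)) * φ (a r • x) :=
    hm1'.mul (hφ.meas.comp (measurable_const_smul _))
  have h1 := avg (μ := μ) continuous_u.measurable hm3 1
  have h2 : (2 : ℝ≥0∞) * ∫⁻ x, φ (R (a (-r) • x)) * φ (a r • x) ∂μ ≤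
      2 * ∫⁻ x, φ (R (a (-r) • x)) * FF φ r 1 x ∂μ := by
    have e : ENNReal.ofReal (2 * 1) = 2 := by norm_num
    rw [e] at h1
    rw [← h1, ← lintegral_const_mul' _ _ (by simp)]
    refine lintegral_mono fun x => ?_
    have hm2 : Measurable fun t : ℝ => φ ((a r * u t) • x) :=
      measurable_orbit hφ.meas (measurable_au r) x
    calc ∫⁻ t in Icc (-1 : ℝ) 1, φ (R (a (-r) • u t • x)) * φ (a r • u t • x)
        ≤ ∫⁻ t in Icc (-1 : ℝ) 1, (2 * φ (R (a (-r) • x))) * φ ((a r * u t) • x) := by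
          refine setLIntegral_mono' measurableSet_Icc fun t ht => ?_
          have e1 : a (-r) • u t • x = u (Real.exp (-r) * t) • a (-r) • x := by
            rw [← mul_smul, a_mul_u, mul_smul]
          rw [e1, hR.comm, mul_smul (a r)]
          gcongr
          refine hφ.smul_le _ _ ?_
          rw [q_u]
          have e2 : Real.exp (-r) ≤ 1 := Real.exp_le_one_iff.2 (by linarith)
          have e3 : 0 < Real.exp (-r) := Real.exp_pos _
          obtain ⟨h3, h4⟩ := ht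
          have e4 : t ^ 2 ≤ 1 := by nlinarith
          have e5 : Real.exp (-r) ^ 2 ≤ 1 := by nlinarith
          have e6 : (Real.exp (-r) * t) ^ 2 ≤ 1 := by
            rw [mul_pow]; nlinarith [sq_nonneg t]
          linarith
      _ = 2 * (φ (R (a (-r) • x)) * FF φ r 1 x) := by
          rw [lintegral_const_mul _ hm2, mul_assoc]
          rfl
  exact (ENNReal.mul_le_mul_iff_right (by simp) (by simp)).1 h2

lemma J_step3 {φ : X → ℝ≥0∞} (hφ : Wt φ) {R : X → X} (hR : Sym μ R) {r : ℝ} (hr : 0 ≤ r) :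
    ∫⁻ x, φ (R (a (-r) • x)) * FF φ r 1 x ∂μ ≤
      18 * ∫⁻ x, FF φ r 1 (R (w⁻¹ • x)) * FF φ r 3 x ∂μ := by
  have hm1 : Measurable fun x => φ (R x) := hφ.meas.comp hR.mp.measurable
  have hm1' : Measurable fun x => φ (R (a (-r) • x)) := hm1.comp (measurable_const_smul _)
  have hm3 : Measurable fun x => φ (R (a (-r) • x)) * FF φ r 1 x :=
    hm1'.mul (measurable_FF hφ.meas r 1)
  have h1 := avg (μ := μ) continuous_v.measurable hm3 (1 / 4)
  have e : ENNReal.ofReal (2 * (1 / 4)) = 2⁻¹ := by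
    rw [show (2 : ℝ) * (1 / 4) = 2⁻¹ by norm_num, ENNReal.ofReal_inv_of_pos (by norm_num)]
    norm_num
  rw [e] at h1
  have h9 : (2 : ℝ≥0∞) * ENNReal.ofReal (9 / 2) = 9 := by
    have : (2 : ℝ≥0∞) = ENNReal.ofReal 2 := by simp
    rw [this, ← ENNReal.ofReal_mul (by norm_num)]
    norm_num
  have h2 : (2⁻¹ : ℝ≥0∞) * ∫⁻ x, φ (R (a (-r) • x)) * FF φ r 1 x ∂μ ≤
      9 * ∫⁻ x, FF φ r 1 (R (w⁻¹ • x)) * FF φ r 3 x ∂μ := by
    rw [← h1, ← lintegral_const_mul' _ _ (by simp)]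
    refine lintegral_mono fun x => ?_
    obtain ⟨z, hz⟩ : ∃ z, z = R (w⁻¹ • x) := ⟨_, rfl⟩
    have hm2 : Measurable fun t : ℝ => φ ((a r * u t) • z) :=
      measurable_orbit hφ.meas (measurable_au r) z
    have hm4 : Measurable fun t : ℝ => φ ((a r * u (-t)) • z) := hm2.comp measurable_neg
    calc ∫⁻ t in Icc (-(1 / 4) : ℝ) (1 / 4), φ (R (a (-r) • v t • x)) * FF φ r 1 (v t • x)
        ≤ ∫⁻ t in Icc (-(1 / 4) : ℝ) (1 / 4), (9 * FF φ r 3 x) * φ ((a r * u (-t)) • z) := by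
          refine setLIntegral_mono' measurableSet_Icc fun t ht => ?_
          have e1 : R (a (-r) • v t • x) = w • (a r * u (-t)) • z := by
            rw [hz, ← hR.comm, ← hR.comm]
            congr 1
            rw [← mul_smul, ← mul_smul, ← mul_smul, a_neg_mul_v, mul_assoc]
          have e2 : φ (R (a (-r) • v t • x)) ≤ 2 * φ ((a r * u (-t)) • z) := by
            rw [e1]
            exact hφ.smul_le _ _ (by rw [q_w]; norm_num)
          have e3 : FF φ r 1 (v t • x) ≤ ENNReal.ofReal (9 / 2) * FF φ r 3 x :=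
            rough hφ hr (near_v (abs_le.2 ht)) x
          calc φ (R (a (-r) • v t • x)) * FF φ r 1 (v t • x)
              ≤ (2 * φ ((a r * u (-t)) • z)) * (ENNReal.ofReal (9 / 2) * FF φ r 3 x) := by
                gcongr
            _ = (2 * ENNReal.ofReal (9 / 2) * FF φ r 3 x) * φ ((a r * u (-t)) • z) := by ring
            _ = _ := by rw [h9]
      _ = (9 * FF φ r 3 x) * ∫⁻ t in Icc (-(1 / 4) : ℝ) (1 / 4), φ ((a r * u (-t)) • z) := by
          rw [lintegral_const_mul _ hm4]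
      _ ≤ (9 * FF φ r 3 x) * ∫⁻ t in Icc (-1 : ℝ) 1, φ ((a r * u (-t)) • z) := by
          gcongr
          · norm_num
          · norm_num
      _ = (9 * FF φ r 3 x) * FF φ r 1 z := by
          congr 1
          unfold FF
          rw [← lintegral_indicator measurableSet_Icc, ← lintegral_indicator measurableSet_Icc]
          have e5 := (Measure.measurePreserving_neg (volume : Measure ℝ)).lintegral_comp
            (f := fun t => (Icc (-1 : ℝ) 1).indicator (fun t => φ ((a r * u t) • z)) t)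
            (hm2.indicator measurableSet_Icc)
          rw [← e5]
          refine lintegral_congr fun t => ?_
          by_cases ht : t ∈ Icc (-1 : ℝ) 1
          · have ht' : -t ∈ Icc (-1 : ℝ) 1 := ⟨by linarith [ht.2], by linarith [ht.1]⟩
            rw [indicator_of_mem ht, indicator_of_mem ht']
          · have ht' : -t ∉ Icc (-1 : ℝ) 1 := fun hc =>
              ht ⟨by linarith [hc.2], by linarith [hc.1]⟩
            rw [indicator_of_notMem ht, indicator_of_notMem ht']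
      _ = 9 * (FF φ r 1 (R (w⁻¹ • x)) * FF φ r 3 x) := by rw [hz]; ring
  calc ∫⁻ x, φ (R (a (-r) • x)) * FF φ r 1 x ∂μ
      = 2 * (2⁻¹ * ∫⁻ x, φ (R (a (-r) • x)) * FF φ r 1 x ∂μ) := by
        rw [← mul_assoc, ENNReal.mul_inv_cancel (by simp) (by simp), one_mul]
    _ ≤ 2 * (9 * ∫⁻ x, FF φ r 1 (R (w⁻¹ • x)) * FF φ r 3 x ∂μ) := cm _ h2
    _ = 18 * ∫⁻ x, FF φ r 1 (R (w⁻¹ • x)) * FF φ r 3 x ∂μ := by ring

lemma J_step4 {φ : X → ℝ≥0∞} (hφ : Wt φ) {R : X → X} (hR : Sym μ R) (r : ℝ) :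
    ∫⁻ x, FF φ r 1 (R (w⁻¹ • x)) * FF φ r 3 x ∂μ ≤ 49 * f2 μ φ r := by
  have hm := measurable_FF hφ.meas r 1
  have hm2 : Measurable fun x => FF φ r 1 x ^ 2 := hm.pow_const 2
  have hm3 : Measurable fun x => FF φ r 3 x ^ 2 := (measurable_FF hφ.meas r 3).pow_const 2
  calc ∫⁻ x, FF φ r 1 (R (w⁻¹ • x)) * FF φ r 3 x ∂μ
      ≤ ∫⁻ x, (FF φ r 1 (R (w⁻¹ • x)) ^ 2 + FF φ r 3 x ^ 2) ∂μ :=
        lintegral_mono fun x => mul_le_sq_add_sq _ _
    _ = ∫⁻ x, FF φ r 1 (R (w⁻¹ • x)) ^ 2 ∂μ + ∫⁻ x, FF φ r 3 x ^ 2 ∂μ :=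
        lintegral_add_right _ hm3
    _ = f2 μ φ r + ∫⁻ x, FF φ r 3 x ^ 2 ∂μ := by
        congr 1
        have e1 := lint_smul (μ := μ) w⁻¹ (hm2.comp hR.mp.measurable)
        have e2 := hR.mp.lintegral_comp hm2
        unfold f2
        rw [← e2]
        exact e1
    _ ≤ f2 μ φ r + 48 * f2 μ φ r := by gcongr; exact int_FF3 hφ.meas r
    _ = 49 * f2 μ φ r := by ring

/-- the key bound -/
theorem J_bound {φ : X → ℝ≥0∞} (hφ : Wt φ) {R : X → X} (hR : Sym μ R) {r : ℝ} (hr : 0 ≤ r) :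
    ∫⁻ x, φ (R x) * FF φ (2 * r) 3 x ∂μ ≤ 10584 * f2 μ φ r := by
  calc ∫⁻ x, φ (R x) * FF φ (2 * r) 3 x ∂μ
      ≤ 12 * ∫⁻ x, φ (R (a (-r) • x)) * φ (a r • x) ∂μ := J_step1 hφ hR r
    _ ≤ 12 * ∫⁻ x, φ (R (a (-r) • x)) * FF φ r 1 x ∂μ := cm _ (J_step2 hφ hR hr)
    _ ≤ 12 * (18 * ∫⁻ x, FF φ r 1 (R (w⁻¹ • x)) * FF φ r 3 x ∂μ) := cm _ (J_step3 hφ hR hr)
    _ ≤ 12 * (18 * (49 * f2 μ φ r)) := cm _ (cm _ (J_step4 hφ hR r))
    _ = 10584 * f2 μ φ r := by ring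

lemma measurableSet_near : MeasurableSet {h : G | Near h} := by
  have e : ∀ i j, Measurable fun g : G => g i j := fun i j => (continuous_entry i j).measurable
  have h1 : MeasurableSet {h : G | |h 0 0 - 1| ≤ 1 / 4} :=
    measurableSet_le ((e 0 0).sub_const 1).abs measurable_const
  have h2 : MeasurableSet {h : G | |h 0 1| ≤ 1 / 4} :=
    measurableSet_le (e 0 1).abs measurable_const
  have h3 : MeasurableSet {h : G | |h 1 0| ≤ 1 / 4} :=
    measurableSet_le (e 1 0).abs measurable_const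
  have h4 : MeasurableSet {h : G | |h 1 1 - 1| ≤ 1 / 4} :=
    measurableSet_le ((e 1 1).sub_const 1).abs measurable_const
  exact h1.inter (h2.inter (h3.inter h4))

/-- the supremum bound -/
theorem sup_bound {φ : X → ℝ≥0∞} (hφ : Wt φ) {ν : Measure G} {N : ℝ≥0∞} {y : X}
    (hloc : ∀ Ψ : X → ℝ≥0∞, Measurable Ψ →
      ∫⁻ h in {h : G | Near h}, Ψ (h • y) ∂ν ≤ N * ∫⁻ x, Ψ x ∂μ)
    {R : X → X} (hR : Sym μ R) (hy : 2⁻¹ ≤ φ (R y)) {r : ℝ} (hr : 0 ≤ r) :
    ν {h : G | Near h} * FF φ (2 * r) 1 y ≤ N * (190512 * f2 μ φ r) := by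
  have hm1 : Measurable fun x => φ (R x) := hφ.meas.comp hR.mp.measurable
  have hm2 : Measurable fun x => 18 * (φ (R x) * FF φ (2 * r) 3 x) :=
    (hm1.mul (measurable_FF hφ.meas (2 * r) 3)).const_mul 18
  have h18 : (4 : ℝ≥0∞) * ENNReal.ofReal (9 / 2) = 18 := by
    have : (4 : ℝ≥0∞) = ENNReal.ofReal 4 := by simp
    rw [this, ← ENNReal.ofReal_mul (by norm_num)]
    norm_num
  calc ν {h : G | Near h} * FF φ (2 * r) 1 y
      = ∫⁻ _h in {h : G | Near h}, FF φ (2 * r) 1 y ∂ν := by rw [setLIntegral_const, mul_comm]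
    _ ≤ ∫⁻ h in {h : G | Near h}, 18 * (φ (R (h • y)) * FF φ (2 * r) 3 (h • y)) ∂ν := by
        refine setLIntegral_mono' measurableSet_near fun h hh => ?_
        have e1 : FF φ (2 * r) 1 y ≤ ENNReal.ofReal (9 / 2) * FF φ (2 * r) 3 (h • y) := by
          have := rough hφ (s := 2 * r) (by linarith) (Near.inv hh) (h • y)
          rwa [inv_smul_smul] at this
        have e2 : 1 ≤ 4 * φ (R (h • y)) := by
          have e3 : φ (R y) ≤ 2 * φ (R (h • y)) := by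
            have := hφ.smul_le h⁻¹ (R (h • y)) (by rw [q_inv]; exact Near.q_le hh)
            rwa [← hR.comm, inv_smul_smul] at this
          calc (1 : ℝ≥0∞) = 2 * 2⁻¹ := (ENNReal.mul_inv_cancel (by simp) (by simp)).symm
            _ ≤ 2 * φ (R y) := by gcongr
            _ ≤ 2 * (2 * φ (R (h • y))) := by gcongr
            _ = 4 * φ (R (h • y)) := by ring
        calc FF φ (2 * r) 1 y ≤ 1 * (ENNReal.ofReal (9 / 2) * FF φ (2 * r) 3 (h • y)) := by
              rw [one_mul]; exact e1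
          _ ≤ (4 * φ (R (h • y))) * (ENNReal.ofReal (9 / 2) * FF φ (2 * r) 3 (h • y)) := by
              gcongr
          _ = (4 * ENNReal.ofReal (9 / 2)) * (φ (R (h • y)) * FF φ (2 * r) 3 (h • y)) := by ring
          _ = _ := by rw [h18]
    _ ≤ N * ∫⁻ x, 18 * (φ (R x) * FF φ (2 * r) 3 x) ∂μ := hloc _ hm2
    _ = N * (18 * ∫⁻ x, φ (R x) * FF φ (2 * r) 3 x ∂μ) := by
        rw [lintegral_const_mul' _ _ (by simp)]
    _ ≤ N * (18 * (10584 * f2 μ φ r)) := cm _ (cm _ (J_bound hφ hR hr))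
    _ = N * (190512 * f2 μ φ r) := by ring

end

end Pool.Agent.E8helper85.NS
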