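import Pool.Agent.E8helper85.NS.Mom2

/-!
# Second moment bounds: ergodic integrals
-/

set_option autoImplicit false

open MeasureTheory Filter Topology Set
open scoped ENNReal NNReal

namespace Pool.Agent.E8helper85.NS

lemma scale_lint {g : ℝ → ℝ≥0∞} (hg : Measurable g) {c : ℝ} (hc : c ≠ 0) :
    ∫⁻ t, g (c * t) = ENNReal.ofReal |c⁻¹| * ∫⁻ t, g t := by
  have h2 : ∫⁻ t, g (c * t) = ∫⁻ t, g t ∂(Measure.map (fun t => c * t) volume) := by
    rw [lintegral_map hg (by fun_prop)]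
  rw [h2, Real.map_volume_mul_left hc, lintegral_smul_measure, smul_eq_mul]

section

variable {X : Type*} [MeasurableSpace X] [MulAction G X] [MeasurableSMul₂ G X]
  {μ : Measure X} [SFinite μ] [SMulInvariantMeasure G X μ]

/-- ergodic integrals -/
noncomputable def KK (φ : X → ℝ≥0∞) (T : ℝ) (x : X) : ℝ≥0∞ :=
  ∫⁻ t in Icc (-T) T, φ (u t • x)

omit [SFinite μ] [SMulInvariantMeasure G X μ] in
lemma measurable_KK {φ : X → ℝ≥0∞} (hφ : Measurable φ) (T : ℝ) : Measurable (KK φ T) := by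
  unfold KK
  exact (measurable_uncurry hφ continuous_u.measurable).lintegral_prod_left'
    (μ := volume.restrict (Icc (-T) T))

lemma KK_a {φ : X → ℝ≥0∞} (hφ : Measurable φ) (s : ℝ) (y : X) :
    KK φ (Real.exp s) (a s • y) = ENNReal.ofReal (Real.exp s) * FF φ s 1 y := by
  have hm := measurable_orbit hφ (measurable_au s) y
  have h1 : ∀ t, φ (u t • a s • y) = φ ((a s * u (Real.exp (-s) * t)) • y) := by
    intro t
    rw [← mul_smul, a_mul_u, ← mul_assoc, ← Real.exp_add, add_neg_cancel, Real.exp_zero, one_mul]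
  have h2 := scale_lint (g := (Icc (-1 : ℝ) 1).indicator fun t => φ ((a s * u t) • y))
    (hm.indicator measurableSet_Icc) (Real.exp_ne_zero (-s))
  have h3 : |(Real.exp (-s))⁻¹| = Real.exp s := by
    rw [Real.exp_neg, inv_inv, abs_of_pos (Real.exp_pos _)]
  rw [h3] at h2
  unfold KK FF
  rw [← lintegral_indicator measurableSet_Icc, ← lintegral_indicator measurableSet_Icc, ← h2]
  refine lintegral_congr fun t => ?_
  have h4 : Real.exp (-s) * Real.exp s = 1 := by rw [← Real.exp_add]; simp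
  have h5 : 0 < Real.exp (-s) := Real.exp_pos _
  by_cases ht : t ∈ Icc (-Real.exp s) (Real.exp s)
  · have ht' : Real.exp (-s) * t ∈ Icc (-1 : ℝ) 1 := by
      obtain ⟨e1, e2⟩ := ht
      constructor <;> nlinarith
    rw [indicator_of_mem ht, indicator_of_mem ht', h1]
  · have ht' : Real.exp (-s) * t ∉ Icc (-1 : ℝ) 1 := by
      intro hc
      apply ht
      obtain ⟨e1, e2⟩ := hc
      have h6 : 0 < Real.exp s := Real.exp_pos _
      have h7 : t = Real.exp s * (Real.exp (-s) * t) := by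
        rw [← mul_assoc, mul_comm (Real.exp s), h4, one_mul]
      constructor <;> nlinarith
    rw [indicator_of_notMem ht, indicator_of_notMem ht']

lemma FF_u_le (φ : X → ℝ≥0∞) (s : ℝ) {b c d : ℝ} (h : |c| + b ≤ d) (y : X) :
    FF φ s b (u c • y) ≤ FF φ s d y := by
  rw [FF_u]
  unfold FF
  have h1 := abs_le.1 (le_refl |c|)
  exact lintegral_mono_set (Icc_subset_Icc (by linarith [h1.1]) (by linarith [h1.2]))

lemma K2_aux {φ : X → ℝ≥0∞} (hφ : Measurable φ) (s : ℝ) :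
    2 * ∫⁻ y, φ (a s • y) * FF φ s 1 y ^ 2 ∂μ ≤ ∫⁻ y, FF φ s 1 y * FF φ s 2 y ^ 2 ∂μ := by
  have hm : Measurable fun y => φ (a s • y) * FF φ s 1 y ^ 2 :=
    (hφ.comp (measurable_const_smul _)).mul ((measurable_FF hφ s 1).pow_const 2)
  have h1 := avg (μ := μ) continuous_u.measurable hm 1
  have e : ENNReal.ofReal (2 * 1) = 2 := by norm_num
  rw [e] at h1
  rw [← h1]
  refine lintegral_mono fun y => ?_
  calc ∫⁻ t in Icc (-1 : ℝ) 1, φ (a s • u t • y) * FF φ s 1 (u t • y) ^ 2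
      ≤ ∫⁻ t in Icc (-1 : ℝ) 1, φ ((a s * u t) • y) * FF φ s 2 y ^ 2 := by
        refine setLIntegral_mono' measurableSet_Icc fun t ht => ?_
        rw [mul_smul]
        have : FF φ s 1 (u t • y) ≤ FF φ s 2 y :=
          FF_u_le φ s (by have := abs_le.2 ht; linarith) y
        gcongr
    _ = FF φ s 1 y * FF φ s 2 y ^ 2 := by
        rw [lintegral_mul_const _ (measurable_orbit hφ (measurable_au s) y)]
        rfl

lemma K2_bound {φ : X → ℝ≥0∞} (hφ : Measurable φ) (s : ℝ) {S : ℝ≥0∞}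
    (hS : ∀ y, FF φ s 1 y ≤ S) :
    ∫⁻ x, φ x * KK φ (Real.exp s) x ^ 2 ∂μ ≤
      4 * (ENNReal.ofReal (Real.exp s) ^ 2 * (S * f2 μ φ s)) := by
  have hm : Measurable fun x => φ x * KK φ (Real.exp s) x ^ 2 :=
    hφ.mul ((measurable_KK hφ _).pow_const 2)
  have hm2 : Measurable fun x => FF φ s 2 x ^ 2 := (measurable_FF hφ s 2).pow_const 2
  have h1 : ∫⁻ y, φ (a s • y) * FF φ s 1 y ^ 2 ∂μ ≤ 4 * (S * f2 μ φ s) := by
    have h2 : 2 * ∫⁻ y, φ (a s • y) * FF φ s 1 y ^ 2 ∂μ ≤ 2 * (4 * (S * f2 μ φ s)) := by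
      calc 2 * ∫⁻ y, φ (a s • y) * FF φ s 1 y ^ 2 ∂μ
          ≤ ∫⁻ y, FF φ s 1 y * FF φ s 2 y ^ 2 ∂μ := K2_aux hφ s
        _ ≤ ∫⁻ y, S * FF φ s 2 y ^ 2 ∂μ := by
            refine lintegral_mono fun y => ?_
            have := hS y
            gcongr
        _ = S * ∫⁻ y, FF φ s 2 y ^ 2 ∂μ := lintegral_const_mul _ hm2
        _ ≤ S * (8 * f2 μ φ s) := cm _ (int_FF2 hφ s)
        _ = 2 * (4 * (S * f2 μ φ s)) := by ring
    exact (ENNReal.mul_le_mul_iff_right (by simp) (by simp)).1 h2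
  calc ∫⁻ x, φ x * KK φ (Real.exp s) x ^ 2 ∂μ
      = ∫⁻ y, φ (a s • y) * KK φ (Real.exp s) (a s • y) ^ 2 ∂μ := (lint_smul (a s) hm).symm
    _ = ∫⁻ y, ENNReal.ofReal (Real.exp s) ^ 2 * (φ (a s • y) * FF φ s 1 y ^ 2) ∂μ := by
        refine lintegral_congr fun y => ?_
        rw [KK_a hφ]; ring
    _ = ENNReal.ofReal (Real.exp s) ^ 2 * ∫⁻ y, φ (a s • y) * FF φ s 1 y ^ 2 ∂μ := by
        rw [lintegral_const_mul]
        exact (hφ.comp (measurable_const_smul _)).mul ((measurable_FF hφ s 1).pow_const 2)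
    _ ≤ ENNReal.ofReal (Real.exp s) ^ 2 * (4 * (S * f2 μ φ s)) := cm _ h1
    _ = 4 * (ENNReal.ofReal (Real.exp s) ^ 2 * (S * f2 μ φ s)) := by ring

lemma K1_aux {φ : X → ℝ≥0∞} (hφ : Measurable φ) (s : ℝ) :
    ∫⁻ x, FF φ s (1 / 2) x ^ 2 ∂μ ≤ ∫⁻ y, φ (a s • y) * FF φ s 1 y ∂μ := by
  have hmh := measurable_FF hφ s (1 / 2)
  have h1 : ∫⁻ x, FF φ s (1 / 2) x ^ 2 ∂μ =
      ∫⁻ t in Icc (-(1 / 2) : ℝ) (1 / 2), ∫⁻ x, FF φ s (1 / 2) x * φ ((a s * u t) • x) ∂μ := by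
    rw [← swapK (μ := μ) (K := fun z => FF φ s (1 / 2) z.2 * φ ((a s * u z.1) • z.2))
      ((hmh.comp measurable_snd).mul (measurable_uncurry hφ (measurable_au s)))
      (Icc (-(1 / 2) : ℝ) (1 / 2))]
    refine lintegral_congr fun x => ?_
    simp only
    rw [lintegral_const_mul _ (measurable_orbit hφ (measurable_au s) x), sq]
    rfl
  rw [h1]
  have h2 : ∀ t ∈ Icc (-(1 / 2) : ℝ) (1 / 2),
      ∫⁻ x, FF φ s (1 / 2) x * φ ((a s * u t) • x) ∂μ ≤ ∫⁻ y, φ (a s • y) * FF φ s 1 y ∂μ := by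
    intro t ht
    have hm3 : Measurable fun x => FF φ s (1 / 2) x * φ ((a s * u t) • x) :=
      hmh.mul (hφ.comp (measurable_const_smul _))
    rw [← lint_smul (u (-t)) hm3]
    refine lintegral_mono fun y => ?_
    have e1 : (a s * u t) • u (-t) • y = a s • y := by
      rw [← mul_smul, mul_assoc, ← u_add, add_neg_cancel, u_zero, mul_one]
    rw [e1, mul_comm]
    have : FF φ s (1 / 2) (u (-t) • y) ≤ FF φ s 1 y :=
      FF_u_le φ s (by rw [abs_neg]; have := abs_le.2 ht; linarith) y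
    gcongr
  refine (setLIntegral_mono' measurableSet_Icc h2).trans ?_
  rw [setLIntegral_const, Real.volume_Icc]
  norm_num

lemma K1_bound {φ : X → ℝ≥0∞} (hφ : Measurable φ) (s : ℝ) :
    ENNReal.ofReal (Real.exp s) * f2 μ φ s ≤ 8 * ∫⁻ x, φ x * KK φ (Real.exp s) x ∂μ := by
  have hm : Measurable fun x => φ x * KK φ (Real.exp s) x := hφ.mul (measurable_KK hφ _)
  have h1 : ∫⁻ x, φ x * KK φ (Real.exp s) x ∂μ =
      ENNReal.ofReal (Real.exp s) * ∫⁻ y, φ (a s • y) * FF φ s 1 y ∂μ := by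
    have hm' : Measurable fun y => φ (a s • y) * FF φ s 1 y :=
      (hφ.comp (measurable_const_smul _)).mul (measurable_FF hφ s 1)
    rw [← lint_smul (a s) hm, ← lintegral_const_mul _ hm']
    refine lintegral_congr fun y => ?_
    rw [KK_a hφ]
    ring
  rw [h1]
  calc ENNReal.ofReal (Real.exp s) * f2 μ φ s
      ≤ ENNReal.ofReal (Real.exp s) * (8 * ∫⁻ x, FF φ s (1 / 2) x ^ 2 ∂μ) :=
        cm _ (f2_le_half hφ s)
    _ ≤ ENNReal.ofReal (Real.exp s) * (8 * ∫⁻ y, φ (a s • y) * FF φ s 1 y ∂μ) :=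
        cm _ (cm _ (K1_aux hφ s))
    _ = 8 * (ENNReal.ofReal (Real.exp s) * ∫⁻ y, φ (a s • y) * FF φ s 1 y ∂μ) := by ring

/-- Cauchy–Schwarz -/
lemma cs {f : X → ℝ≥0∞} (hf : Measurable f) {E : Set X} (hE : MeasurableSet E)
    (hfE : ∀ x, x ∉ E → f x = 0) : (∫⁻ x, f x ∂μ) ^ 2 ≤ (∫⁻ x, f x ^ 2 ∂μ) * μ E := by
  have h1 := ENNReal.lintegral_mul_le_Lp_mul_Lq μ (p := 2) (q := 2)
    (by constructor <;> norm_num) hf.aemeasurable
    (measurable_one.indicator hE : Measurable (E.indicator (1 : X → ℝ≥0∞))).aemeasurable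
  have h2 : (f * E.indicator (1 : X → ℝ≥0∞)) = f := by
    funext x
    by_cases hx : x ∈ E
    · simp [hx]
    · simp [hx, hfE x hx]
  rw [h2] at h1
  have h3 : ∫⁻ x, E.indicator (1 : X → ℝ≥0∞) x ^ (2 : ℝ) ∂μ = μ E := by
    rw [← lintegral_indicator_one hE]
    refine lintegral_congr fun x => ?_
    by_cases hx : x ∈ E <;> simp [hx]
  rw [h3] at h1
  have h4 : ∀ z : ℝ≥0∞, (z ^ (1 / 2 : ℝ)) ^ 2 = z := by
    intro z
    rw [← ENNReal.rpow_natCast, ← ENNReal.rpow_mul]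
    norm_num
  calc (∫⁻ x, f x ∂μ) ^ 2 ≤ ((∫⁻ x, f x ^ (2 : ℝ) ∂μ) ^ (1 / 2 : ℝ) * (μ E) ^ (1 / 2 : ℝ)) ^ 2 := by
        gcongr
    _ = (∫⁻ x, f x ^ 2 ∂μ) * μ E := by
        rw [mul_pow, h4, h4]
        congr 1
        refine lintegral_congr fun x => ?_
        rw [← ENNReal.rpow_natCast]
        norm_num

/-- lower bound for the second moment -/
lemma f2_lower {φ : X → ℝ≥0∞} (hφ : Measurable φ) {A : ℕ → Set X} (hA : ∀ n, MeasurableSet (A n))
    (hstep : ∀ n (b : G) (x : X), q b ≤ 11 → x ∈ A n → b • x ∈ A (n + 1))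
    (h0 : ∀ x ∈ A 0, 2⁻¹ ≤ φ x) (n : ℕ) :
    μ (A 0) ^ 2 ≤ f2 μ φ n * μ (A (n + 1)) := by
  set F0 : X → ℝ≥0∞ := FF ((A 0).indicator 1) n 1 with hF0
  have hm0 : Measurable ((A 0).indicator (1 : X → ℝ≥0∞)) := measurable_one.indicator (hA 0)
  have hmF : Measurable F0 := measurable_FF hm0 n 1
  have hint : ∫⁻ x, F0 x ∂μ = 2 * μ (A 0) := by
    have h1 := avg (μ := μ) continuous_u.measurable
      (hm0.comp (measurable_const_smul (a n))) 1
    have e : ENNReal.ofReal (2 * 1) = 2 := by norm_num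
    rw [e] at h1
    simp only [Function.comp_apply] at h1
    rw [lint_smul (a n) hm0, lintegral_indicator_one (hA 0)] at h1
    rw [← h1]
    simp only [hF0]
    unfold FF
    simp_rw [mul_smul]
  have hpow : ∀ (m : ℕ) (x : X), x ∈ A 0 → a (-m) • x ∈ A m := by
    intro m
    induction m with
    | zero => intro x hx; simpa [a_zero] using hx
    | succ m ih =>
      intro x hx
      have e1 : a (-((m + 1 : ℕ) : ℝ)) = a (-1) * a (-m) := by
        rw [← a_add]; congr 1; push_cast; ring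
      rw [e1, mul_smul]
      refine hstep m _ _ ?_ (ih x hx)
      rw [q_a, neg_neg]
      have h1 : Real.exp (-1) ≤ 1 := Real.exp_le_one_iff.2 (by norm_num)
      have h2 : Real.exp 1 < 2.7182818286 := Real.exp_one_lt_d9
      linarith
  have hsupp : ∀ x, x ∉ A (n + 1) → F0 x = 0 := by
    intro x hx
    simp only [hF0]
    unfold FF
    rw [setLIntegral_eq_zero_iff measurableSet_Icc
      (measurable_orbit hm0 (measurable_au n) x)]
    refine Eventually.of_forall fun t ht => ?_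
    refine indicator_of_notMem (fun hcon => hx ?_) _
    have e1 : x = u (-t) • a (-(n : ℝ)) • (a n * u t) • x := by
      rw [← mul_smul, ← mul_smul]
      have : u (-t) * a (-(n : ℝ)) * (a n * u t) = 1 := by
        rw [u_neg, a_neg]; group
      rw [this, one_smul]
    rw [e1]
    refine hstep n _ _ ?_ (hpow n _ hcon)
    rw [q_u]
    obtain ⟨h1, h2⟩ := ht
    nlinarith
  have hcs := cs (μ := μ) hmF (hA (n + 1)) hsupp
  have hle : ∫⁻ x, F0 x ^ 2 ∂μ ≤ 4 * f2 μ φ n := by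
    unfold f2
    rw [← lintegral_const_mul _ ((measurable_FF hφ n 1).pow_const 2)]
    refine lintegral_mono fun x => ?_
    have h1 : F0 x ≤ 2 * FF φ n 1 x := by
      simp only [hF0]
      unfold FF
      rw [← lintegral_const_mul _ (measurable_orbit hφ (measurable_au n) x)]
      refine lintegral_mono fun t => ?_
      by_cases hx : (a n * u t) • x ∈ A 0
      · rw [indicator_of_mem hx, Pi.one_apply]
        calc (1 : ℝ≥0∞) = 2 * 2⁻¹ := (ENNReal.mul_inv_cancel (by simp) (by simp)).symm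
          _ ≤ 2 * φ ((a n * u t) • x) := cm _ (h0 _ hx)
      · rw [indicator_of_notMem hx]; exact bot_le
    calc F0 x ^ 2 ≤ (2 * FF φ n 1 x) ^ 2 := by gcongr
      _ = 4 * FF φ n 1 x ^ 2 := by ring
  rw [hint] at hcs
  have h5 : 4 * μ (A 0) ^ 2 ≤ 4 * (f2 μ φ n * μ (A (n + 1))) := by
    calc 4 * μ (A 0) ^ 2 = (2 * μ (A 0)) ^ 2 := by ring
      _ ≤ (∫⁻ x, F0 x ^ 2 ∂μ) * μ (A (n + 1)) := hcs
      _ ≤ (4 * f2 μ φ n) * μ (A (n + 1)) := by gcongr
      _ = 4 * (f2 μ φ n * μ (A (n + 1))) := by ring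
  exact (ENNReal.mul_le_mul_iff_right (by simp) (by simp)).1 h5

lemma f2_upper {φ : X → ℝ≥0∞} (hφ : Wt φ) (s : ℝ) : f2 μ φ s ≤ 4 * ∫⁻ x, φ x ∂μ := by
  have h1 := avg (μ := μ) continuous_u.measurable
    (hφ.meas.comp (measurable_const_smul (a s))) 1
  have e : ENNReal.ofReal (2 * 1) = 2 := by norm_num
  rw [e] at h1
  simp only [Function.comp_apply] at h1
  rw [lint_smul (a s) hφ.meas] at h1
  have h2 : ∀ x, FF φ s 1 x ≤ 2 := by
    intro x
    unfold FF
    calc ∫⁻ t in Icc (-1 : ℝ) 1, φ ((a s * u t) • x) ≤ ∫⁻ _t in Icc (-1 : ℝ) 1, 1 :=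
          lintegral_mono fun t => hφ.le_one _
      _ = 2 := by
          rw [setLIntegral_const, Real.volume_Icc]; norm_num
  unfold f2
  calc ∫⁻ x, FF φ s 1 x ^ 2 ∂μ ≤ ∫⁻ x, 2 * FF φ s 1 x ∂μ := by
        refine lintegral_mono fun x => ?_
        rw [sq]
        have := h2 x
        gcongr
    _ = 2 * ∫⁻ x, FF φ s 1 x ∂μ := lintegral_const_mul _ (measurable_FF hφ.meas s 1)
    _ = 2 * (2 * ∫⁻ x, φ x ∂μ) := by
        rw [← h1]
        unfold FF
        simp_rw [mul_smul]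
    _ = 4 * ∫⁻ x, φ x ∂μ := by ring

end

end Pool.Agent.E8helper85.NS
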