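import Pool.Agent.E8helper85.NS.Mom3

/-!
# Second moment bounds: conclusion
-/

set_option autoImplicit false

open MeasureTheory Filter Topology Set
open scoped ENNReal NNReal

namespace Pool.Agent.E8helper85.NS

lemma seq_lemma (b : ℕ → ℝ) {c : ℝ} (hc : 0 < c) (κ : ℕ)
    (hb : ∀ k, c ≤ b k * (2 ^ k) ^ κ) (K : ℕ) : ∃ k ≥ K, b k ≤ 2 ^ (κ + 1) * b (k + 1) := by
  by_contra hcon
  push Not at hcon
  have h1 : ∀ j, (2 ^ (κ + 1)) ^ j * b (K + j) ≤ b K := by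
    intro j
    induction j with
    | zero => simp
    | succ j ih =>
      have h2 := hcon (K + j) (Nat.le_add_right _ _)
      calc ((2 : ℝ) ^ (κ + 1)) ^ (j + 1) * b (K + (j + 1))
          = (2 ^ (κ + 1)) ^ j * (2 ^ (κ + 1) * b (K + j + 1)) := by rw [pow_succ]; ring_nf
        _ ≤ (2 ^ (κ + 1)) ^ j * b (K + j) := by
            refine mul_le_mul_of_nonneg_left h2.le (by positivity)
        _ ≤ b K := ih
  have h2 : ∀ j : ℕ, c * 2 ^ j ≤ b K * (2 ^ K) ^ κ := by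
    intro j
    calc c * 2 ^ j ≤ (b (K + j) * (2 ^ (K + j)) ^ κ) * 2 ^ j := by
          refine mul_le_mul_of_nonneg_right (hb _) (by positivity)
      _ = ((2 ^ (κ + 1)) ^ j * b (K + j)) * (2 ^ K) ^ κ := by
          rw [pow_add, mul_pow, pow_succ 2 κ, mul_pow, ← pow_mul, ← pow_mul, ← pow_mul,
            mul_comm κ j]
          ring
      _ ≤ b K * (2 ^ K) ^ κ := mul_le_mul_of_nonneg_right (h1 j) (by positivity)
  obtain ⟨j, hj⟩ := pow_unbounded_of_one_lt (b K * (2 ^ K) ^ κ / c) (one_lt_two : (1 : ℝ) < 2)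
  have h3 := h2 j
  rw [div_lt_iff₀ hc] at hj
  linarith

section

variable {X : Type*} [MeasurableSpace X] [MulAction G X] [MeasurableSMul₂ G X]
  {μ : Measure X} [SFinite μ] [SMulInvariantMeasure G X μ]

theorem moment {φ : X → ℝ≥0∞} (hφ : Wt φ) {A : ℕ → Set X} (hA : ∀ n, MeasurableSet (A n))
    (hstep : ∀ n (b : G) (x : X), q b ≤ 11 → x ∈ A n → b • x ∈ A (n + 1))
    (h0 : ∀ x ∈ A 0, 2⁻¹ ≤ φ x) (hint : ∫⁻ x, φ x ∂μ ≠ ∞) (hA0 : μ (A 0) ≠ 0)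
    {Cg : ℝ≥0∞} (hCg : Cg ≠ ∞) {κ : ℕ} (hgrow : ∀ n : ℕ, μ (A n) ≤ Cg * ((n : ℝ≥0∞) + 1) ^ κ)
    {C2 : ℝ≥0∞} (hC2 : C2 ≠ ∞) (hsup : ∀ r : ℝ, 0 ≤ r → ∀ y, FF φ (2 * r) 1 y ≤ C2 * f2 μ φ r) :
    ∃ C : ℝ≥0∞, C ≠ ∞ ∧ ∃ T : ℕ → ℝ, (∀ n, 0 < T n) ∧
      (∀ n, ∫⁻ x, φ x * KK φ (T n) x ^ 2 ∂μ ≤ C * (∫⁻ x, φ x * KK φ (T n) x ∂μ) ^ 2) ∧
      Tendsto (fun n => ∫⁻ x, φ x * KK φ (T n) x ∂μ) atTop (𝓝 ∞) := by
  have hfin : ∀ s, f2 μ φ s ≠ ∞ := fun s =>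
    ne_top_of_le_ne_top (ENNReal.mul_ne_top (by simp) hint) (f2_upper hφ s)
  have hCg0 : Cg ≠ 0 := by
    rintro rfl
    have := hgrow 0
    rw [zero_mul, nonpos_iff_eq_zero] at this
    exact hA0 this
  have hA0' : μ (A 0) ≠ ∞ := by
    refine ne_top_of_le_ne_top ?_ (hgrow 0)
    exact ENNReal.mul_ne_top hCg (by simp)
  obtain ⟨b, hbdef⟩ : ∃ b : ℕ → ℝ, b = fun k => (f2 μ φ ((2 : ℝ) ^ k)).toReal := ⟨_, rfl⟩
  obtain ⟨c, hcdef⟩ : ∃ c : ℝ, c = (μ (A 0) ^ 2).toReal / (Cg.toReal * 3 ^ κ) := ⟨_, rfl⟩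
  have hCgr : 0 < Cg.toReal := ENNReal.toReal_pos hCg0 hCg
  have hc : 0 < c := by
    rw [hcdef]
    refine div_pos (ENNReal.toReal_pos (pow_ne_zero _ hA0) (ENNReal.pow_ne_top hA0'))
      (by positivity)
  have hbk : ∀ k, c ≤ b k * (2 ^ k) ^ κ := by
    intro k
    have h1 := f2_lower (μ := μ) hφ.meas hA hstep h0 (2 ^ k)
    have h2 := hgrow (2 ^ k + 1)
    have h3 : μ (A 0) ^ 2 ≤ f2 μ φ ((2 : ℝ) ^ k) * (Cg * ((3 : ℝ≥0∞) * 2 ^ k) ^ κ) := by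
      calc μ (A 0) ^ 2 ≤ f2 μ φ ((2 ^ k : ℕ) : ℝ) * μ (A (2 ^ k + 1)) := h1
        _ ≤ f2 μ φ ((2 ^ k : ℕ) : ℝ) * (Cg * ((3 : ℝ≥0∞) * 2 ^ k) ^ κ) := by
            refine cm _ (h2.trans (cm _ ?_))
            refine pow_le_pow_left₀ bot_le ?_ κ
            push_cast
            have h4 : (1 : ℝ≥0∞) ≤ 2 ^ k := one_le_pow₀ (by norm_num)
            calc (2 : ℝ≥0∞) ^ k + 1 + 1 ≤ 2 ^ k + 2 ^ k + 2 ^ k := by gcongr
              _ = 3 * 2 ^ k := by ring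
        _ = _ := by push_cast; rfl
    have h5 := ENNReal.toReal_mono (ENNReal.mul_ne_top (hfin _) (ENNReal.mul_ne_top hCg
      (ENNReal.pow_ne_top (ENNReal.mul_ne_top (by simp) (ENNReal.pow_ne_top (by simp)))))) h3
    simp only [ENNReal.toReal_mul, ENNReal.toReal_pow, ENNReal.toReal_ofNat] at h5
    rw [hcdef, hbdef, div_le_iff₀ (by positivity), ENNReal.toReal_pow]
    rw [mul_pow] at h5
    linarith
  choose kk hkk hkk2 using seq_lemma b hc κ hbk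
  have hsn : ∀ n, (2 : ℝ) ^ (kk n + 1) = 2 * 2 ^ (kk n) := fun n => by rw [pow_succ]; ring
  refine ⟨4 * (C2 * 2 ^ (κ + 1)) * 64, ?_, fun n => Real.exp (2 ^ (kk n + 1)),
    fun n => Real.exp_pos _, ?_, ?_⟩
  · exact ENNReal.mul_ne_top (ENNReal.mul_ne_top (by simp)
      (ENNReal.mul_ne_top hC2 (ENNReal.pow_ne_top (by simp)))) (by simp)
  · intro n
    obtain ⟨s, hs⟩ : ∃ s : ℝ, s = 2 ^ (kk n + 1) := ⟨_, rfl⟩
    have hr : (0 : ℝ) ≤ 2 ^ (kk n) := by positivity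
    have h1 : f2 μ φ (2 ^ (kk n)) ≤ 2 ^ (κ + 1) * f2 μ φ s := by
      have h2 := hkk2 n
      rw [hbdef] at h2
      simp only at h2
      rw [← hs] at h2
      have h3 : ((2 : ℝ) ^ (κ + 1) * (f2 μ φ s).toReal) = (2 ^ (κ + 1) * f2 μ φ s).toReal := by
        rw [ENNReal.toReal_mul, ENNReal.toReal_pow]; simp
      rw [h3] at h2
      exact (ENNReal.toReal_le_toReal (hfin _) (ENNReal.mul_ne_top
        (ENNReal.pow_ne_top (by simp)) (hfin _))).1 h2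
    have h2 : ∀ y, FF φ s 1 y ≤ C2 * (2 ^ (κ + 1) * f2 μ φ s) := by
      intro y
      have h3 := hsup _ hr y
      rw [← hsn n, ← hs] at h3
      exact h3.trans (cm _ h1)
    have h3 := K2_bound (μ := μ) hφ.meas s h2
    have h4 := K1_bound (μ := μ) hφ.meas s
    simp only
    rw [← hs]
    calc ∫⁻ x, φ x * KK φ (Real.exp s) x ^ 2 ∂μ
        ≤ 4 * (ENNReal.ofReal (Real.exp s) ^ 2 *
          (C2 * (2 ^ (κ + 1) * f2 μ φ s) * f2 μ φ s)) := h3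
      _ = 4 * (C2 * 2 ^ (κ + 1)) * (ENNReal.ofReal (Real.exp s) * f2 μ φ s) ^ 2 := by ring
      _ ≤ 4 * (C2 * 2 ^ (κ + 1)) * (8 * ∫⁻ x, φ x * KK φ (Real.exp s) x ∂μ) ^ 2 := by
          refine cm _ (pow_le_pow_left₀ bot_le h4 2)
      _ = 4 * (C2 * 2 ^ (κ + 1)) * 64 * (∫⁻ x, φ x * KK φ (Real.exp s) x ∂μ) ^ 2 := by ring
  · have hs_tendsto : Tendsto (fun n => (2 : ℝ) ^ (kk n + 1)) atTop atTop := by
      have h1 : Tendsto (fun n => kk n + 1) atTop atTop :=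
        tendsto_atTop_mono (fun n => (hkk n).le.trans (Nat.le_succ _)) tendsto_id
      exact (tendsto_pow_atTop_atTop_of_one_lt (one_lt_two : (1 : ℝ) < 2)).comp h1
    have h2 : Tendsto (fun s : ℝ => Real.exp s / s ^ κ) atTop atTop :=
      Real.tendsto_exp_div_pow_atTop κ
    have h3 : Tendsto (fun n => ENNReal.ofReal (c / 8 * (Real.exp (2 ^ (kk n + 1)) /
        (2 ^ (kk n + 1)) ^ κ))) atTop (𝓝 ∞) := by
      have h4 := (h2.comp hs_tendsto).const_mul_atTop (by positivity : (0 : ℝ) < c / 8)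
      exact ENNReal.tendsto_ofReal_atTop.comp h4
    refine tendsto_of_tendsto_of_tendsto_of_le_of_le h3 tendsto_const_nhds ?_ (fun _ => le_top)
    intro n
    simp only
    have hk := hbk (kk n + 1)
    have hK1 := K1_bound (μ := μ) hφ.meas ((2 : ℝ) ^ (kk n + 1))
    have hfb : f2 μ φ ((2 : ℝ) ^ (kk n + 1)) = ENNReal.ofReal (b (kk n + 1)) := by
      rw [hbdef]; exact (ENNReal.ofReal_toReal (hfin _)).symm
    rw [hfb, ← ENNReal.ofReal_mul (Real.exp_pos _).le] at hK1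
    have h8 : (8 : ℝ≥0∞) * ENNReal.ofReal (c / 8 * (Real.exp (2 ^ (kk n + 1)) /
        (2 ^ (kk n + 1)) ^ κ)) ≤ 8 * ∫⁻ x, φ x * KK φ (Real.exp (2 ^ (kk n + 1))) x ∂μ := by
      refine le_trans ?_ hK1
      have : (8 : ℝ≥0∞) = ENNReal.ofReal 8 := by simp
      rw [this, ← ENNReal.ofReal_mul (by norm_num)]
      refine ENNReal.ofReal_le_ofReal ?_
      have hpos : (0 : ℝ) < (2 ^ (kk n + 1)) ^ κ := by positivity
      have h9 : c / (2 ^ (kk n + 1)) ^ κ ≤ b (kk n + 1) := by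
        rw [div_le_iff₀ hpos]; exact hk
      calc 8 * (c / 8 * (Real.exp (2 ^ (kk n + 1)) / (2 ^ (kk n + 1)) ^ κ))
          = Real.exp (2 ^ (kk n + 1)) * (c / (2 ^ (kk n + 1)) ^ κ) := by ring
        _ ≤ _ := mul_le_mul_of_nonneg_left h9 (Real.exp_pos _).le
    exact (ENNReal.mul_le_mul_iff_right (by simp) (by simp)).1 h8

end

end Pool.Agent.E8helper85.NS
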