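import Pool.Agent.E8helper85.NS.SL2

/-!
# The plane: preliminaries
-/

set_option autoImplicit false

open MeasureTheory Filter Topology Set
open scoped ENNReal

namespace Pool.Agent.E8helper85.NS

/-- right action on row vectors -/
def ra (p : ℝ × ℝ) (g : G) : ℝ × ℝ := (p.1 * g 0 0 + p.2 * g 1 0, p.1 * g 0 1 + p.2 * g 1 1)

lemma ra_mul (p : ℝ × ℝ) (g h : G) : ra p (g * h) = ra (ra p g) h := by
  unfold ra
  rw [mul_00, mul_01, mul_10, mul_11]
  ext <;> simp <;> ring

lemma ra_one (p : ℝ × ℝ) : ra p 1 = p := by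
  unfold ra; simp

lemma ra_smul (c : ℝ) (p : ℝ × ℝ) (g : G) : ra (c • p) g = c • ra p g := by
  unfold ra
  ext <;> simp <;> ring

lemma measurable_ra (g : G) : Measurable (fun p => ra p g) := by
  unfold ra; fun_prop

lemma measurePreserving_ra (g : G) : MeasurePreserving (fun p => ra p g) volume volume := by
  refine ⟨measurable_ra g, ?_⟩
  set f := Matrix.toLin (Module.Basis.finTwoProd ℝ) (Module.Basis.finTwoProd ℝ)
    !![g 0 0, g 1 0; g 0 1, g 1 1] with hf
  have h1 : (fun p => ra p g) = ⇑f := by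
    funext p
    rw [hf, Matrix.toLin_finTwoProd_apply]
    unfold ra
    ext <;> simp <;> ring
  have h2 : LinearMap.det f = 1 := by
    rw [hf, LinearMap.det_toLin, Matrix.det_fin_two]
    have := det_eq g
    simp only [Matrix.of_apply, Matrix.cons_val', Matrix.cons_val_zero, Matrix.cons_val_one,
      Matrix.cons_val_fin_one]
    linarith
  rw [h1, Measure.map_linearMap_addHaar_eq_smul_addHaar _ (by rw [h2]; exact one_ne_zero), h2]
  simp

/-- the square box -/
def box (R : ℝ) : Set (ℝ × ℝ) := Icc (-R) R ×ˢ Icc (-R) R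

lemma measurableSet_box (R : ℝ) : MeasurableSet (box R) := measurableSet_Icc.prod measurableSet_Icc

lemma box_mono {R R' : ℝ} (h : R ≤ R') : box R ⊆ box R' :=
  prod_mono (Icc_subset_Icc (by linarith) h) (Icc_subset_Icc (by linarith) h)

lemma volume_box_lt_top (R : ℝ) : volume (box R) < ∞ := by
  unfold box
  rw [Measure.volume_eq_prod, Measure.prod_prod]
  exact ENNReal.mul_lt_top (by simp) (by simp)

lemma ra_mem_box {R : ℝ} (hR : 0 ≤ R) {p : ℝ × ℝ} (hp : p ∈ box R) (g : G) :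
    ra p g ∈ box (2 * √(q g) * R) := by
  have h := fun i j => abs_entry_le g i j
  have hq : 0 ≤ √(q g) := Real.sqrt_nonneg _
  obtain ⟨⟨h1, h2⟩, h3, h4⟩ := hp
  have hx : |p.1| ≤ R := abs_le.2 ⟨h1, h2⟩
  have hy : |p.2| ≤ R := abs_le.2 ⟨h3, h4⟩
  have key : ∀ i j k l : Fin 2, |p.1 * g i j + p.2 * g k l| ≤ 2 * √(q g) * R := by
    intro i j k l
    calc |p.1 * g i j + p.2 * g k l| ≤ |p.1 * g i j| + |p.2 * g k l| := abs_add_le _ _
      _ = |p.1| * |g i j| + |p.2| * |g k l| := by rw [abs_mul, abs_mul]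
      _ ≤ R * √(q g) + R * √(q g) :=
        add_le_add (mul_le_mul hx (h i j) (abs_nonneg _) hR)
          (mul_le_mul hy (h k l) (abs_nonneg _) hR)
      _ = 2 * √(q g) * R := by ring
  refine ⟨⟨?_, ?_⟩, ?_, ?_⟩
  · exact (abs_le.1 (key 0 0 1 0)).1
  · exact (abs_le.1 (key 0 0 1 0)).2
  · exact (abs_le.1 (key 0 1 1 1)).1
  · exact (abs_le.1 (key 0 1 1 1)).2

/-- the map `η ↦ e^{-t/2} η a_t u_τ` -/
noncomputable def mm (t τ : ℝ) (p : ℝ × ℝ) : ℝ × ℝ := (p.1, τ * p.1 + Real.exp (-t) * p.2)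

lemma measurable_mm (t τ : ℝ) : Measurable (mm t τ) := by unfold mm; fun_prop

lemma mm_eq (t τ : ℝ) (p : ℝ × ℝ) : mm t τ p = Real.exp (-(t / 2)) • ra p (a t * u τ) := by
  unfold mm ra
  rw [mul_00, mul_01, mul_10, mul_11]
  have h1 : Real.exp (-(t / 2)) * Real.exp (t / 2) = 1 := by rw [← Real.exp_add]; simp
  have h2 : Real.exp (-(t / 2)) * Real.exp (-(t / 2)) = Real.exp (-t) := by
    rw [← Real.exp_add]; congr 1; ring
  ext
  · simp only [a_00, a_01, a_10, a_11, u_00, u_01, u_10, u_11, Prod.smul_mk, smul_eq_mul]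
    linear_combination (-p.1) * h1
  · simp only [a_00, a_01, a_10, a_11, u_00, u_01, u_10, u_11, Prod.smul_mk, smul_eq_mul]
    linear_combination (-τ * p.1) * h1 - p.2 * h2

/-- continuity of translations in `L¹`, on an interval -/
lemma transl (g : ℝ → ℝ) (hg : Measurable g) (M : ℝ) (hM : ∀ x, |g x| ≤ M) (R : ℝ) :
    Tendsto (fun h => ∫⁻ τ in Icc (-R) R, ‖g (τ + h) - g τ‖ₑ) (𝓝 0) (𝓝 0) := by
  set g1 : ℝ → ℝ := (Icc (-(R + 1)) (R + 1)).indicator g with hg1
  have hg1m : Measurable g1 := hg.indicator measurableSet_Icc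
  have hint : MemLp g1 1 volume := by
    rw [memLp_one_iff_integrable, hg1, integrable_indicator_iff measurableSet_Icc]
    refine Measure.integrableOn_of_bounded (M := M) (by simp) hg.aestronglyMeasurable ?_
    exact Eventually.of_forall fun x => by simpa using hM x
  set f0 : Lp ℝ 1 (volume : Measure ℝ) := hint.toLp g1 with hf0
  have hmp : ∀ h : ℝ, MeasurePreserving (fun x : ℝ => x + h) volume volume :=
    fun h => measurePreserving_add_right volume h
  set T : ℝ → C(ℝ, ℝ) := fun h => ⟨fun x => x + h, by fun_prop⟩ with hT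
  have hTc : Tendsto T (𝓝 0) (𝓝 (T 0)) := by
    have : Continuous T := by
      apply ContinuousMap.continuous_of_continuous_uncurry
      show Continuous fun p : ℝ × ℝ => p.2 + p.1
      fun_prop
    exact this.tendsto 0
  have hlim := Filter.Tendsto.compMeasurePreservingLp (l := 𝓝 (0 : ℝ)) (f := fun _ => f0)
    (f₀ := f0) tendsto_const_nhds hTc (fun h => hmp h) (hmp 0) ENNReal.one_ne_top
  rw [tendsto_iff_edist_tendsto_0] at hlim
  have hle : ∀ᶠ h : ℝ in 𝓝 0, (∫⁻ τ in Icc (-R) R, ‖g (τ + h) - g τ‖ₑ) ≤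
      edist (Lp.compMeasurePreserving (T h) (hmp h) f0)
        (Lp.compMeasurePreserving (T 0) (hmp 0) f0) := by
    have h1 : ∀ᶠ h : ℝ in 𝓝 0, |h| < 1 := by
      have := (continuous_abs.tendsto (0 : ℝ))
      rw [abs_zero] at this
      exact this.eventually (gt_mem_nhds one_pos)
    filter_upwards [h1] with h hh
    rw [Lp.edist_def, eLpNorm_one_eq_lintegral_enorm]
    have hae : ∀ᵐ x : ℝ, (⇑(Lp.compMeasurePreserving (T h) (hmp h) f0) -
        ⇑(Lp.compMeasurePreserving (T 0) (hmp 0) f0)) x = g1 (x + h) - g1 x := by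
      have e1 := Lp.coeFn_compMeasurePreserving f0 (hmp h)
      have e2 := Lp.coeFn_compMeasurePreserving f0 (hmp 0)
      have e3 := (hmp h).quasiMeasurePreserving.ae (hint.coeFn_toLp)
      have e4 := (hmp 0).quasiMeasurePreserving.ae (hint.coeFn_toLp)
      filter_upwards [e1, e2, e3, e4] with x h1 h2 h3 h4
      rw [Pi.sub_apply]
      erw [h1, h2]
      simp only [Function.comp_apply, hf0]
      rw [h3, h4, add_zero]
    calc (∫⁻ τ in Icc (-R) R, ‖g (τ + h) - g τ‖ₑ)
        = ∫⁻ τ in Icc (-R) R, ‖g1 (τ + h) - g1 τ‖ₑ := by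
          refine setLIntegral_congr_fun measurableSet_Icc fun τ hτ => ?_
          have hh' := abs_lt.1 hh
          have hi1 : τ + h ∈ Icc (-(R + 1)) (R + 1) := ⟨by linarith [hτ.1], by linarith [hτ.2]⟩
          have hi2 : τ ∈ Icc (-(R + 1)) (R + 1) := ⟨by linarith [hτ.1], by linarith [hτ.2]⟩
          simp only [hg1, indicator_of_mem hi1, indicator_of_mem hi2]
      _ ≤ ∫⁻ τ, ‖g1 (τ + h) - g1 τ‖ₑ := setLIntegral_le_lintegral _ _
      _ = _ := by
          refine lintegral_congr_ae ?_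
          filter_upwards [hae] with x hx
          rw [hx]
  exact tendsto_of_tendsto_of_tendsto_of_le_of_le' tendsto_const_nhds hlim
    (Eventually.of_forall fun _ => zero_le) hle

/-- the error functional -/
noncomputable def er (F : ℝ × ℝ → ℝ) (t τ R : ℝ) : ℝ≥0∞ :=
  ∫⁻ p in box R, ‖F (mm t τ p) - F (p.1, τ * p.1)‖ₑ

lemma measurable_er_aux {F : ℝ × ℝ → ℝ} (hF : Measurable F) (t : ℝ) :
    Measurable (fun z : ℝ × (ℝ × ℝ) => ‖F (mm t z.1 z.2) - F (z.2.1, z.1 * z.2.1)‖ₑ) := by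
  unfold mm
  have h1 : Measurable (fun z : ℝ × (ℝ × ℝ) =>
      F (z.2.1, z.1 * z.2.1 + Real.exp (-t) * z.2.2)) :=
    hF.comp (by fun_prop)
  have h2 : Measurable (fun z : ℝ × (ℝ × ℝ) => F (z.2.1, z.1 * z.2.1)) :=
    hF.comp (by fun_prop)
  exact (h1.sub h2).enorm

lemma measurable_er {F : ℝ × ℝ → ℝ} (hF : Measurable F) (t R : ℝ) :
    Measurable (fun τ => er F t τ R) := by
  unfold er
  exact (measurable_er_aux hF t).lintegral_prod_right' (ν := volume.restrict (box R))

lemma er_mono (F : ℝ × ℝ → ℝ) (t τ : ℝ) {R R' : ℝ} (h : R ≤ R') : er F t τ R ≤ er F t τ R' :=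
  lintegral_mono_set (box_mono h)

/-- the averaged error tends to zero -/
lemma er_tendsto {F : ℝ × ℝ → ℝ} (hF : Measurable F) {M : ℝ} (hM : ∀ p, |F p| ≤ M) (R R' : ℝ) :
    Tendsto (fun t => ∫⁻ τ in Icc (-R) R, er F t τ R') atTop (𝓝 0) := by
  have hswap : ∀ t, ∫⁻ τ in Icc (-R) R, er F t τ R' =
      ∫⁻ p in box R', ∫⁻ τ in Icc (-R) R, ‖F (mm t τ p) - F (p.1, τ * p.1)‖ₑ := by
    intro t
    unfold er
    rw [lintegral_lintegral_swap]
    exact (measurable_er_aux hF t).aemeasurable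
  simp_rw [hswap]
  have hM0 : 0 ≤ M := (abs_nonneg _).trans (hM 0)
  have hlim := tendsto_lintegral_filter_of_dominated_convergence
    (μ := volume.restrict (box R')) (l := atTop)
    (F := fun (t : ℝ) (p : ℝ × ℝ) =>
      ∫⁻ τ in Icc (-R) R, ‖F (mm t τ p) - F (p.1, τ * p.1)‖ₑ) (f := fun _ => 0)
    (fun _ => ENNReal.ofReal (2 * M) * volume (Icc (-R) R)) ?_ ?_ ?_ ?_
  · simpa using hlim
  · refine Eventually.of_forall fun t => ?_
    exact (measurable_er_aux hF t).lintegral_prod_left' (μ := volume.restrict (Icc (-R) R))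
  · refine Eventually.of_forall fun t => Eventually.of_forall fun p => ?_
    calc ∫⁻ τ in Icc (-R) R, ‖F (mm t τ p) - F (p.1, τ * p.1)‖ₑ
        ≤ ∫⁻ τ in Icc (-R) R, ENNReal.ofReal (2 * M) := by
          refine lintegral_mono fun τ => ?_
          rw [← ofReal_norm, Real.norm_eq_abs]
          refine ENNReal.ofReal_le_ofReal ?_
          calc |F (mm t τ p) - F (p.1, τ * p.1)| ≤ |F (mm t τ p)| + |F (p.1, τ * p.1)| :=
              abs_sub _ _
            _ ≤ 2 * M := by linarith [hM (mm t τ p), hM (p.1, τ * p.1)]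
      _ = _ := by rw [setLIntegral_const]
  · rw [setLIntegral_const]
    exact (ENNReal.mul_lt_top (ENNReal.mul_lt_top ENNReal.ofReal_lt_top (by simp))
      (volume_box_lt_top R')).ne
  · have hne : ∀ᵐ p : ℝ × ℝ ∂(volume.restrict (box R')), p.1 ≠ 0 := by
      refine ae_restrict_of_ae ?_
      have : (volume : Measure (ℝ × ℝ)) ((Prod.fst) ⁻¹' {0}) = 0 := by
        have h : (Prod.fst : ℝ × ℝ → ℝ) ⁻¹' {0} = {0} ×ˢ univ := by ext; simp
        rw [h, Measure.volume_eq_prod, Measure.prod_prod]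
        simp
      rw [ae_iff]
      have h5 : {x : ℝ × ℝ | ¬ x.1 ≠ 0} = (Prod.fst : ℝ × ℝ → ℝ) ⁻¹' {0} := by
        ext x; simp
      rw [h5]; exact this
    filter_upwards [hne] with p hp
    have hg : Measurable (fun τ : ℝ => F (p.1, τ * p.1)) := hF.comp (by fun_prop)
    have h1 := transl (fun τ => F (p.1, τ * p.1)) hg M (fun τ => hM _) R
    have h2 : Tendsto (fun t : ℝ => Real.exp (-t) * p.2 / p.1) atTop (𝓝 0) := by
      have h3 : Tendsto (fun t : ℝ => Real.exp (-t)) atTop (𝓝 0) :=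
        Real.tendsto_exp_neg_atTop_nhds_zero
      have h4 := (h3.mul_const p.2).div_const p.1
      simpa using h4
    have h3 := h1.comp h2
    refine h3.congr fun t => ?_
    simp only [Function.comp_apply]
    refine lintegral_congr fun τ => ?_
    congr 2
    unfold mm
    congr 2
    field_simp

end Pool.Agent.E8helper85.NS
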