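import Pool.Agent.E8helper85.NS.Plane1

/-!
# The plane: invariant functions are homogeneous
-/

set_option autoImplicit false

open MeasureTheory Filter Topology Set
open scoped ENNReal

namespace Pool.Agent.E8helper85.NS

lemma qmp_smul {c : ℝ} (hc : c ≠ 0) :
    Measure.QuasiMeasurePreserving (fun p : ℝ × ℝ => c • p) volume volume := by
  refine ⟨by fun_prop, ?_⟩
  refine Measure.AbsolutelyContinuous.mk fun s hs h => ?_
  rw [Measure.map_apply (by fun_prop) hs]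
  have := Measure.addHaar_preimage_smul (volume : Measure (ℝ × ℝ)) hc s
  rw [this, h, mul_zero]

lemma qmp_mm (t τ : ℝ) : Measure.QuasiMeasurePreserving (mm t τ) volume volume := by
  have h1 := (measurePreserving_ra (a t * u τ)).quasiMeasurePreserving
  have h2 := qmp_smul (Real.exp_pos (-(t / 2))).ne'
  have h3 := h2.comp h1
  have h4 : (fun p : ℝ × ℝ => Real.exp (-(t / 2)) • p) ∘ (fun p => ra p (a t * u τ)) = mm t τ := by
    funext p
    rw [mm_eq]; rfl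
  rwa [h4] at h3

/-- averaging argument -/
lemma zero_of_le {F F2 : ℝ × ℝ → ℝ} (hF : Measurable F) (hF2 : Measurable F2) {M : ℝ}
    (hM : ∀ p, |F p| ≤ M) (hM2 : ∀ p, |F2 p| ≤ M) (A : ℝ → ℝ≥0∞) (R R' : ℝ) {C : ℝ≥0∞}
    (hC : C ≠ ∞)
    (h : ∀ t : ℝ, 0 ≤ t → ∀ᵐ τ : ℝ, A τ ≤ C * (er F t τ R' + er F2 t τ R')) :
    ∫⁻ τ in Icc (-R) R, A τ = 0 := by
  have h1 := er_tendsto hF hM R R'
  have h2 := er_tendsto hF2 hM2 R R'
  have h3 := ENNReal.Tendsto.const_mul (a := C) (h1.add h2) (Or.inr hC)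
  rw [add_zero, mul_zero] at h3
  refine le_antisymm (ge_of_tendsto h3 ?_) bot_le
  filter_upwards [eventually_ge_atTop 0] with t ht
  rw [← lintegral_add_left (measurable_er hF t R'), ← lintegral_const_mul]
  · exact lintegral_mono_ae (ae_restrict_of_ae (h t ht))
  · exact (measurable_er hF t R').add (measurable_er hF2 t R')

lemma lintegral_box_ra_le (h : ℝ × ℝ → ℝ≥0∞) (hh : Measurable h) (k : G) {R R' : ℝ} (hR : 0 ≤ R)
    (hR' : 2 * √(q k) * R ≤ R') :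
    ∫⁻ p in box R, h (ra p k) ≤ ∫⁻ p in box R', h p := by
  rw [← lintegral_indicator (measurableSet_box R), ← lintegral_indicator (measurableSet_box R'),
    ← (measurePreserving_ra k).lintegral_comp (hh.indicator (measurableSet_box R'))]
  refine lintegral_mono fun p => ?_
  by_cases hp : p ∈ box R
  · rw [indicator_of_mem hp, indicator_of_mem (box_mono hR' (ra_mem_box hR hp k))]
  · rw [indicator_of_notMem hp]
    exact bot_le

/-- one dimensional affine substitution -/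
lemma affine_subst (g : ℝ → ℝ≥0∞) (hg : Measurable g) (b c : ℝ) (hc : c ≠ 0) (R R' : ℝ)
    (hR : ∀ y, b + c * y ∈ Icc (-R) R → y ∈ Icc (-R') R') :
    ∫⁻ y in Icc (-R) R, g y ≤ ENNReal.ofReal |c| * ∫⁻ y in Icc (-R') R', g (b + c * y) := by
  set f := (Icc (-R) R).indicator g with hf
  have hfm : Measurable f := hg.indicator measurableSet_Icc
  have h1 : ∫⁻ y, f (b + c * y) = ENNReal.ofReal |c⁻¹| * ∫⁻ y, f y := by
    have h2 : ∫⁻ y, f (b + c * y) = ∫⁻ y, f (b + y) ∂(Measure.map (fun y => c * y) volume) := by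
      rw [lintegral_map (by fun_prop) (by fun_prop)]
    rw [h2, Real.map_volume_mul_left hc, lintegral_smul_measure,
      lintegral_add_left_eq_self (μ := volume) f b, smul_eq_mul]
  have h3 : ENNReal.ofReal |c| * ENNReal.ofReal |c⁻¹| = 1 := by
    rw [← ENNReal.ofReal_mul (abs_nonneg _), ← abs_mul, mul_inv_cancel₀ hc]; simp
  have h4 : ∫⁻ y, f y = ENNReal.ofReal |c| * ∫⁻ y, f (b + c * y) := by
    rw [h1, ← mul_assoc, h3, one_mul]
  rw [← lintegral_indicator measurableSet_Icc, ← hf, h4]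
  refine mul_le_mul_right ?_ _
  rw [← lintegral_indicator measurableSet_Icc]
  refine lintegral_mono fun y => ?_
  simp only [hf]
  by_cases hy : b + c * y ∈ Icc (-R) R
  · rw [indicator_of_mem hy, indicator_of_mem (hR y hy)]
  · rw [indicator_of_notMem hy]
    exact bot_le

/-- **Step A**, for fixed `t` and `τ`. -/
lemma stepA_pt {F : ℝ × ℝ → ℝ} (hF : Measurable F) (t τ : ℝ) (c g' γ : G)
    (hg : a t * u τ = c * g') (hinv : ∀ᵐ p, F (ra p (g'⁻¹ * γ * g')) = F p)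
    {c0 C1 R R1 R2 : ℝ} (hc0 : 0 < c0) (hk : c0 ≤ |(c * γ * c⁻¹) 1 0|) (hq : q (c * γ * c⁻¹) ≤ C1)
    (hR : 0 ≤ R) (hR1 : (R + √C1 * R) / c0 ≤ R1) (hR1' : R ≤ R1) (hR2 : 2 * √C1 * R1 ≤ R2)
    (hR12 : R1 ≤ R2) :
    ∫⁻ p in box R, ‖F (p.2, τ * p.2) - F (p.1, τ * p.1)‖ₑ ≤
      ENNReal.ofReal (√C1) * 2 * er F t τ R2 := by
  obtain ⟨k, hkk⟩ : ∃ k, k = c * γ * c⁻¹ := ⟨_, rfl⟩
  rw [← hkk] at hk hq
  have hk0 : k 1 0 ≠ 0 := by
    intro h; rw [h, abs_zero] at hk; linarith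
  set Ψ : ℝ → ℝ := fun x => F (x, τ * x) with hΨ
  have hΨm : Measurable Ψ := hF.comp (by fun_prop)
  have hR10 : 0 ≤ R1 := hR.trans hR1'
  -- invariance
  have hmk : ∀ p, mm t τ (ra p k) = ra (mm t τ p) (g'⁻¹ * γ * g') := by
    intro p
    rw [mm_eq, mm_eq, ra_smul, ← ra_mul, ← ra_mul, hg, hkk]
    congr 2
    group
  have hinv2 : ∀ᵐ p, F (mm t τ (ra p k)) = F (mm t τ p) := by
    filter_upwards [(qmp_mm t τ).ae hinv] with p hp
    rw [hmk, hp]
  have hsq : √(q k) ≤ √C1 := Real.sqrt_le_sqrt hq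
  have hk10 : |k 1 0| ≤ √C1 := (abs_entry_le k 1 0).trans hsq
  have hk00 : |k 0 0| ≤ √C1 := (abs_entry_le k 0 0).trans hsq
  have hmmm := measurable_mm t τ
  -- the upper bound
  have hup : ∫⁻ p in box R1, ‖Ψ ((ra p k).1) - Ψ p.1‖ₑ ≤ 2 * er F t τ R2 := by
    have hm1 : Measurable fun p : ℝ × ℝ => ‖F (mm t τ p) - Ψ p.1‖ₑ :=
      ((hF.comp hmmm).sub (hΨm.comp measurable_fst)).enorm
    calc ∫⁻ p in box R1, ‖Ψ ((ra p k).1) - Ψ p.1‖ₑ
        ≤ ∫⁻ p in box R1, (‖F (mm t τ (ra p k)) - Ψ ((ra p k).1)‖ₑ + ‖F (mm t τ p) - Ψ p.1‖ₑ) := by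
          refine lintegral_mono_ae (ae_restrict_of_ae ?_)
          filter_upwards [hinv2] with p hp
          have h5 : Ψ ((ra p k).1) - Ψ p.1 =
              (F (mm t τ p) - Ψ p.1) - (F (mm t τ (ra p k)) - Ψ ((ra p k).1)) := by
            rw [hp]; ring
          rw [h5, add_comm]
          exact enorm_sub_le
      _ = (∫⁻ p in box R1, ‖F (mm t τ (ra p k)) - Ψ ((ra p k).1)‖ₑ) +
          ∫⁻ p in box R1, ‖F (mm t τ p) - Ψ p.1‖ₑ := by
          rw [lintegral_add_right _ hm1]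
      _ ≤ er F t τ R2 + er F t τ R2 := by
          refine add_le_add ?_ ?_
          · exact lintegral_box_ra_le (fun p => ‖F (mm t τ p) - Ψ p.1‖ₑ) hm1 k hR10
              ((mul_le_mul_of_nonneg_right (mul_le_mul_of_nonneg_left hsq zero_le_two)
                hR10).trans hR2)
          · exact er_mono F t τ hR12
      _ = 2 * er F t τ R2 := by ring
  -- the lower bound
  have hlow : ∫⁻ p in box R, ‖Ψ p.2 - Ψ p.1‖ₑ ≤
      ENNReal.ofReal (√C1) * ∫⁻ p in box R1, ‖Ψ ((ra p k).1) - Ψ p.1‖ₑ := by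
    have hm2 : Measurable fun p : ℝ × ℝ => ‖Ψ p.2 - Ψ p.1‖ₑ :=
      ((hΨm.comp measurable_snd).sub (hΨm.comp measurable_fst)).enorm
    have hm3 : Measurable fun p : ℝ × ℝ => ‖Ψ ((ra p k).1) - Ψ p.1‖ₑ :=
      ((hΨm.comp (measurable_fst.comp (measurable_ra k))).sub (hΨm.comp measurable_fst)).enorm
    have e1 : ∫⁻ p in box R, ‖Ψ p.2 - Ψ p.1‖ₑ =
        ∫⁻ x in Icc (-R) R, ∫⁻ y in Icc (-R) R, ‖Ψ y - Ψ x‖ₑ := by
      unfold box
      rw [Measure.volume_eq_prod, ← Measure.prod_restrict, lintegral_prod _ hm2.aemeasurable]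
    have e2 : ∫⁻ p in box R1, ‖Ψ ((ra p k).1) - Ψ p.1‖ₑ =
        ∫⁻ x in Icc (-R1) R1, ∫⁻ y in Icc (-R1) R1, ‖Ψ (x * k 0 0 + k 1 0 * y) - Ψ x‖ₑ := by
      unfold box
      rw [Measure.volume_eq_prod, ← Measure.prod_restrict, lintegral_prod _ hm3.aemeasurable]
      refine lintegral_congr fun x => lintegral_congr fun y => ?_
      unfold ra
      simp only
      rw [mul_comm y]
    rw [e1, e2, ← lintegral_const_mul']
    swap
    · exact ENNReal.ofReal_ne_top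
    refine (lintegral_mono_set (Icc_subset_Icc (neg_le_neg hR1') hR1')).trans' ?_
    refine setLIntegral_mono' measurableSet_Icc fun x hx => ?_
    refine (affine_subst (fun y => ‖Ψ y - Ψ x‖ₑ) (by fun_prop) (x * k 0 0) (k 1 0) hk0 R R1 ?_).trans
      ?_
    · intro y hy
      have hx' : |x| ≤ R := abs_le.2 hx
      have hy' : |x * k 0 0 + k 1 0 * y| ≤ R := abs_le.2 hy
      have h6 : |k 1 0| * |y| ≤ R + √C1 * R := by
        rw [← abs_mul]
        have h7 : k 1 0 * y = (x * k 0 0 + k 1 0 * y) - x * k 0 0 := by ring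
        rw [h7]
        refine (abs_sub _ _).trans ?_
        rw [abs_mul]
        have : |x| * |k 0 0| ≤ R * √C1 := mul_le_mul hx' hk00 (abs_nonneg _) hR
        linarith
      have h8 : c0 * |y| ≤ R + √C1 * R :=
        (mul_le_mul_of_nonneg_right hk (abs_nonneg _)).trans h6
      have h9 : |y| ≤ (R + √C1 * R) / c0 := by
        rw [le_div_iff₀ hc0]; linarith
      exact abs_le.1 (h9.trans hR1)
    · exact mul_le_mul_left (ENNReal.ofReal_le_ofReal hk10) _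
  calc ∫⁻ p in box R, ‖F (p.2, τ * p.2) - F (p.1, τ * p.1)‖ₑ
      ≤ ENNReal.ofReal (√C1) * ∫⁻ p in box R1, ‖Ψ ((ra p k).1) - Ψ p.1‖ₑ := hlow
    _ ≤ ENNReal.ofReal (√C1) * (2 * er F t τ R2) := mul_le_mul_right hup _
    _ = _ := by ring

/-- uniform irreducibility -/
def Irr (Γ : Subgroup G) (Q : ℝ) : Prop :=
  ∃ c0 : ℝ, 0 < c0 ∧ ∃ C1 : ℝ, ∀ c : G, q c ≤ Q → ∃ γ ∈ Γ,
    c0 ≤ |(c * γ * c⁻¹) 1 0| ∧ q (c * γ * c⁻¹) ≤ C1

/-- cocompactness -/
def Coc (Λ : Subgroup G) (Q : ℝ) : Prop := ∀ g : G, ∃ c g' : G, g' ∈ Λ ∧ q c ≤ Q ∧ g = c * g'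

/-- `F` is invariant under `g` -/
def Inv (F : ℝ × ℝ → ℝ) (g : G) : Prop := ∀ᵐ p, F (ra p g) = F p

lemma Inv.mul {F : ℝ × ℝ → ℝ} {g h : G} (hg : Inv F g) (hh : Inv F h) : Inv F (g * h) := by
  have h1 := (measurePreserving_ra g).quasiMeasurePreserving.ae hh
  filter_upwards [hg, h1] with p hp hp1
  rw [ra_mul, hp1, hp]

/-- the mean value along a line through the origin -/
noncomputable def Bar (F : ℝ × ℝ → ℝ) (τ : ℝ) : ℝ := ∫ x in Icc (1 : ℝ) 2, F (x, τ * x)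

lemma measurable_Bar {F : ℝ × ℝ → ℝ} (hF : Measurable F) : Measurable (Bar F) := by
  unfold Bar
  have h : StronglyMeasurable (fun z : ℝ × ℝ => F (z.2, z.1 * z.2)) :=
    (hF.comp (by fun_prop)).stronglyMeasurable
  exact (h.integral_prod_right (ν := volume.restrict (Icc (1 : ℝ) 2))).measurable

/-- **Step A** -/
theorem stepA {Λ Γ : Subgroup G} {Q : ℝ} (hcoc : Coc Λ Q) (hirr : Irr Γ Q)
    (hnorm : ∀ g ∈ Λ, ∀ γ ∈ Γ, g⁻¹ * γ * g ∈ Γ) {F : ℝ × ℝ → ℝ} (hF : Measurable F) {M : ℝ}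
    (hM : ∀ p, |F p| ≤ M) (hinv : ∀ γ ∈ Γ, Inv F γ) :
    ∀ᵐ τ : ℝ, ∀ᵐ x : ℝ, F (x, τ * x) = Bar F τ := by
  obtain ⟨c0, hc0, C1, hirr⟩ := hirr
  have key : ∀ R : ℝ, 0 ≤ R → ∫⁻ τ in Icc (-R) R,
      ∫⁻ p in box R, ‖F (p.2, τ * p.2) - F (p.1, τ * p.1)‖ₑ = 0 := by
    intro R hR
    obtain ⟨R1, hR1⟩ : ∃ R1, R1 = max R ((R + √C1 * R) / c0) := ⟨_, rfl⟩
    obtain ⟨R2, hR2⟩ : ∃ R2, R2 = max R1 (2 * √C1 * R1) := ⟨_, rfl⟩
    refine zero_of_le hF hF hM hM _ R R2 (C := ENNReal.ofReal (√C1) * 2)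
      (ENNReal.mul_ne_top ENNReal.ofReal_ne_top (by simp)) ?_
    intro t _
    refine Eventually.of_forall fun τ => ?_
    obtain ⟨c, g', hg', hc, hg⟩ := hcoc (a t * u τ)
    obtain ⟨γ, hγ, hk, hq⟩ := hirr c hc
    refine (stepA_pt hF t τ c g' γ hg (hinv _ (hnorm g' hg' γ hγ)) hc0 hk hq hR (R1 := R1) (R2 := R2)
      (by rw [hR1]; exact le_max_right _ _) (by rw [hR1]; exact le_max_left _ _)
      (by rw [hR2]; exact le_max_right _ _) (by rw [hR2]; exact le_max_left _ _)).trans ?_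
    exact mul_le_mul_right le_self_add _
  have hm0 : Measurable fun z : ℝ × (ℝ × ℝ) => ‖F (z.2.2, z.1 * z.2.2) - F (z.2.1, z.1 * z.2.1)‖ₑ :=
    ((hF.comp (by fun_prop)).sub (hF.comp (by fun_prop))).enorm
  have h2 : ∀ᵐ τ : ℝ, ∀ n : ℕ, |τ| ≤ n →
      ∫⁻ p in box n, ‖F (p.2, τ * p.2) - F (p.1, τ * p.1)‖ₑ = 0 := by
    rw [ae_all_iff]
    intro n
    have h3 := key n (Nat.cast_nonneg n)
    rw [lintegral_eq_zero_iff] at h3
    · rw [EventuallyEq, ae_restrict_iff' measurableSet_Icc] at h3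
      filter_upwards [h3] with τ hτ hn
      exact hτ (abs_le.1 hn)
    · exact hm0.lintegral_prod_right' (ν := volume.restrict (box n))
  filter_upwards [h2] with τ hτ
  have h3 : ∀ᵐ p : ℝ × ℝ, F (p.2, τ * p.2) = F (p.1, τ * p.1) := by
    have h4 : ∀ᵐ p : ℝ × ℝ, ∀ n : ℕ, |τ| ≤ n → p ∈ box n →
        F (p.2, τ * p.2) = F (p.1, τ * p.1) := by
      rw [ae_all_iff]
      intro n
      by_cases hn : |τ| ≤ n
      · have h5 := hτ n hn
        rw [lintegral_eq_zero_iff] at h5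
        · rw [EventuallyEq, ae_restrict_iff' (measurableSet_box _)] at h5
          filter_upwards [h5] with p hp _ hpb
          have := hp hpb
          simp only [Pi.zero_apply, enorm_eq_zero] at this
          exact sub_eq_zero.1 this
        · exact hm0.comp measurable_prodMk_left
      · exact Eventually.of_forall fun p h => absurd h hn
    filter_upwards [h4] with p hp
    obtain ⟨n, hn⟩ := exists_nat_ge (max |τ| (max |p.1| |p.2|))
    have hn1 : |p.1| ≤ n := (le_max_left _ _).trans ((le_max_right _ _).trans hn)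
    have hn2 : |p.2| ≤ n := (le_max_right _ _).trans ((le_max_right _ _).trans hn)
    exact hp n ((le_max_left _ _).trans hn) ⟨abs_le.1 hn1, abs_le.1 hn2⟩
  rw [Measure.volume_eq_prod] at h3
  have h4 := Measure.ae_ae_of_ae_prod h3
  filter_upwards [h4] with x hx
  unfold Bar
  have h5 : ∫ y in Icc (1 : ℝ) 2, F (y, τ * y) = ∫ _y in Icc (1 : ℝ) 2, F (x, τ * x) := by
    refine integral_congr_ae (ae_restrict_of_ae ?_)
    filter_upwards [hx] with y hy
    exact hy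
  rw [h5, setIntegral_const]
  simp
  norm_num

end Pool.Agent.E8helper85.NS
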