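import Mathlib

/-!
# Elementary facts about `SL(2, ℝ)`
-/

set_option autoImplicit false

namespace Pool.Agent.E8helper85.NS

open Real

/-- `SL(2, ℝ)` -/
abbrev G := Matrix.SpecialLinearGroup (Fin 2) ℝ

lemma det_eq (g : G) : g 0 0 * g 1 1 - g 0 1 * g 1 0 = 1 := by
  have h := g.2
  rw [Matrix.det_fin_two] at h
  exact h

lemma mul_00 (g h : G) : (g * h) 0 0 = g 0 0 * h 0 0 + g 0 1 * h 1 0 := by
  rw [Matrix.SpecialLinearGroup.coe_mul, Matrix.mul_apply, Fin.sum_univ_two]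
lemma mul_01 (g h : G) : (g * h) 0 1 = g 0 0 * h 0 1 + g 0 1 * h 1 1 := by
  rw [Matrix.SpecialLinearGroup.coe_mul, Matrix.mul_apply, Fin.sum_univ_two]
lemma mul_10 (g h : G) : (g * h) 1 0 = g 1 0 * h 0 0 + g 1 1 * h 1 0 := by
  rw [Matrix.SpecialLinearGroup.coe_mul, Matrix.mul_apply, Fin.sum_univ_two]
lemma mul_11 (g h : G) : (g * h) 1 1 = g 1 0 * h 0 1 + g 1 1 * h 1 1 := by
  rw [Matrix.SpecialLinearGroup.coe_mul, Matrix.mul_apply, Fin.sum_univ_two]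

lemma inv_00 (g : G) : (g⁻¹) 0 0 = g 1 1 := by
  rw [Matrix.SpecialLinearGroup.coe_inv, Matrix.adjugate_fin_two]; rfl
lemma inv_01 (g : G) : (g⁻¹) 0 1 = - g 0 1 := by
  rw [Matrix.SpecialLinearGroup.coe_inv, Matrix.adjugate_fin_two]; rfl
lemma inv_10 (g : G) : (g⁻¹) 1 0 = - g 1 0 := by
  rw [Matrix.SpecialLinearGroup.coe_inv, Matrix.adjugate_fin_two]; rfl
lemma inv_11 (g : G) : (g⁻¹) 1 1 = g 0 0 := by
  rw [Matrix.SpecialLinearGroup.coe_inv, Matrix.adjugate_fin_two]; rfl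

lemma ext_iff' {g h : G} :
    g = h ↔ g 0 0 = h 0 0 ∧ g 0 1 = h 0 1 ∧ g 1 0 = h 1 0 ∧ g 1 1 = h 1 1 := by
  constructor
  · rintro rfl; exact ⟨rfl, rfl, rfl, rfl⟩
  · rintro ⟨h1, h2, h3, h4⟩
    apply Matrix.SpecialLinearGroup.ext
    intro i j
    fin_cases i <;> fin_cases j <;> assumption

/-- the sum of the squares of the entries -/
noncomputable def q (g : G) : ℝ := g 0 0 ^ 2 + g 0 1 ^ 2 + g 1 0 ^ 2 + g 1 1 ^ 2

lemma q_nonneg (g : G) : 0 ≤ q g := by unfold q; positivity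

lemma two_le_q (g : G) : 2 ≤ q g := by
  have h := det_eq g
  unfold q
  nlinarith [sq_nonneg (g 0 0 - g 1 1), sq_nonneg (g 0 1 + g 1 0)]

lemma q_pos (g : G) : 0 < q g := lt_of_lt_of_le two_pos (two_le_q g)

lemma q_mul_le (g h : G) : q (g * h) ≤ q g * q h := by
  unfold q
  rw [mul_00, mul_01, mul_10, mul_11]
  nlinarith [sq_nonneg (g 0 0 * h 1 0 - g 0 1 * h 0 0), sq_nonneg (g 0 0 * h 1 1 - g 0 1 * h 0 1),
    sq_nonneg (g 1 0 * h 1 0 - g 1 1 * h 0 0), sq_nonneg (g 1 0 * h 1 1 - g 1 1 * h 0 1)]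

lemma q_inv (g : G) : q g⁻¹ = q g := by
  unfold q
  rw [inv_00, inv_01, inv_10, inv_11]
  ring

lemma q_one : q 1 = 2 := by
  unfold q
  simp
  norm_num

lemma abs_entry_le (g : G) (i j : Fin 2) : |g i j| ≤ √(q g) := by
  apply Real.abs_le_sqrt
  unfold q
  fin_cases i <;> fin_cases j <;> simp <;> nlinarith [sq_nonneg (g 0 0), sq_nonneg (g 0 1), sq_nonneg (g 1 0), sq_nonneg (g 1 1)]

/-- the horocycle flow -/
noncomputable def u (t : ℝ) : G := ⟨!![1, t; 0, 1], by simp [Matrix.det_fin_two]⟩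
/-- the opposite horocycle flow -/
noncomputable def v (t : ℝ) : G := ⟨!![1, 0; t, 1], by simp [Matrix.det_fin_two]⟩
/-- diagonal matrices -/
noncomputable def dg (x : ℝ) (hx : x ≠ 0) : G :=
  ⟨!![x, 0; 0, x⁻¹], by simp [Matrix.det_fin_two, hx]⟩
/-- the geodesic flow -/
noncomputable def a (s : ℝ) : G :=
  ⟨!![exp (s / 2), 0; 0, exp (-(s / 2))], by simp [Matrix.det_fin_two, ← Real.exp_add]⟩
/-- the flip -/
noncomputable def w : G := ⟨!![0, 1; -1, 0], by simp [Matrix.det_fin_two]⟩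

@[simp] lemma u_00 (t : ℝ) : (u t) 0 0 = 1 := rfl
@[simp] lemma u_01 (t : ℝ) : (u t) 0 1 = t := rfl
@[simp] lemma u_10 (t : ℝ) : (u t) 1 0 = 0 := rfl
@[simp] lemma u_11 (t : ℝ) : (u t) 1 1 = 1 := rfl
@[simp] lemma v_00 (t : ℝ) : (v t) 0 0 = 1 := rfl
@[simp] lemma v_01 (t : ℝ) : (v t) 0 1 = 0 := rfl
@[simp] lemma v_10 (t : ℝ) : (v t) 1 0 = t := rfl
@[simp] lemma v_11 (t : ℝ) : (v t) 1 1 = 1 := rfl
@[simp] lemma a_00 (s : ℝ) : (a s) 0 0 = exp (s / 2) := rfl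
@[simp] lemma a_01 (s : ℝ) : (a s) 0 1 = 0 := rfl
@[simp] lemma a_10 (s : ℝ) : (a s) 1 0 = 0 := rfl
@[simp] lemma a_11 (s : ℝ) : (a s) 1 1 = exp (-(s / 2)) := rfl
@[simp] lemma dg_00 (x : ℝ) (hx : x ≠ 0) : (dg x hx) 0 0 = x := rfl
@[simp] lemma dg_01 (x : ℝ) (hx : x ≠ 0) : (dg x hx) 0 1 = 0 := rfl
@[simp] lemma dg_10 (x : ℝ) (hx : x ≠ 0) : (dg x hx) 1 0 = 0 := rfl
@[simp] lemma dg_11 (x : ℝ) (hx : x ≠ 0) : (dg x hx) 1 1 = x⁻¹ := rfl
@[simp] lemma w_00 : w 0 0 = 0 := rfl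
@[simp] lemma w_01 : w 0 1 = 1 := rfl
@[simp] lemma w_10 : w 1 0 = -1 := rfl
@[simp] lemma w_11 : w 1 1 = 0 := rfl
@[simp] lemma one_00 : (1 : G) 0 0 = 1 := rfl
@[simp] lemma one_01 : (1 : G) 0 1 = 0 := rfl
@[simp] lemma one_10 : (1 : G) 1 0 = 0 := rfl
@[simp] lemma one_11 : (1 : G) 1 1 = 1 := rfl

lemma u_add (s t : ℝ) : u (s + t) = u s * u t := by
  rw [ext_iff', mul_00, mul_01, mul_10, mul_11]; simp [add_comm]
lemma v_add (s t : ℝ) : v (s + t) = v s * v t := by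
  rw [ext_iff', mul_00, mul_01, mul_10, mul_11]; simp [add_comm]
lemma u_zero : u 0 = 1 := by rw [ext_iff']; simp
lemma v_zero : v 0 = 1 := by rw [ext_iff']; simp
lemma a_zero : a 0 = 1 := by rw [ext_iff']; simp
lemma u_neg (t : ℝ) : u (-t) = (u t)⁻¹ := by
  rw [ext_iff', inv_00, inv_01, inv_10, inv_11]; simp
lemma v_neg (t : ℝ) : v (-t) = (v t)⁻¹ := by
  rw [ext_iff', inv_00, inv_01, inv_10, inv_11]; simp
lemma a_neg (t : ℝ) : a (-t) = (a t)⁻¹ := by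
  rw [ext_iff', inv_00, inv_01, inv_10, inv_11]; simp [neg_div]
lemma a_add (s t : ℝ) : a (s + t) = a s * a t := by
  rw [ext_iff', mul_00, mul_01, mul_10, mul_11]
  simp only [a_00, a_01, a_10, a_11, ← Real.exp_add, mul_zero, zero_mul, add_zero, zero_add]
  refine ⟨?_, trivial, trivial, ?_⟩ <;> congr 1 <;> ring

lemma a_mul_u (s t : ℝ) : a s * u t = u (exp s * t) * a s := by
  rw [ext_iff', mul_00, mul_01, mul_10, mul_11, mul_00, mul_01, mul_10, mul_11]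
  simp only [a_00, a_01, a_10, a_11, u_00, u_01, u_10, u_11]
  refine ⟨by ring, ?_, by ring, by ring⟩
  have : exp (s / 2) = exp s * exp (-(s / 2)) := by rw [← Real.exp_add]; congr 1; ring
  rw [this]; ring

lemma a_mul_v (s t : ℝ) : a s * v t = v (exp (-s) * t) * a s := by
  rw [ext_iff', mul_00, mul_01, mul_10, mul_11, mul_00, mul_01, mul_10, mul_11]
  simp only [a_00, a_01, a_10, a_11, v_00, v_01, v_10, v_11]
  refine ⟨by ring, by ring, ?_, by ring⟩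
  have : exp (-(s / 2)) = exp (-s) * exp (s / 2) := by rw [← Real.exp_add]; congr 1; ring
  rw [this]; ring

lemma a_neg_mul_v (r τ : ℝ) : a (-r) * v τ = w * (a r * u (-τ)) * w⁻¹ := by
  rw [ext_iff', mul_00, mul_01, mul_10, mul_11, mul_00, mul_01, mul_10, mul_11]
  simp only [mul_00, mul_01, mul_10, mul_11, inv_00, inv_01, inv_10, inv_11,
    a_00, a_01, a_10, a_11, v_00, v_01, v_10, v_11, u_00, u_01, u_10, u_11,
    w_00, w_01, w_10, w_11]
  have h1 : -(-r / 2) = r / 2 := by ring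
  have h2 : -r / 2 = -(r / 2) := by ring
  rw [h1, h2]
  refine ⟨by ring, by ring, by ring, by ring⟩

lemma q_u (t : ℝ) : q (u t) = 2 + t ^ 2 := by unfold q; simp; ring
lemma q_v (t : ℝ) : q (v t) = 2 + t ^ 2 := by unfold q; simp; ring
lemma q_w : q w = 2 := by unfold q; simp; norm_num
lemma q_a (s : ℝ) : q (a s) = exp s + exp (-s) := by
  unfold q
  simp only [a_00, a_01, a_10, a_11]
  rw [← Real.exp_nat_mul, ← Real.exp_nat_mul]
  have h1 : ((2 : ℕ) : ℝ) * (s / 2) = s := by push_cast; ring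
  have h2 : ((2 : ℕ) : ℝ) * (-(s / 2)) = -s := by push_cast; ring
  rw [h1, h2]; ring

/-- decomposition of an element near the unipotent group -/
lemma u_mul_eq (t : ℝ) (h : G) (hx : h 0 0 + t * h 1 0 ≠ 0) :
    u t * h = v (h 1 0 / (h 0 0 + t * h 1 0)) * dg (h 0 0 + t * h 1 0) hx *
      u ((h 0 1 + t * h 1 1) / (h 0 0 + t * h 1 0)) := by
  have hd := det_eq h
  obtain ⟨x, hxx⟩ : ∃ x, x = h 0 0 + t * h 1 0 := ⟨_, rfl⟩
  rw [ext_iff', mul_00, mul_01, mul_10, mul_11, mul_00, mul_01, mul_10, mul_11]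
  simp only [mul_00, mul_01, mul_10, mul_11, dg_00, dg_01, dg_10, dg_11,
    v_00, v_01, v_10, v_11, u_00, u_01, u_10, u_11]
  rw [← hxx] at hx ⊢
  refine ⟨by rw [hxx]; ring, ?_, ?_, ?_⟩
  · field_simp; ring
  · field_simp; ring
  · field_simp
    rw [hxx]
    linear_combination hd

lemma a_mul_dg (s x : ℝ) (hx : x ≠ 0) : a s * dg x hx = dg x hx * a s := by
  rw [ext_iff', mul_00, mul_01, mul_10, mul_11, mul_00, mul_01, mul_10, mul_11]
  simp only [dg_00, dg_01, dg_10, dg_11, a_00, a_01, a_10, a_11]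
  refine ⟨by ring, by ring, by ring, by ring⟩

end Pool.Agent.E8helper85.NS
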