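import Pool.Agent.E8helper85.NS.Mom2

/-!
# Squashability: weak limits and real ergodic integrals
-/

set_option autoImplicit false

open MeasureTheory Filter Topology Set
open scoped ENNReal NNReal InnerProductSpace

namespace Pool.Agent.E8helper85.NS

lemma weak_lim {H : Type*} [NormedAddCommGroup H] [InnerProductSpace ℝ H] [CompleteSpace H]
    (v : ℕ → H) (R : ℝ) (hv : ∀ n, ‖v n‖ ≤ R) :
    ∃ Φ : H, ∀ g : H, Tendsto (fun n => ⟪v n, g⟫_ℝ) (hyperfilter ℕ : Filter ℕ) (𝓝 ⟪Φ, g⟫_ℝ) := by
  have hc := WeakDual.isCompact_closedBall (𝕜 := ℝ) (E := H) 0 R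
  set vn : ℕ → WeakDual ℝ H := fun n => StrongDual.toWeakDual (InnerProductSpace.toDual ℝ H (v n))
    with hvn
  have hmem : ∀ n, vn n ∈ WeakDual.toStrongDual ⁻¹' Metric.closedBall (0 : StrongDual ℝ H) R := by
    intro n
    rw [mem_preimage, mem_closedBall_zero_iff]
    have : WeakDual.toStrongDual (vn n) = InnerProductSpace.toDual ℝ H (v n) := rfl
    rw [this, LinearIsometryEquiv.norm_map]
    exact hv n
  obtain ⟨L, _, hL⟩ := hc.ultrafilter_le_nhds ((hyperfilter ℕ).map vn) (by
    rw [le_principal_iff, Ultrafilter.coe_map, Filter.mem_map]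
    exact Filter.Eventually.of_forall hmem)
  refine ⟨(InnerProductSpace.toDual ℝ H).symm (WeakDual.toStrongDual L), fun g => ?_⟩
  have h1 : Tendsto vn (hyperfilter ℕ : Filter ℕ) (𝓝 L) := hL
  have h2 := ((WeakDual.eval_continuous g).tendsto L).comp h1
  have h3 : ⟪(InnerProductSpace.toDual ℝ H).symm (WeakDual.toStrongDual L), g⟫_ℝ = L g := by
    rw [InnerProductSpace.toDual_symm_apply]; rfl
  rw [h3]
  refine h2.congr fun n => ?_
  simp only [Function.comp_apply, hvn]
  exact InnerProductSpace.toDual_apply_apply ..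

section

variable {X : Type*} [MeasurableSpace X] [MulAction G X] [MeasurableSMul₂ G X]
  {μ : Measure X} [SFinite μ] [SMulInvariantMeasure G X μ]

/-- real ergodic integrals -/
noncomputable def Kr (f : X → ℝ) (T : ℝ) (x : X) : ℝ := ∫ t in Icc (-T) T, f (u t • x)

/-- weight, real version -/
structure RW (μ : Measure X) (ω : X → ℝ) : Prop where
  meas : Measurable ω
  pos : ∀ x, 0 < ω x
  le_one : ∀ x, ω x ≤ 1
  int : Integrable ω μ
  trans : ∀ r : ℝ, ∃ C : ℝ, ∀ x, ω (u r • x) ≤ C * ω x

/-- functions dominated by the weight -/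
structure Dom (ω : X → ℝ) (f : X → ℝ) (M : ℝ) : Prop where
  meas : Measurable f
  bd : ∀ x, |f x| ≤ M * ω x

omit [MulAction G X] [MeasurableSMul₂ G X] [SFinite μ] [SMulInvariantMeasure G X μ] in
lemma Dom.nonneg {ω f : X → ℝ} {M : ℝ} (hf : Dom ω f M) (hω : ∀ x, 0 < ω x) (x : X) : 0 ≤ M := by
  have h1 := hf.bd x
  have h2 := abs_nonneg (f x)
  have h3 := hω x
  by_contra hM
  push Not at hM
  nlinarith

lemma measurable_orbit_r {f : X → ℝ} (hf : Measurable f) (x : X) :
    Measurable fun t : ℝ => f (u t • x) :=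
  hf.comp (continuous_u.measurable.smul_const x)

lemma measurable_uncurry_r {f : X → ℝ} (hf : Measurable f) :
    Measurable fun z : ℝ × X => f (u z.1 • z.2) :=
  hf.comp (measurable_smul.comp ((continuous_u.measurable.comp measurable_fst).prodMk
    measurable_snd))

lemma measurable_Kr {f : X → ℝ} (hf : Measurable f) (T : ℝ) : Measurable (Kr f T) := by
  unfold Kr
  have h : StronglyMeasurable fun z : X × ℝ => f (u z.2 • z.1) :=
    ((measurable_uncurry_r hf).comp measurable_swap).stronglyMeasurable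
  exact (h.integral_prod_right' (ν := volume.restrict (Icc (-T) T))).measurable

lemma orbit_int {f : X → ℝ} (hf : Measurable f) {M : ℝ} (hM : ∀ x, |f x| ≤ M) (x : X)
    {s : Set ℝ} (hs : volume s < ∞) : IntegrableOn (fun t : ℝ => f (u t • x)) s := by
  have : IsFiniteMeasure (volume.restrict s) := ⟨by rwa [Measure.restrict_apply_univ]⟩
  exact Measure.integrableOn_of_bounded (M := M) hs.ne
    (measurable_orbit_r hf x).aestronglyMeasurable (Eventually.of_forall fun t => hM _)

lemma abs_Kr_le {ω f : X → ℝ} (hω : RW μ ω) {M : ℝ} (hf : Dom ω f M) (T : ℝ) (x : X) :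
    |Kr f T x| ≤ M * Kr ω T x := by
  unfold Kr
  rw [← integral_const_mul, ← Real.norm_eq_abs]
  refine norm_integral_le_of_norm_le ?_ (Eventually.of_forall fun t => hf.bd _)
  refine Integrable.const_mul ?_ M
  exact orbit_int hω.meas (M := 1) (fun x => by
    rw [abs_of_pos (hω.pos x)]; exact hω.le_one x) x (by simp)

lemma Dom.abs_le {ω f : X → ℝ} (hω : RW μ ω) {M : ℝ} (hf : Dom ω f M) (x : X) : |f x| ≤ M := by
  have h1 := hf.nonneg hω.pos x
  exact (hf.bd x).trans (mul_le_of_le_one_right h1 (hω.le_one x))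

/-- almost invariance -/
lemma Kr_shift {ω f : X → ℝ} (hω : RW μ ω) {M : ℝ} (hf : Dom ω f M) {T : ℝ} (hT : 0 < T) (r : ℝ)
    (x : X) : |Kr f T (u r • x) - Kr f T x| ≤ 2 * |r| * M := by
  have hM := hf.abs_le hω
  have hint : ∀ a b : ℝ, IntervalIntegrable (fun t : ℝ => f (u t • x)) volume a b := by
    intro a b
    rw [intervalIntegrable_iff]
    exact orbit_int hf.meas hM x (by simp [uIoc])
  have hK : ∀ y, Kr f T y = ∫ t in (-T)..T, f (u t • y) := by
    intro y
    unfold Kr
    rw [intervalIntegral.integral_of_le (by linarith), integral_Icc_eq_integral_Ioc]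
  have h1 : Kr f T (u r • x) = ∫ t in (-T + r)..(T + r), f (u t • x) := by
    rw [hK, ← intervalIntegral.integral_comp_add_right (fun t => f (u t • x)) r]
    refine intervalIntegral.integral_congr fun t _ => ?_
    rw [← mul_smul, ← u_add]
  have h2 : (∫ t in (-T + r)..(T + r), f (u t • x)) - ∫ t in (-T)..T, f (u t • x) =
      (∫ t in T..(T + r), f (u t • x)) - ∫ t in (-T)..(-T + r), f (u t • x) := by
    have e1 := intervalIntegral.integral_add_adjacent_intervals (hint (-T) (-T + r))
      (hint (-T + r) (T + r))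
    have e2 := intervalIntegral.integral_add_adjacent_intervals (hint (-T) T) (hint T (T + r))
    linarith
  rw [h1, hK, h2]
  have h3 : ∀ a b : ℝ, |∫ t in a..b, f (u t • x)| ≤ M * |b - a| := by
    intro a b
    exact intervalIntegral.norm_integral_le_of_norm_le_const
      (f := fun t => f (u t • x)) fun t _ => hM _
  have h4 := h3 T (T + r)
  have h5 := h3 (-T) (-T + r)
  have e1 : T + r - T = r := by ring
  have e2 : -T + r - -T = r := by ring
  rw [e1] at h4
  rw [e2] at h5
  calc |(∫ t in T..(T + r), f (u t • x)) - ∫ t in (-T)..(-T + r), f (u t • x)|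
      ≤ |∫ t in T..(T + r), f (u t • x)| + |∫ t in (-T)..(-T + r), f (u t • x)| := abs_sub _ _
    _ ≤ M * |r| + M * |r| := add_le_add h4 h5
    _ = 2 * |r| * M := by ring

/-- symmetry of the bilinear form -/
lemma Kr_symm {ω f g : X → ℝ} (hω : RW μ ω) {M M' : ℝ} (hf : Dom ω f M) (hg : Dom ω g M')
    (T : ℝ) : ∫ x, g x * Kr f T x ∂μ = ∫ x, f x * Kr g T x ∂μ := by
  have hM := hf.abs_le hω
  have hM' := hg.abs_le hω
  -- integrability on the product
  have key : ∀ {f g : X → ℝ} {M M' : ℝ}, Dom ω f M → Dom ω g M' →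
      Integrable (fun z : X × ℝ => g z.1 * f (u z.2 • z.1)) (μ.prod (volume.restrict (Icc (-T) T))) := by
    intro f g M M' hf hg
    have h1 : Integrable (fun z : X × ℝ => (M' * ω z.1) * M)
        (μ.prod (volume.restrict (Icc (-T) T))) := by
      refine Integrable.mul_const ?_ M
      have : IsFiniteMeasure (volume.restrict (Icc (-T) T)) := ⟨by simp⟩
      exact (hω.int.const_mul M').comp_fst _
    refine h1.mono' ?_ (Eventually.of_forall fun z => ?_)
    · exact ((hg.meas.comp measurable_fst).mul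
        ((measurable_uncurry_r hf.meas).comp measurable_swap)).aestronglyMeasurable
    · rw [Real.norm_eq_abs, abs_mul]
      have h2 := hf.nonneg hω.pos z.1
      have h3 := hg.bd z.1
      exact mul_le_mul h3 (hf.abs_le hω _) (abs_nonneg _) ((abs_nonneg _).trans h3)
  have h1 : ∫ x, g x * Kr f T x ∂μ = ∫ t in Icc (-T) T, (∫ x, g x * f (u t • x) ∂μ) := by
    rw [← integral_integral_swap (f := fun x t => g x * f (u t • x)) (key hf hg)]
    refine integral_congr_ae (Eventually.of_forall fun x => ?_)
    simp only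
    unfold Kr
    rw [integral_const_mul]
  have h2 : ∫ x, f x * Kr g T x ∂μ = ∫ t in Icc (-T) T, (∫ x, f x * g (u t • x) ∂μ) := by
    rw [← integral_integral_swap (f := fun x t => f x * g (u t • x)) (key hg hf)]
    refine integral_congr_ae (Eventually.of_forall fun x => ?_)
    simp only
    unfold Kr
    rw [integral_const_mul]
  have h3 : ∀ t, ∫ x, f x * g (u t • x) ∂μ = ∫ x, g x * f (u (-t) • x) ∂μ := by
    intro t
    rw [← integral_smul_eq_self (μ := μ) (fun x => g x * f (u (-t) • x)) (g := u t)]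
    refine integral_congr_ae (Eventually.of_forall fun x => ?_)
    simp only
    rw [← mul_smul, ← u_add, neg_add_cancel, u_zero, one_smul, mul_comm]
  rw [h1, h2]
  simp_rw [h3]
  rw [← integral_indicator measurableSet_Icc, ← integral_indicator measurableSet_Icc]
  rw [← integral_neg_eq_self]
  refine integral_congr_ae (Eventually.of_forall fun t => ?_)
  simp only
  by_cases ht : t ∈ Icc (-T) T
  · have ht' : -t ∈ Icc (-T) T := ⟨by linarith [ht.2], by linarith [ht.1]⟩
    rw [indicator_of_mem ht, indicator_of_mem ht']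
  · have ht' : -t ∉ Icc (-T) T := fun hc =>
      ht ⟨by linarith [hc.2], by linarith [hc.1]⟩
    rw [indicator_of_notMem ht, indicator_of_notMem ht']

end

end Pool.Agent.E8helper85.NS
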