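import Pool.Agent.E8helper85.NS.Sq1

/-!
# Squashability: the limit of the bilinear forms
-/

set_option autoImplicit false

open MeasureTheory Filter Topology Set
open scoped ENNReal NNReal InnerProductSpace

namespace Pool.Agent.E8helper85.NS

section

variable {X : Type*} [MeasurableSpace X] {μ : Measure X}

lemma inner_Lp (Ψ : Lp ℝ 2 μ) {g : X → ℝ} (hg : MemLp g 2 μ) :
    ⟪Ψ, hg.toLp g⟫_ℝ = ∫ x, Ψ x * g x ∂μ := by
  rw [L2.inner_def]
  refine integral_congr_ae ?_
  filter_upwards [hg.coeFn_toLp] with x hx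
  rw [hx]
  simp [mul_comm]

lemma inner_toLp {f g : X → ℝ} (hf : MemLp f 2 μ) (hg : MemLp g 2 μ) :
    ⟪hf.toLp f, hg.toLp g⟫_ℝ = ∫ x, f x * g x ∂μ := by
  rw [inner_Lp]
  refine integral_congr_ae ?_
  filter_upwards [hf.coeFn_toLp] with x hx
  rw [hx]

end

section

variable {X : Type*} [MeasurableSpace X] [MulAction G X] [MeasurableSMul₂ G X]
  {μ : Measure X} [SFinite μ] [SMulInvariantMeasure G X μ]

/-- moment bound, real version -/
structure Mo (μ : Measure X) (ω : X → ℝ) (C : ℝ) (T : ℕ → ℝ) : Prop where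
  Tpos : ∀ n, 0 < T n
  apos : ∀ n, 0 < ∫ x, ω x * Kr ω (T n) x ∂μ
  lim : Tendsto (fun n => ∫ x, ω x * Kr ω (T n) x ∂μ) atTop atTop
  int : ∀ n, Integrable (fun x => ω x * Kr ω (T n) x ^ 2) μ
  le : ∀ n, ∫ x, ω x * Kr ω (T n) x ^ 2 ∂μ ≤ C * (∫ x, ω x * Kr ω (T n) x ∂μ) ^ 2

/-- ergodicity -/
def Erg (μ : Measure X) : Prop := ∀ f : X → ℝ, AEMeasurable f μ →
  (∀ t : ℝ, ∀ᵐ x ∂μ, f (u t • x) = f x) → ∃ c, ∀ᵐ x ∂μ, f x = c

omit [MulAction G X] [MeasurableSMul₂ G X] [SFinite μ] [SMulInvariantMeasure G X μ] in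
lemma Dom.integrable {ω f : X → ℝ} (hint : Integrable ω μ) {M : ℝ} (hf : Dom ω f M) :
    Integrable f μ :=
  (hint.const_mul M).mono' hf.meas.aestronglyMeasurable
    (Eventually.of_forall fun x => hf.bd x)

lemma Dom.memLp {ω g : X → ℝ} (hω : RW μ ω) {M : ℝ} (hg : Dom ω g M) :
    MemLp (fun x => g x / √(ω x)) 2 μ := by
  have hm : Measurable fun x => g x / √(ω x) := hg.meas.div hω.meas.sqrt
  rw [memLp_two_iff_integrable_sq hm.aestronglyMeasurable]
  refine (hω.int.const_mul (M ^ 2)).mono' (hm.pow_const 2).aestronglyMeasurable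
    (Eventually.of_forall fun x => ?_)
  have h1 := hω.pos x
  rw [Real.norm_eq_abs, abs_of_nonneg (sq_nonneg _), div_pow, Real.sq_sqrt h1.le,
    div_le_iff₀ h1, ← sq_abs]
  have h2 := hg.bd x
  calc |g x| ^ 2 ≤ (M * ω x) ^ 2 := by gcongr
    _ = M ^ 2 * ω x * ω x := by ring

theorem lim_beta (herg : Erg μ) {ω : X → ℝ} (hω : RW μ ω) {C : ℝ} {T : ℕ → ℝ}
    (hmo : Mo μ ω C T) {f : X → ℝ} {M : ℝ} (hf : Dom ω f M) :
    ∃ κ : ℝ, ∀ (g : X → ℝ) (M' : ℝ), Dom ω g M' →
      Tendsto (fun n => (∫ x, ω x * Kr ω (T n) x ∂μ)⁻¹ * ∫ x, g x * Kr f (T n) x ∂μ)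
        (hyperfilter ℕ : Filter ℕ) (𝓝 (κ * ∫ x, g x ∂μ)) := by
  obtain ⟨an, han⟩ : ∃ an : ℕ → ℝ, an = fun n => ∫ x, ω x * Kr ω (T n) x ∂μ := ⟨_, rfl⟩
  have hapos : ∀ n, 0 < an n := by rw [han]; exact hmo.apos
  have halim : Tendsto an atTop atTop := by rw [han]; exact hmo.lim
  have hale : ∀ n, ∫ x, ω x * Kr ω (T n) x ^ 2 ∂μ ≤ C * (an n) ^ 2 := by rw [han]; exact hmo.le
  have han' : ∀ n, (∫ x, ω x * Kr ω (T n) x ∂μ) = an n := fun n => by rw [han]
  simp_rw [han']
  have hmK : ∀ n, Measurable (Kr f (T n)) := fun n => measurable_Kr hf.meas _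
  -- the functions in `L²`
  have hVm : ∀ n, Measurable fun x => √(ω x) * Kr f (T n) x / an n := fun n =>
    ((hω.meas.sqrt).mul (hmK n)).div_const _
  have hVle : ∀ n x, (√(ω x) * Kr f (T n) x / an n) ^ 2 ≤
      M ^ 2 / (an n) ^ 2 * (ω x * Kr ω (T n) x ^ 2) := by
    intro n x
    have h1 := hω.pos x
    have h2 := abs_Kr_le hω hf (T n) x
    rw [div_pow, mul_pow, Real.sq_sqrt h1.le]
    have h3 : Kr f (T n) x ^ 2 ≤ M ^ 2 * Kr ω (T n) x ^ 2 := by
      rw [← sq_abs (Kr f (T n) x), ← mul_pow]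
      exact pow_le_pow_left₀ (abs_nonneg _) h2 2
    have h4 : 0 < (an n) ^ 2 := pow_pos (hapos n) 2
    rw [div_mul_eq_mul_div, div_le_div_iff_of_pos_right h4]
    nlinarith
  have hVint : ∀ n, Integrable (fun x => (√(ω x) * Kr f (T n) x / an n) ^ 2) μ := by
    intro n
    refine ((hmo.int n).const_mul (M ^ 2 / (an n) ^ 2)).mono'
      ((hVm n).pow_const 2).aestronglyMeasurable (Eventually.of_forall fun x => ?_)
    rw [Real.norm_eq_abs, abs_of_nonneg (sq_nonneg _)]
    exact hVle n x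
  have hV : ∀ n, MemLp (fun x => √(ω x) * Kr f (T n) x / an n) 2 μ := fun n =>
    (memLp_two_iff_integrable_sq (hVm n).aestronglyMeasurable).2 (hVint n)
  have hnorm : ∀ n, ‖(hV n).toLp _‖ ≤ √(M ^ 2 * C) := by
    intro n
    refine Real.le_sqrt_of_sq_le ?_
    rw [← real_inner_self_eq_norm_sq, inner_toLp]
    calc ∫ x, (√(ω x) * Kr f (T n) x / an n) * (√(ω x) * Kr f (T n) x / an n) ∂μ
        = ∫ x, (√(ω x) * Kr f (T n) x / an n) ^ 2 ∂μ := by
          refine integral_congr_ae (Eventually.of_forall fun x => ?_)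
          simp only; ring
      _ ≤ ∫ x, M ^ 2 / (an n) ^ 2 * (ω x * Kr ω (T n) x ^ 2) ∂μ :=
          integral_mono (hVint n) ((hmo.int n).const_mul _) (hVle n)
      _ = M ^ 2 / (an n) ^ 2 * ∫ x, ω x * Kr ω (T n) x ^ 2 ∂μ := integral_const_mul _ _
      _ ≤ M ^ 2 / (an n) ^ 2 * (C * (an n) ^ 2) :=
          mul_le_mul_of_nonneg_left (hale n) (by positivity)
      _ = M ^ 2 * C := by have := (hapos n).ne'; field_simp
  obtain ⟨Ψ, hΨ⟩ := weak_lim (fun n => (hV n).toLp _) _ hnorm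
  have hΨm : Measurable (Ψ : X → ℝ) := (Lp.stronglyMeasurable Ψ).measurable
  obtain ⟨Φ, hΦdef⟩ : ∃ Φ : X → ℝ, Φ = fun x => Ψ x / √(ω x) := ⟨_, rfl⟩
  have hΦm : Measurable Φ := by rw [hΦdef]; exact hΨm.div hω.meas.sqrt
  -- the limits
  have hlim : ∀ (g : X → ℝ) (M' : ℝ), Dom ω g M' →
      Integrable (fun x => g x * Φ x) μ ∧
      Tendsto (fun n => (an n)⁻¹ * ∫ x, g x * Kr f (T n) x ∂μ)
        (hyperfilter ℕ : Filter ℕ) (𝓝 (∫ x, g x * Φ x ∂μ)) := by
    intro g M' hg
    have hgL := hg.memLp hω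
    have h1 := hΨ (hgL.toLp _)
    rw [inner_Lp] at h1
    have e0 : ∀ x, Ψ x * (g x / √(ω x)) = g x * Φ x := by
      intro x; rw [hΦdef]; ring
    simp_rw [e0] at h1
    refine ⟨?_, ?_⟩
    · have h2 := (Lp.memLp Ψ).integrable_mul hgL
      refine h2.congr (Eventually.of_forall fun x => ?_)
      exact e0 x
    · refine h1.congr fun n => ?_
      rw [inner_toLp, ← integral_const_mul]
      refine integral_congr_ae (Eventually.of_forall fun x => ?_)
      simp only
      have h3 : 0 < √(ω x) := Real.sqrt_pos.2 (hω.pos x)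
      field_simp
  -- invariance
  have hinv : ∀ r : ℝ, ∀ᵐ x ∂μ, Φ (u r • x) = Φ x := by
    intro r
    have hcomp : Measurable fun x : X => u r • x := measurable_const_smul _
    -- main identity
    have hid : ∀ (g : X → ℝ) (M' : ℝ), Dom ω g M' →
        Integrable (fun x => g x * Φ (u r • x)) μ ∧
        ∫ x, g x * Φ (u r • x) ∂μ = ∫ x, g x * Φ x ∂μ := by
      intro g M' hg
      obtain ⟨Cr, hCr⟩ := hω.trans (-r)
      have hg' : Dom ω (fun x => g (u (-r) • x)) (M' * Cr) := by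
        refine ⟨hg.meas.comp (measurable_const_smul _), fun x => ?_⟩
        calc |g (u (-r) • x)| ≤ M' * ω (u (-r) • x) := hg.bd _
          _ ≤ M' * (Cr * ω x) := mul_le_mul_of_nonneg_left (hCr x) (hg.nonneg hω.pos x)
          _ = M' * Cr * ω x := by ring
      obtain ⟨hi1, hl1⟩ := hlim _ _ hg'
      obtain ⟨hi2, hl2⟩ := hlim _ _ hg
      have hu : ∀ x : X, u (-r) • u r • x = x := by
        intro x; rw [← mul_smul, ← u_add, neg_add_cancel, u_zero, one_smul]
      have hint' : Integrable (fun x => g x * Φ (u r • x)) μ := by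
        have h1 := (measurePreserving_smul (u r) μ).integrable_comp_of_integrable hi1
        refine h1.congr (Eventually.of_forall fun x => ?_)
        simp only [Function.comp_apply]
        rw [hu]
      refine ⟨hint', ?_⟩
      have e1 : ∫ x, g x * Φ (u r • x) ∂μ = ∫ x, g (u (-r) • x) * Φ x ∂μ := by
        rw [← integral_smul_eq_self (μ := μ) (fun x => g (u (-r) • x) * Φ x) (g := u r)]
        refine integral_congr_ae (Eventually.of_forall fun x => ?_)
        simp only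
        rw [hu]
      rw [e1]
      -- the difference of the forms tends to zero
      have hgi := hg.integrable hω.int
      have e2 : ∀ n, |(an n)⁻¹ * ∫ x, g (u (-r) • x) * Kr f (T n) x ∂μ -
          (an n)⁻¹ * ∫ x, g x * Kr f (T n) x ∂μ| ≤
          (an n)⁻¹ * (2 * |r| * M * ∫ x, |g x| ∂μ) := by
        intro n
        have e3 : ∫ x, g (u (-r) • x) * Kr f (T n) x ∂μ =
            ∫ x, g x * Kr f (T n) (u r • x) ∂μ := by
          rw [← integral_smul_eq_self (μ := μ) (fun x => g (u (-r) • x) * Kr f (T n) x) (g := u r)]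
          refine integral_congr_ae (Eventually.of_forall fun x => ?_)
          simp only
          rw [hu]
        have hKb : ∀ y, |Kr f (T n) y| ≤ M * (2 * T n) := by
          intro y
          unfold Kr
          have := norm_setIntegral_le_of_norm_le_const (μ := volume) (s := Icc (-(T n)) (T n))
            (f := fun t => f (u t • y)) (C := M) (by simp) (fun t _ => hf.abs_le hω _)
          refine this.trans (le_of_eq ?_)
          rw [measureReal_def, Real.volume_Icc, ENNReal.toReal_ofReal (by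
            have := hmo.Tpos n; linarith)]
          ring
        have hi3 : Integrable (fun x => g x * Kr f (T n) x) μ := by
          have := hgi.bdd_mul (f := Kr f (T n)) (hmK n).aestronglyMeasurable
            (Eventually.of_forall hKb)
          refine this.congr (Eventually.of_forall fun x => ?_)
          simp only; ring
        have hi4 : Integrable (fun x => g x * Kr f (T n) (u r • x)) μ := by
          have := hgi.bdd_mul (f := fun x => Kr f (T n) (u r • x))
            ((hmK n).comp hcomp).aestronglyMeasurable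
            (Eventually.of_forall fun x => hKb _)
          refine this.congr (Eventually.of_forall fun x => ?_)
          simp only; ring
        rw [e3, ← mul_sub, ← integral_sub hi4 hi3, abs_mul, abs_of_pos (inv_pos.2 (hapos n))]
        refine mul_le_mul_of_nonneg_left ?_ (inv_pos.2 (hapos n)).le
        rw [← integral_const_mul, ← Real.norm_eq_abs]
        refine norm_integral_le_of_norm_le (hgi.abs.const_mul _) (Eventually.of_forall fun x => ?_)
        rw [← mul_sub, Real.norm_eq_abs, abs_mul, mul_comm]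
        exact mul_le_mul_of_nonneg_right (Kr_shift hω hf (hmo.Tpos n) r x) (abs_nonneg _)
      have e4 : Tendsto (fun n => (an n)⁻¹ * (2 * |r| * M * ∫ x, |g x| ∂μ))
          (hyperfilter ℕ : Filter ℕ) (𝓝 0) := by
        have := (tendsto_inv_atTop_zero.comp halim).mul_const (2 * |r| * M * ∫ x, |g x| ∂μ)
        rw [zero_mul] at this
        exact this.mono_left Nat.hyperfilter_le_atTop
      have e5 := squeeze_zero_norm (f := fun n =>
        (an n)⁻¹ * ∫ x, g (u (-r) • x) * Kr f (T n) x ∂μ -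
          (an n)⁻¹ * ∫ x, g x * Kr f (T n) x ∂μ) (fun n => e2 n) e4
      have e6 := hl1.sub hl2
      have e7 := tendsto_nhds_unique e5 e6
      linarith
    obtain ⟨D, hD⟩ : ∃ D : X → ℝ, D = fun x => Φ (u r • x) - Φ x := ⟨_, rfl⟩
    have hDm : Measurable D := by rw [hD]; exact (hΦm.comp hcomp).sub hΦm
    have hg : Dom ω (fun x => if 0 ≤ D x then ω x else - ω x) 1 := by
      refine ⟨Measurable.ite (measurableSet_le measurable_const hDm) hω.meas hω.meas.neg,
        fun x => ?_⟩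
      split_ifs
      · rw [one_mul, abs_of_pos (hω.pos x)]
      · rw [one_mul, abs_neg, abs_of_pos (hω.pos x)]
    obtain ⟨hi1, he⟩ := hid _ _ hg
    obtain ⟨hi2, _⟩ := hlim _ _ hg
    have h1 : ∀ x, (if 0 ≤ D x then ω x else - ω x) * Φ (u r • x) -
        (if 0 ≤ D x then ω x else - ω x) * Φ x = ω x * |D x| := by
      intro x
      rw [← mul_sub]
      have : Φ (u r • x) - Φ x = D x := by rw [hD]
      rw [this]
      split_ifs with h
      · rw [abs_of_nonneg h]
      · rw [abs_of_neg (not_le.1 h)]; ring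
    have h2 : ∫ x, ω x * |D x| ∂μ = 0 := by
      simp_rw [← h1]
      rw [integral_sub hi1 hi2, he, sub_self]
    have h3 : Integrable (fun x => ω x * |D x|) μ := by
      simp_rw [← h1]
      exact hi1.sub hi2
    rw [integral_eq_zero_iff_of_nonneg (fun x => mul_nonneg (hω.pos x).le (abs_nonneg _)) h3] at h2
    filter_upwards [h2] with x hx
    have h4 : |D x| = 0 := (mul_eq_zero.1 hx).resolve_left (hω.pos x).ne'
    have h5 : D x = 0 := abs_eq_zero.1 h4
    rw [hD] at h5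
    exact sub_eq_zero.1 h5
  obtain ⟨κ, hκ⟩ := herg Φ hΦm.aemeasurable hinv
  refine ⟨κ, fun g M' hg => ?_⟩
  have h1 := (hlim g M' hg).2
  have h2 : ∫ x, g x * Φ x ∂μ = κ * ∫ x, g x ∂μ := by
    rw [← integral_const_mul]
    refine integral_congr_ae ?_
    filter_upwards [hκ] with x hx
    rw [hx, mul_comm]
  rwa [h2] at h1

/-- the limit of the bilinear forms -/
theorem lim_beta2 (herg : Erg μ) {ω : X → ℝ} (hω : RW μ ω) {C : ℝ} {T : ℕ → ℝ}
    (hmo : Mo μ ω C T) (hpos : 0 < ∫ x, ω x ∂μ) :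
    ∃ κ : ℝ, 0 < κ ∧ ∀ (f : X → ℝ) (M : ℝ), Dom ω f M →
      Tendsto (fun n => (∫ x, ω x * Kr ω (T n) x ∂μ)⁻¹ * ∫ x, f x * Kr f (T n) x ∂μ)
        (hyperfilter ℕ : Filter ℕ) (𝓝 (κ * (∫ x, f x ∂μ) ^ 2)) := by
  have hωD : Dom ω ω 1 := ⟨hω.meas, fun x => by rw [one_mul, abs_of_pos (hω.pos x)]⟩
  obtain ⟨κ1, hκ1⟩ := lim_beta herg hω hmo hωD
  have h1 := hκ1 ω 1 hωD
  have h2 : κ1 * ∫ x, ω x ∂μ = 1 := by
    refine tendsto_nhds_unique h1 (Tendsto.congr (fun n => ?_) tendsto_const_nhds)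
    exact (inv_mul_cancel₀ (hmo.apos n).ne').symm
  have hκ1pos : 0 < κ1 := by
    by_contra hcon
    push Not at hcon
    nlinarith
  refine ⟨κ1 / ∫ x, ω x ∂μ, div_pos hκ1pos hpos, fun f M hf => ?_⟩
  obtain ⟨κf, hκf⟩ := lim_beta herg hω hmo hf
  have h3 := hκf ω 1 hωD
  have h4 := hκ1 f M hf
  have h5 : κf * ∫ x, ω x ∂μ = κ1 * ∫ x, f x ∂μ := by
    refine tendsto_nhds_unique h3 (h4.congr fun n => ?_)
    rw [Kr_symm hω hωD hf]
  have h6 := hκf f M hf
  have h7 : κf * ∫ x, f x ∂μ = κ1 / (∫ x, ω x ∂μ) * (∫ x, f x ∂μ) ^ 2 := by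
    have h8 : κf = κ1 * (∫ x, f x ∂μ) / ∫ x, ω x ∂μ := by
      rw [eq_div_iff hpos.ne']; exact h5
    rw [h8]; ring
  rwa [h7] at h6

end

end Pool.Agent.E8helper85.NS
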