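import Pool.Agent.E8helper85.NS.Plane2

/-!
# Topology of `SL(2, ℝ)`
-/

set_option autoImplicit false

open Filter Topology Set

namespace Pool.Agent.E8helper85.NS

/-- the four entries -/
def ent (g : G) : Fin 2 → Fin 2 → ℝ := fun i j => g i j

lemma ce_val : IsClosedEmbedding ent :=
  Matrix.SpecialLinearGroup.isClosedEmbedding_val (n := Fin 2) (R := ℝ)

instance instLCG : LocallyCompactSpace G := ce_val.locallyCompactSpace
instance instSCG : SecondCountableTopology G := ce_val.isEmbedding.secondCountableTopology
instance instT2G : T2Space G := ce_val.isEmbedding.t2Space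
instance instSigmaG : SigmaCompactSpace G := ce_val.sigmaCompactSpace
instance instPolishG : PolishSpace G := ce_val.polishSpace

@[fun_prop]
lemma continuous_entry (i j : Fin 2) : Continuous (fun g : G => g i j) :=
  (continuous_apply j).comp ((continuous_apply i).comp ce_val.continuous)

lemma continuous_of_entries {α : Type*} [TopologicalSpace α] {f : α → G}
    (h : ∀ i j, Continuous (fun x => f x i j)) : Continuous f := by
  rw [ce_val.isEmbedding.isInducing.continuous_iff]
  exact continuous_pi fun i => continuous_pi fun j => h i j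

@[fun_prop]
lemma continuous_q : Continuous q := by
  unfold q
  fun_prop

@[fun_prop]
lemma continuous_u : Continuous u := by
  refine continuous_of_entries fun i j => ?_
  fin_cases i <;> fin_cases j <;> simp <;> fun_prop

@[fun_prop]
lemma continuous_v : Continuous v := by
  refine continuous_of_entries fun i j => ?_
  fin_cases i <;> fin_cases j <;> simp <;> fun_prop

@[fun_prop]
lemma continuous_a : Continuous a := by
  refine continuous_of_entries fun i j => ?_
  fin_cases i <;> fin_cases j <;> simp <;> fun_prop

lemma isCompact_q (R : ℝ) : IsCompact {g : G | q g ≤ R} := by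
  have h1 : IsCompact (Set.pi univ fun _ : Fin 2 => Set.pi univ fun _ : Fin 2 =>
      Icc (-√R) √R) := isCompact_univ_pi fun _ => isCompact_univ_pi fun _ => isCompact_Icc
  have h2 := ce_val.isCompact_preimage h1
  refine h2.of_isClosed_subset (isClosed_le continuous_q continuous_const) ?_
  intro g hg
  simp only [mem_preimage, mem_univ_pi]
  intro i j
  exact abs_le.1 ((abs_entry_le g i j).trans (Real.sqrt_le_sqrt hg))

lemma finite_inter (Λ : Subgroup G) [DiscreteTopology Λ] (R : ℝ) :
    {g : G | g ∈ Λ ∧ q g ≤ R}.Finite := by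
  have hcl : IsClosed (Λ : Set G) := Subgroup.isClosed_of_discrete
  have h1 : IsCompact ((Λ : Set G) ∩ {g : G | q g ≤ R}) := (isCompact_q R).inter_left hcl
  have h2 : IsDiscrete ((Λ : Set G) ∩ {g : G | q g ≤ R}) :=
    (IsDiscrete.mk ‹DiscreteTopology Λ›).mono inter_subset_left
  exact h1.finite h2

lemma exists_coc (Λ : Subgroup G) [CompactSpace (G ⧸ Λ)] : ∃ Q : ℝ, Coc Λ Q := by
  have hopen : IsOpenMap (QuotientGroup.mk : G → G ⧸ Λ) := QuotientGroup.isOpenMap_coe
  obtain ⟨n, hn⟩ := isCompact_univ.elim_directed_cover
    (fun n : ℕ => (QuotientGroup.mk : G → G ⧸ Λ) '' {g | q g < n})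
    (fun n => hopen _ (isOpen_lt continuous_q continuous_const))
    (by
      intro x _
      obtain ⟨g, rfl⟩ := QuotientGroup.mk_surjective x
      obtain ⟨n, hn⟩ := exists_nat_gt (q g)
      exact mem_iUnion.2 ⟨n, mem_image_of_mem _ hn⟩)
    (by
      refine Monotone.directed_le fun m n hmn => image_mono ?_
      intro g hg
      have h : (m : ℝ) ≤ n := by exact_mod_cast hmn
      exact lt_of_lt_of_le hg h)
  refine ⟨n, fun g => ?_⟩
  obtain ⟨c, hc, hcg⟩ := hn (mem_univ (QuotientGroup.mk g))
  refine ⟨c, c⁻¹ * g, ?_, le_of_lt hc, by group⟩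
  exact QuotientGroup.eq.1 hcg

end Pool.Agent.E8helper85.NS
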