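import Pool.Agent.E8helper85.NS.Mom4
import Pool.Agent.E8helper85.NS.Growth

/-!
# The weight function
-/

set_option autoImplicit false

open MeasureTheory Filter Topology Set
open scoped ENNReal NNReal Pointwise

namespace Pool.Agent.E8helper85.NS

section prelim

lemma tsum_ind_le {ι : Type*} (P : Set ι) {F : Set G} (hF : F.Finite) (f : ι → G)
    (hf : InjOn f P) (hmaps : MapsTo f P F) :
    ∑' i, P.indicator (1 : ι → ℝ≥0∞) i ≤ F.ncard := by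
  have hP : P.Finite := Set.Finite.of_injOn hmaps hf hF
  have h1 : P.ncard ≤ F.ncard := Set.ncard_le_ncard_of_injOn f hmaps hf hF
  calc ∑' i, P.indicator (1 : ι → ℝ≥0∞) i = ∑ i ∈ hP.toFinset, P.indicator (1 : ι → ℝ≥0∞) i := by
        refine tsum_eq_sum fun i hi => ?_
        rw [Set.Finite.mem_toFinset] at hi
        exact indicator_of_notMem hi _
    _ ≤ ∑ i ∈ hP.toFinset, 1 := Finset.sum_le_sum fun i _ => indicator_le_self' (by simp) _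
    _ = (P.ncard : ℝ≥0∞) := by rw [Set.ncard_eq_toFinset_card _ hP]; simp
    _ ≤ (F.ncard : ℝ≥0∞) := by exact_mod_cast h1

lemma smul_mk (Γ : Subgroup G) (g h : G) : g • (h : G ⧸ Γ) = ((g * h : G) : G ⧸ Γ) := rfl

end prelim

section

variable {Λ Γ : Subgroup G} [DiscreteTopology Λ] [DiscreteTopology Γ]
  [hN : (Γ.subgroupOf Λ).Normal]

omit [DiscreteTopology Λ] [DiscreteTopology Γ] in
lemma nz_of_mem (hΓΛ : Γ ≤ Λ) {l : G} (hl : l ∈ Λ) : Nz Γ l := by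
  have key : ∀ l ∈ Λ, ∀ γ ∈ Γ, l * γ * l⁻¹ ∈ Γ := by
    intro l hl γ hγ
    have h := hN.conj_mem ⟨γ, hΓΛ hγ⟩ (Subgroup.mem_subgroupOf.2 hγ) ⟨l, hl⟩
    rw [Subgroup.mem_subgroupOf] at h
    simpa using h
  intro γ
  constructor
  · intro h
    have h1 := key l⁻¹ (inv_mem hl) _ h
    have h2 : l⁻¹ * (l * γ * l⁻¹) * l⁻¹⁻¹ = γ := by group
    rwa [h2] at h1
  · exact key l hl γ

/-- local comparison of measures -/
lemma loc_bound {Q : ℝ} (hcoc : Coc Λ Q) (hΓΛ : Γ ≤ Λ) {μ : Measure (G ⧸ Γ)}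
    [IsFiniteMeasureOnCompacts μ] [SMulInvariantMeasure G (G ⧸ Γ) μ] (y : G ⧸ Γ)
    (Ψ : G ⧸ Γ → ℝ≥0∞) (hΨ : Measurable Ψ) :
    ∫⁻ h in {h : G | Near h}, Ψ (h • y) ∂(nu Γ μ) ≤
      ({γ : G | γ ∈ Γ ∧ q γ ≤ Q * (11 * 11) * Q}.ncard : ℝ≥0∞) * ∫⁻ x, Ψ x ∂μ := by
  obtain ⟨g, rfl⟩ := QuotientGroup.mk_surjective y
  obtain ⟨c, l, hl, hc, rfl⟩ := hcoc g
  have hQ0 : 0 ≤ Q := (q_nonneg c).trans hc
  obtain ⟨ψ, hψ⟩ : ∃ ψ : G → ℝ≥0∞, ψ = fun h => {h : G | Near h}.indicator 1 (h * (c * l)⁻¹) :=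
    ⟨_, rfl⟩
  have hψm : Measurable ψ := by
    rw [hψ]
    exact (measurable_one.indicator measurableSet_near).comp (measurable_mul_const _)
  have hΨm : Measurable fun h : G => Ψ (h : G ⧸ Γ) := hΨ.comp QuotientGroup.measurable_coe
  calc ∫⁻ h in {h : G | Near h}, Ψ (h • ((c * l : G) : G ⧸ Γ)) ∂(nu Γ μ)
      = ∫⁻ h, (fun h : G => ψ h * Ψ (h : G ⧸ Γ)) (h * (c * l)) ∂(nu Γ μ) := by
        rw [← lintegral_indicator measurableSet_near]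
        refine lintegral_congr fun h => ?_
        simp only [hψ]
        rw [mul_inv_cancel_right]
        by_cases hh : h ∈ {h : G | Near h}
        · rw [indicator_of_mem hh, indicator_of_mem hh, Pi.one_apply, one_mul]
          rfl
        · rw [indicator_of_notMem hh, indicator_of_notMem hh, zero_mul]
    _ = ∫⁻ h, ψ h * Ψ (h : G ⧸ Γ) ∂(nu Γ μ) := nu_right Γ (c * l) (hψm.mul hΨm)
    _ = ∫⁻ x, per Γ ψ x * Ψ x ∂μ := by
        rw [lintegral_nu Γ μ (φ := fun h => ψ h * Ψ (h : G ⧸ Γ)) (hψm.mul hΨm)]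
        exact lintegral_congr fun x => per_mul_comp Γ ψ Ψ x
    _ ≤ ∫⁻ x, ({γ : G | γ ∈ Γ ∧ q γ ≤ Q * (11 * 11) * Q}.ncard : ℝ≥0∞) * Ψ x ∂μ := by
        refine lintegral_mono fun x => ?_
        refine mul_le_mul_left ?_ _
        obtain ⟨h, rfl⟩ := QuotientGroup.mk_surjective x
        rw [per_mk]
        obtain ⟨P, hP⟩ : ∃ P : Set Γ, P = {γ : Γ | Near (h * γ * (c * l)⁻¹)} := ⟨_, rfl⟩
        have h1 : ∀ γ : Γ, ψ (h * γ) = P.indicator 1 γ := by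
          intro γ
          rw [hψ, hP]
          rfl
        simp_rw [h1]
        by_cases hPe : P = ∅
        · rw [hPe]; simp
        obtain ⟨γ0, hγ0⟩ := Set.nonempty_iff_ne_empty.2 hPe
        refine tsum_ind_le P (finite_inter Γ _) (fun γ => l * ((γ0 : G)⁻¹ * γ) * l⁻¹) ?_ ?_
        · intro γ _ γ' _ h2
          simp only at h2
          have h3 := mul_right_cancel h2
          have h4 := mul_left_cancel h3
          have h5 := mul_left_cancel h4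
          exact Subtype.ext h5
        · intro γ hγ
          refine ⟨((nz_of_mem hΓΛ hl) _).2 (mul_mem (inv_mem γ0.2) γ.2), ?_⟩
          rw [hP] at hγ hγ0
          have e1 : l * ((γ0 : G)⁻¹ * γ) * l⁻¹ =
              c⁻¹ * ((h * γ0 * (c * l)⁻¹)⁻¹ * (h * γ * (c * l)⁻¹)) * c := by group
          show q (l * ((γ0 : G)⁻¹ * γ) * l⁻¹) ≤ Q * (11 * 11) * Q
          rw [e1]
          refine (q_mul_le _ _).trans ?_
          refine mul_le_mul ((q_mul_le _ _).trans ?_) hc (q_nonneg _)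
            (mul_nonneg hQ0 (by norm_num))
          rw [q_inv]
          refine mul_le_mul hc ((q_mul_le _ _).trans ?_) (q_nonneg _) hQ0
          rw [q_inv]
          exact mul_le_mul (Near.q_le hγ0) (Near.q_le hγ) (q_nonneg _) (by norm_num)
    _ = ({γ : G | γ ∈ Γ ∧ q γ ≤ Q * (11 * 11) * Q}.ncard : ℝ≥0∞) * ∫⁻ x, Ψ x ∂μ := by
        rw [lintegral_const_mul _ hΨ]

end

section weights

variable (Λ Γ : Subgroup G) (Q : ℝ)

/-- the basic compact set -/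
def K0 : Set (G ⧸ Γ) := QuotientGroup.mk '' {g : G | q g ≤ Q}

/-- translates of the basic compact set -/
def BB [(Γ.subgroupOf Λ).Normal] (d : Λ ⧸ Γ.subgroupOf Λ) : Set (G ⧸ Γ) :=
  (Rt Γ ((d.out : G))⁻¹) ⁻¹' (K0 Γ Q)

open Classical in
/-- the generating set -/
noncomputable def Sg [DiscreteTopology Λ] : Finset (Λ ⧸ Γ.subgroupOf Λ) :=
  (Set.Finite.toFinset (s := (fun l : Λ => (QuotientGroup.mk l : Λ ⧸ Γ.subgroupOf Λ)) ''
    {l : Λ | q (l : G) ≤ Q * 11 * Q}) (by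
      refine Set.Finite.image _ ?_
      refine Set.Finite.of_finite_image (f := fun l : Λ => (l : G))
        ((finite_inter Λ (Q * 11 * Q)).subset ?_) Subtype.val_injective.injOn
      rintro _ ⟨l, hl, rfl⟩
      exact ⟨l.2, hl⟩))

open Classical in
/-- the exhausting sets -/
def AA [DiscreteTopology Λ] [(Γ.subgroupOf Λ).Normal] (n : ℕ) : Set (G ⧸ Γ) :=
  ⋃ d ∈ (Sg Λ Γ Q ^ n : Finset (Λ ⧸ Γ.subgroupOf Λ)), BB Λ Γ Q d

/-- the weight -/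
noncomputable def wt [DiscreteTopology Λ] [(Γ.subgroupOf Λ).Normal] (x : G ⧸ Γ) : ℝ≥0∞ :=
  ∑' n : ℕ, (2⁻¹ : ℝ≥0∞) ^ (n + 1) * (AA Λ Γ Q n).indicator 1 x

variable {Λ Γ Q} [DiscreteTopology Λ] [DiscreteTopology Γ] [hN : (Γ.subgroupOf Λ).Normal]

omit [DiscreteTopology Λ] [DiscreteTopology Γ] in
lemma mem_BB (hΓΛ : Γ ≤ Λ) {d : Λ ⧸ Γ.subgroupOf Λ} {x : G ⧸ Γ} :
    x ∈ BB Λ Γ Q d ↔ ∃ c : G, q c ≤ Q ∧ ∃ l : Λ, (QuotientGroup.mk l : Λ ⧸ Γ.subgroupOf Λ) = d ∧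
      x = ((c * l : G) : G ⧸ Γ) := by
  have hnz : Nz Γ ((d.out : G))⁻¹ := nz_of_mem hΓΛ (inv_mem d.out.2)
  constructor
  · intro hx
    obtain ⟨g, rfl⟩ := QuotientGroup.mk_surjective x
    unfold BB at hx
    rw [mem_preimage, Rt_mk Γ hnz] at hx
    obtain ⟨c, hc, hcg⟩ := hx
    have h1 : c⁻¹ * (g * ((d.out : G))⁻¹) ∈ Γ := QuotientGroup.eq.1 hcg
    refine ⟨c, hc, ⟨c⁻¹ * g, ?_⟩, ?_, ?_⟩
    · have h2 : c⁻¹ * g = c⁻¹ * (g * ((d.out : G))⁻¹) * (d.out : G) := by group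
      rw [h2]
      exact mul_mem (hΓΛ h1) d.out.2
    · have h3 : (QuotientGroup.mk d.out : Λ ⧸ Γ.subgroupOf Λ) = d := QuotientGroup.out_eq' d
      refine Eq.trans ?_ h3
      symm
      rw [QuotientGroup.eq, Subgroup.mem_subgroupOf]
      show ((d.out : G))⁻¹ * (c⁻¹ * g) ∈ Γ
      have h4 := (nz_of_mem (hN := hN) hΓΛ (inv_mem d.out.2) _).2 h1
      have h5 : ((d.out : G))⁻¹ * (c⁻¹ * (g * ((d.out : G))⁻¹)) * ((d.out : G))⁻¹⁻¹ =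
          ((d.out : G))⁻¹ * (c⁻¹ * g) := by group
      rw [← h5]
      convert h4 using 2
    · congr 1
      show g = c * (c⁻¹ * g)
      group
  · rintro ⟨c, hc, l, hl, rfl⟩
    unfold BB
    rw [mem_preimage, Rt_mk Γ hnz]
    refine ⟨c, hc, ?_⟩
    rw [QuotientGroup.eq]
    have h3 : (QuotientGroup.mk d.out : Λ ⧸ Γ.subgroupOf Λ) = QuotientGroup.mk l := by
      rw [hl]; exact QuotientGroup.out_eq' d
    rw [QuotientGroup.eq, Subgroup.mem_subgroupOf] at h3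
    have h4 : ((d.out : G))⁻¹ * (l : G) ∈ Γ := h3
    have h5 := (nz_of_mem (hN := hN) hΓΛ d.out.2 _).2 h4
    have h6 : c⁻¹ * (c * (l : G) * ((d.out : G))⁻¹) =
        (d.out : G) * (((d.out : G))⁻¹ * (l : G)) * ((d.out : G))⁻¹ := by group
    rw [h6]
    exact h5

omit [DiscreteTopology Λ] hN in
lemma measurableSet_K0 : MeasurableSet (K0 Γ Q) := (isCompact_mk_qball Γ Q).isClosed.measurableSet

omit [DiscreteTopology Λ] in
lemma measurableSet_BB (hΓΛ : Γ ≤ Λ) (d : Λ ⧸ Γ.subgroupOf Λ) : MeasurableSet (BB Λ Γ Q d) :=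
  measurable_Rt Γ (nz_of_mem hΓΛ (inv_mem d.out.2)) measurableSet_K0

lemma measurableSet_AA (hΓΛ : Γ ≤ Λ) (n : ℕ) : MeasurableSet (AA Λ Γ Q n) := by
  classical
  unfold AA
  exact Finset.measurableSet_biUnion _ fun d _ => measurableSet_BB hΓΛ d

omit [DiscreteTopology Γ] in
lemma AA_zero (hΓΛ : Γ ≤ Λ) : AA Λ Γ Q 0 = K0 Γ Q := by
  classical
  unfold AA
  ext x
  simp only [pow_zero, Finset.mem_one, iUnion_iUnion_eq_left]
  rw [mem_BB hΓΛ]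
  constructor
  · rintro ⟨c, hc, l, hl, rfl⟩
    refine ⟨c, hc, ?_⟩
    rw [QuotientGroup.eq_one_iff, Subgroup.mem_subgroupOf] at hl
    exact (QuotientGroup.mk_mul_of_mem c hl).symm
  · rintro ⟨c, hc, rfl⟩
    exact ⟨c, hc, 1, rfl, by simp⟩

omit [DiscreteTopology Γ] in
lemma AA_step (hcoc : Coc Λ Q) (hΓΛ : Γ ≤ Λ) (n : ℕ) (b : G) (x : G ⧸ Γ) (hb : q b ≤ 11)
    (hx : x ∈ AA Λ Γ Q n) : b • x ∈ AA Λ Γ Q (n + 1) := by
  classical
  unfold AA at hx ⊢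
  simp only [mem_iUnion, exists_prop] at hx ⊢
  obtain ⟨d, hd, hx⟩ := hx
  rw [mem_BB hΓΛ] at hx
  obtain ⟨c, hc, l, hl, rfl⟩ := hx
  obtain ⟨c', l', hl', hc', hcl⟩ := hcoc (b * c)
  have hQ0 : 0 ≤ Q := (q_nonneg c).trans hc
  have hql : q l' ≤ Q * 11 * Q := by
    have h1 : l' = c'⁻¹ * b * c := by rw [mul_assoc, hcl]; group
    rw [h1]
    refine (q_mul_le _ _).trans (mul_le_mul ((q_mul_le _ _).trans ?_) hc (q_nonneg _)
      (by positivity))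
    rw [q_inv]
    exact mul_le_mul hc' hb (q_nonneg _) hQ0
  refine ⟨(QuotientGroup.mk (⟨l', hl'⟩ : Λ) : Λ ⧸ Γ.subgroupOf Λ) * d, ?_, ?_⟩
  · rw [pow_succ']
    refine Finset.mul_mem_mul ?_ hd
    unfold Sg
    rw [Set.Finite.mem_toFinset]
    exact ⟨⟨l', hl'⟩, hql, rfl⟩
  · rw [mem_BB hΓΛ]
    refine ⟨c', hc', ⟨l', hl'⟩ * l, ?_, ?_⟩
    · rw [QuotientGroup.mk_mul, hl]
    · rw [smul_mk, ← mul_assoc, hcl, mul_assoc]
      rfl

lemma AA_grow (hnil : Group.IsNilpotent (Λ ⧸ Γ.subgroupOf Λ)) (hΓΛ : Γ ≤ Λ)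
    (μ : Measure (G ⧸ Γ)) [IsFiniteMeasureOnCompacts μ] [SMulInvariantMeasure G (G ⧸ Γ) μ] :
    ∃ C κ : ℕ, ∀ n : ℕ, μ (AA Λ Γ Q n) ≤ (C * μ (K0 Γ Q)) * ((n : ℝ≥0∞) + 1) ^ κ := by
  classical
  obtain ⟨C, κ, h⟩ := pg_top hnil (Sg Λ Γ Q) (fun s _ => Subgroup.mem_top s)
  refine ⟨C, κ, fun n => ?_⟩
  have h1 : ∀ d : Λ ⧸ Γ.subgroupOf Λ, μ (BB Λ Γ Q d) = μ (K0 Γ Q) := by
    intro d
    unfold BB
    exact (right_inv Γ (nz_of_mem hΓΛ (inv_mem d.out.2))).measure_preimage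
      measurableSet_K0.nullMeasurableSet
  unfold AA
  calc μ (⋃ d ∈ (Sg Λ Γ Q ^ n : Finset (Λ ⧸ Γ.subgroupOf Λ)), BB Λ Γ Q d)
      ≤ ∑ d ∈ (Sg Λ Γ Q ^ n : Finset (Λ ⧸ Γ.subgroupOf Λ)), μ (BB Λ Γ Q d) :=
        measure_biUnion_finset_le _ _
    _ = ((Sg Λ Γ Q ^ n : Finset (Λ ⧸ Γ.subgroupOf Λ)).card : ℝ≥0∞) * μ (K0 Γ Q) := by
        simp_rw [h1]
        rw [Finset.sum_const, nsmul_eq_mul]
    _ ≤ ((C * (n + 1) ^ κ : ℕ) : ℝ≥0∞) * μ (K0 Γ Q) := by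
        have h2 : (Sg Λ Γ Q ^ n : Finset (Λ ⧸ Γ.subgroupOf Λ)).card ≤ C * (n + 1) ^ κ := by
          convert h n
        gcongr
    _ = (C * μ (K0 Γ Q)) * ((n : ℝ≥0∞) + 1) ^ κ := by push_cast; ring

omit [DiscreteTopology Γ] in
lemma AA_cover (hcoc : Coc Λ Q) (hΓΛ : Γ ≤ Λ) (x : G ⧸ Γ) : ∃ n, x ∈ AA Λ Γ Q n := by
  have hone : ((1 : G) : G ⧸ Γ) ∈ AA Λ Γ Q 0 := by
    rw [AA_zero hΓΛ]
    obtain ⟨c, _, _, hc, _⟩ := hcoc 1
    refine ⟨1, ?_, rfl⟩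
    show q 1 ≤ Q
    rw [q_one]
    exact (two_le_q c).trans hc
  have key : ∀ (k : ℝ → G), (∀ s t, k (s + t) = k s * k t) → (∀ t, |t| ≤ 1 → q (k t) ≤ 11) →
      ∀ (t : ℝ) (x : G ⧸ Γ), (∃ n, x ∈ AA Λ Γ Q n) → ∃ n, k t • x ∈ AA Λ Γ Q n := by
    intro k hk hq
    have h0 : k 0 = 1 := by
      have := hk 0 0
      rw [add_zero] at this
      exact (mul_eq_left.1 this.symm)
    have h1 : ∀ (m : ℕ) (s : ℝ), |s| ≤ 1 → ∀ x : G ⧸ Γ, (∃ n, x ∈ AA Λ Γ Q n) →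
        ∃ n, k (m * s) • x ∈ AA Λ Γ Q n := by
      intro m s hs x hx
      induction m with
      | zero => simpa [h0] using hx
      | succ m ih =>
        obtain ⟨n, hn⟩ := ih
        refine ⟨n + 1, ?_⟩
        have e1 : k (((m + 1 : ℕ) : ℝ) * s) = k s * k (m * s) := by
          rw [← hk]; congr 1; push_cast; ring
        rw [e1, mul_smul]
        exact AA_step hcoc hΓΛ n _ _ (hq s hs) hn
    intro t x hx
    obtain ⟨m, hm⟩ := exists_nat_ge |t|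
    have h2 := h1 (m + 1) (t / (m + 1)) (by
      rw [abs_div, abs_of_pos (by positivity : (0 : ℝ) < m + 1), div_le_one (by positivity)]
      linarith) x hx
    have h3 : ((m + 1 : ℕ) : ℝ) * (t / (m + 1)) = t := by
      push_cast; field_simp
    rwa [h3] at h2
  have hq1 : ∀ t : ℝ, |t| ≤ 1 → 2 + t ^ 2 ≤ 11 := by
    intro t ht
    rw [← sq_abs]
    nlinarith [abs_nonneg t]
  have hu := key u u_add (fun t ht => by rw [q_u]; exact hq1 t ht)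
  have hv := key v v_add (fun t ht => by rw [q_v]; exact hq1 t ht)
  obtain ⟨g, rfl⟩ := QuotientGroup.mk_surjective x
  obtain ⟨p, r, z, t, rfl⟩ := gen g
  have h := hu p _ (hv r _ (hu z _ (hv t _ ⟨0, hone⟩)))
  rw [smul_mk, smul_mk, smul_mk, smul_mk] at h
  simpa [mul_assoc] using h

lemma wt_wt (hcoc : Coc Λ Q) (hΓΛ : Γ ≤ Λ) : Wt (wt Λ Γ Q) where
  meas := by
    unfold wt
    exact Measurable.tsum fun n =>
      (measurable_one.indicator (measurableSet_AA hΓΛ n)).const_mul _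
  le_one := by
    intro x
    unfold wt
    have h2 : ∑' n : ℕ, (2⁻¹ : ℝ≥0∞) ^ (n + 1) = 1 := by
      rw [ENNReal.tsum_geometric_add_one, ENNReal.one_sub_inv_two, inv_inv]
      exact ENNReal.inv_mul_cancel (by simp) (by simp)
    refine le_trans (ENNReal.tsum_le_tsum fun n => ?_) h2.le
    exact mul_le_of_le_one_right bot_le (indicator_le_self' (by simp) _)
  smul_le := by
    intro b x hb
    unfold wt
    have h1 : ∀ n, (AA Λ Γ Q n).indicator (1 : G ⧸ Γ → ℝ≥0∞) (b • x) ≤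
        (AA Λ Γ Q (n + 1)).indicator 1 x := by
      intro n
      by_cases hx : b • x ∈ AA Λ Γ Q n
      · have h2 := AA_step hcoc hΓΛ n b⁻¹ (b • x) (by rwa [q_inv]) hx
        rw [inv_smul_smul] at h2
        rw [indicator_of_mem hx, indicator_of_mem h2]
        exact le_refl _
      · rw [indicator_of_notMem hx]; exact bot_le
    calc ∑' n : ℕ, (2⁻¹ : ℝ≥0∞) ^ (n + 1) * (AA Λ Γ Q n).indicator 1 (b • x)
        ≤ ∑' n : ℕ, 2 * ((2⁻¹ : ℝ≥0∞) ^ (n + 1 + 1) * (AA Λ Γ Q (n + 1)).indicator 1 x) := by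
          refine ENNReal.tsum_le_tsum fun n => ?_
          calc (2⁻¹ : ℝ≥0∞) ^ (n + 1) * (AA Λ Γ Q n).indicator 1 (b • x)
              ≤ (2⁻¹ : ℝ≥0∞) ^ (n + 1) * (AA Λ Γ Q (n + 1)).indicator 1 x := cm _ (h1 n)
            _ = (2 * 2⁻¹) * ((2⁻¹ : ℝ≥0∞) ^ (n + 1) * (AA Λ Γ Q (n + 1)).indicator 1 x) := by
                rw [ENNReal.mul_inv_cancel (by simp) (by simp), one_mul]
            _ = 2 * ((2⁻¹ : ℝ≥0∞) ^ (n + 1 + 1) * (AA Λ Γ Q (n + 1)).indicator 1 x) := by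
                rw [pow_succ (2⁻¹ : ℝ≥0∞) (n + 1)]; ring
      _ = 2 * ∑' n : ℕ, ((2⁻¹ : ℝ≥0∞) ^ (n + 1 + 1) * (AA Λ Γ Q (n + 1)).indicator 1 x) := by
          rw [ENNReal.tsum_mul_left]
      _ ≤ 2 * ∑' n : ℕ, ((2⁻¹ : ℝ≥0∞) ^ (n + 1) * (AA Λ Γ Q n).indicator 1 x) := by
          refine cm _ ?_
          exact ENNReal.tsum_comp_le_tsum_of_injective (add_left_injective 1)
            (fun n => (2⁻¹ : ℝ≥0∞) ^ (n + 1) * (AA Λ Γ Q n).indicator 1 x)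

omit [DiscreteTopology Γ] in
lemma wt_ge (n : ℕ) {x : G ⧸ Γ} (hx : x ∈ AA Λ Γ Q n) : (2⁻¹ : ℝ≥0∞) ^ (n + 1) ≤ wt Λ Γ Q x := by
  unfold wt
  refine le_trans ?_ (ENNReal.le_tsum n)
  rw [indicator_of_mem hx, Pi.one_apply, mul_one]

omit [DiscreteTopology Γ] in
lemma wt_pos (hcoc : Coc Λ Q) (hΓΛ : Γ ≤ Λ) (x : G ⧸ Γ) : wt Λ Γ Q x ≠ 0 := by
  obtain ⟨n, hn⟩ := AA_cover hcoc hΓΛ x
  have h := wt_ge n hn
  exact (lt_of_lt_of_le (ENNReal.pow_pos (by simp) _) h).ne'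

lemma sum_fin (C : ℝ≥0∞) (hC : C ≠ ∞) (κ : ℕ) :
    ∑' n : ℕ, (2⁻¹ : ℝ≥0∞) ^ (n + 1) * (C * ((n : ℝ≥0∞) + 1) ^ κ) ≠ ∞ := by
  have h1 : Summable fun n : ℕ => ((n : ℝ)) ^ κ * (2⁻¹ : ℝ) ^ n :=
    summable_pow_mul_geometric_of_norm_lt_one κ (by norm_num)
  have h2 : Summable fun n : ℕ => (((n + 1 : ℕ) : ℝ)) ^ κ * (2⁻¹ : ℝ) ^ (n + 1) :=
    (summable_nat_add_iff 1).2 h1
  have h3 : ∑' n : ℕ, (2⁻¹ : ℝ≥0∞) ^ (n + 1) * (C * ((n : ℝ≥0∞) + 1) ^ κ) =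
      C * ∑' n : ℕ, ENNReal.ofReal ((((n + 1 : ℕ) : ℝ)) ^ κ * (2⁻¹ : ℝ) ^ (n + 1)) := by
    rw [← ENNReal.tsum_mul_left]
    refine tsum_congr fun n => ?_
    rw [ENNReal.ofReal_mul (by positivity), ENNReal.ofReal_pow (by positivity),
      ENNReal.ofReal_pow (by positivity), ENNReal.ofReal_natCast,
      ENNReal.ofReal_inv_of_pos (by norm_num)]
    simp only [ENNReal.ofReal_ofNat]
    push_cast
    ring
  rw [h3]
  exact ENNReal.mul_ne_top hC h2.tsum_ofReal_ne_top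

/-- **the second moment theorem** -/
theorem moment_wt (hcoc : Coc Λ Q) (hnil : Group.IsNilpotent (Λ ⧸ Γ.subgroupOf Λ)) (hΓΛ : Γ ≤ Λ)
    (μ : Measure (G ⧸ Γ)) [IsFiniteMeasureOnCompacts μ] [SFinite μ]
    [SMulInvariantMeasure G (G ⧸ Γ) μ] (hμ : μ ≠ 0) :
    ∫⁻ x, wt Λ Γ Q x ∂μ ≠ ∞ ∧
    ∃ C : ℝ≥0∞, C ≠ ∞ ∧ ∃ T : ℕ → ℝ, (∀ n, 0 < T n) ∧
      (∀ n, ∫⁻ x, wt Λ Γ Q x * KK (wt Λ Γ Q) (T n) x ^ 2 ∂μ ≤
        C * (∫⁻ x, wt Λ Γ Q x * KK (wt Λ Γ Q) (T n) x ∂μ) ^ 2) ∧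
      Tendsto (fun n => ∫⁻ x, wt Λ Γ Q x * KK (wt Λ Γ Q) (T n) x ∂μ) atTop (𝓝 ∞) := by
  have hW : Wt (wt Λ Γ Q) := wt_wt hcoc hΓΛ
  obtain ⟨C, κ, hgrow⟩ := AA_grow (Q := Q) hnil hΓΛ μ
  have hK0 : μ (K0 Γ Q) < ∞ := (isCompact_mk_qball Γ Q).measure_lt_top
  have hCg : (C : ℝ≥0∞) * μ (K0 Γ Q) ≠ ∞ := ENNReal.mul_ne_top (by simp) hK0.ne
  have hint : ∫⁻ x, wt Λ Γ Q x ∂μ ≠ ∞ := by
    have h1 : ∫⁻ x, wt Λ Γ Q x ∂μ = ∑' n : ℕ, (2⁻¹ : ℝ≥0∞) ^ (n + 1) * μ (AA Λ Γ Q n) := by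
      unfold wt
      rw [lintegral_tsum]
      · refine tsum_congr fun n => ?_
        rw [lintegral_const_mul _ (measurable_one.indicator (measurableSet_AA hΓΛ n)),
          lintegral_indicator_one (measurableSet_AA hΓΛ n)]
      · intro n
        exact ((measurable_one.indicator (measurableSet_AA hΓΛ n)).const_mul _).aemeasurable
    rw [h1]
    refine ne_top_of_le_ne_top (sum_fin _ hCg κ) (ENNReal.tsum_le_tsum fun n => ?_)
    exact cm _ (hgrow n)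
  refine ⟨hint, ?_⟩
  have hA0 : μ (AA Λ Γ Q 0) ≠ 0 := by
    intro hcon
    apply hμ
    rw [← Measure.measure_univ_eq_zero]
    have h1 : (univ : Set (G ⧸ Γ)) ⊆ ⋃ n, AA Λ Γ Q n := by
      intro x _
      exact mem_iUnion.2 (AA_cover hcoc hΓΛ x)
    refine measure_mono_null h1 (measure_iUnion_null fun n => ?_)
    have h2 := hgrow n
    rw [AA_zero hΓΛ] at hcon
    rw [hcon, mul_zero, zero_mul] at h2
    exact le_antisymm h2 bot_le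
  have hν := nu_haar Γ hμ
  have hnear : (nu Γ μ) {h : G | Near h} ≠ 0 := by
    have h1 : IsOpen {h : G | |h 0 0 - 1| < 1 / 4 ∧ |h 0 1| < 1 / 4 ∧ |h 1 0| < 1 / 4 ∧
        |h 1 1 - 1| < 1 / 4} := by
      refine IsOpen.inter ?_ (IsOpen.inter ?_ (IsOpen.inter ?_ ?_))
      · exact isOpen_lt ((continuous_entry 0 0).sub continuous_const).abs continuous_const
      · exact isOpen_lt (continuous_entry 0 1).abs continuous_const
      · exact isOpen_lt (continuous_entry 1 0).abs continuous_const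
      · exact isOpen_lt ((continuous_entry 1 1).sub continuous_const).abs continuous_const
    have h2 := h1.measure_pos (nu Γ μ) ⟨1, by simp⟩
    refine (lt_of_lt_of_le h2 (measure_mono ?_)).ne'
    rintro h ⟨a1, a2, a3, a4⟩
    exact ⟨a1.le, a2.le, a3.le, a4.le⟩
  have hnear' : (nu Γ μ) {h : G | Near h} ≠ ∞ := by
    have h1 : (nu Γ μ) {h : G | Near h} ≤ (nu Γ μ) {g : G | q g ≤ 11} :=
      measure_mono fun h hh => Near.q_le hh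
    exact ne_top_of_le_ne_top (isCompact_q 11).measure_lt_top.ne h1
  obtain ⟨N, hNdef⟩ : ∃ N : ℝ≥0∞,
      N = ({γ : G | γ ∈ Γ ∧ q γ ≤ Q * (11 * 11) * Q}.ncard : ℝ≥0∞) := ⟨_, rfl⟩
  have hNtop : N ≠ ∞ := by rw [hNdef]; exact ENNReal.natCast_ne_top _
  refine moment hW (measurableSet_AA hΓΛ) (AA_step hcoc hΓΛ) ?_ hint hA0 hCg hgrow
    (C2 := ((nu Γ μ) {h : G | Near h})⁻¹ * (N * 190512)) ?_ ?_
  · intro x hx
    have := wt_ge 0 hx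
    simpa using this
  · exact ENNReal.mul_ne_top (ENNReal.inv_ne_top.2 hnear)
      (ENNReal.mul_ne_top hNtop (by simp))
  · intro r hr y
    obtain ⟨g, rfl⟩ := QuotientGroup.mk_surjective y
    obtain ⟨c, l, hl, hc, hg⟩ := hcoc g
    have hnz : Nz Γ l⁻¹ := nz_of_mem hΓΛ (inv_mem hl)
    have hR : Sym μ (Rt Γ l⁻¹) := ⟨right_inv Γ hnz, Rt_smul Γ hnz⟩
    have hy : (2⁻¹ : ℝ≥0∞) ≤ wt Λ Γ Q (Rt Γ l⁻¹ (g : G ⧸ Γ)) := by
      rw [Rt_mk Γ hnz]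
      have hmem : ((g * l⁻¹ : G) : G ⧸ Γ) ∈ AA Λ Γ Q 0 := by
        rw [AA_zero hΓΛ]
        refine ⟨c, hc, ?_⟩
        rw [hg]; congr 1; group
      simpa using wt_ge 0 hmem
    have h1 := sup_bound hW (ν := nu Γ μ) (N := N) (y := (g : G ⧸ Γ)) (μ := μ)
      (fun Ψ hΨ => by rw [hNdef]; exact loc_bound hcoc hΓΛ _ Ψ hΨ) hR hy hr
    calc FF (wt Λ Γ Q) (2 * r) 1 (g : G ⧸ Γ)
        = ((nu Γ μ) {h : G | Near h})⁻¹ * ((nu Γ μ) {h : G | Near h} *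
          FF (wt Λ Γ Q) (2 * r) 1 (g : G ⧸ Γ)) := by
          rw [← mul_assoc, ENNReal.inv_mul_cancel hnear hnear', one_mul]
      _ ≤ ((nu Γ μ) {h : G | Near h})⁻¹ * (N * (190512 * f2 μ (wt Λ Γ Q) r)) := cm _ h1
      _ = ((nu Γ μ) {h : G | Near h})⁻¹ * (N * 190512) * f2 μ (wt Λ Γ Q) r := by ring

end weights

end Pool.Agent.E8helper85.NS
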